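import Pool.Agent.Helper60.GT.Sep

/-!
# Functionals separate the points of the projective tensor product of two C*-algebras
-/

namespace Pool.Agent.Helper60.GT

open Filter Topology Complex
open scoped ComplexOrder

section tail

theorem exists_le_one (f : ℕ → ℝ) (n₀ : ℕ) : ∃ M : ℝ, 1 ≤ M ∧ ∀ n < n₀, f n ≤ M := by
  induction n₀ with
  | zero => exact ⟨1, le_rfl, by simp⟩
  | succ n ih =>
    obtain ⟨M, h1, h2⟩ := ih
    refine ⟨max M (f n), h1.trans (le_max_left _ _), fun k hk => ?_⟩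
    rcases Nat.lt_succ_iff_lt_or_eq.1 hk with h | h
    · exact (h2 k h).trans (le_max_left _ _)
    · rw [h]
      exact le_max_right _ _

end tail

variable {A B : Type*} [CStarAlgebra A] [CStarAlgebra B]
  [PartialOrder A] [StarOrderedRing A] [PartialOrder B] [StarOrderedRing B]

/-- The estimate for one term. -/
theorem one_term (V : A →L[ℂ] B →L[ℂ] ℂ) {η₁ : ℝ} (hη₁ : 0 ≤ η₁) {ωA : A →L[ℂ] ℂ} (hωA : Pos ωA)
    (hJ : ∀ x : A, ‖x‖ ≤ 1 → (ωA (star x * x)).re + (ωA (x * star x)).re ≤ 1 → ‖V x‖ ≤ η₁)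
    {a : A} {b : B} {ωB : B →L[ℂ] ℂ} (hωB : Pos ωB)
    (hB1 : ∀ y, ‖V (star a) y‖ ^ 2 ≤ (ωB (star y * y)).re)
    (hB2 : ∀ y, ‖V (star a) y‖ ^ 2 ≤ (ωB (y * star y)).re)
    {M : ℝ} (hM : 1 ≤ M) (ha : ‖a‖ ≤ M) (hb : ‖b‖ ≤ M) {s : ℝ} (hs : 8 * M ^ 2 * s ≤ 1)
    {u : A} {v : B} (hu : u ∈ unitary A) (hv : v ∈ unitary B) {α β : ℂ} (hα : ‖α‖ ≤ 1)
    (hβ : ‖β‖ ≤ 1) (hαβ : ‖α ^ 2 * β ^ 2 - 1‖ ≤ 2 * √s)
    (h1 : (ωA (star (u - α • 1) * (u - α • 1))).re ≤ s)
    (h2 : (ωA ((u - α • 1) * star (u - α • 1))).re ≤ s)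
    (h3 : (ωA (a * (star (u - α • 1) * (u - α • 1)) * star a)).re ≤ s)
    (h4 : (ωA (star a * ((u - α • 1) * star (u - α • 1)) * a)).re ≤ s)
    (h5 : (ωB (star (v - β • 1) * (v - β • 1))).re ≤ s)
    (h6 : (ωB ((v - β • 1) * star (v - β • 1))).re ≤ s) :
    ‖V (u * star a * u) (v * star b * v) - V (star a) (star b)‖ ≤
      √s * (2 * ‖V‖ * M ^ 2 + 4 * M) + 12 * M ^ 2 * η₁ := by
  have hM0 : 0 ≤ M := by linarith
  have e1 := est_A V hωA hJ hM ha hu hα (rfl : u - α • 1 = u - α • 1) hs h1 h2 h3 h4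
  have e2 := est_B (f := V (star a)) hωB hB1 hB2 hM hb hv hβ (rfl : v - β • 1 = v - β • 1) h5 h6
  have e3 : V (u * star a * u) (v * star b * v) - V (star a) (star b) =
      V (u * star a * u - (α ^ 2) • star a) (v * star b * v) +
      α ^ 2 * V (star a) (v * star b * v - (β ^ 2) • star b) +
      (α ^ 2 * β ^ 2 - 1) * V (star a) (star b) := by
    rw [map_sub, sub_apply, map_sub (V (star a)), map_smul, smul_apply, map_smul (V (star a)),
      smul_eq_mul, smul_eq_mul]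
    ring
  rw [e3]
  have hY : ‖v * star b * v‖ ≤ M := by
    calc ‖v * star b * v‖ ≤ ‖v * star b‖ * ‖v‖ := norm_mul_le _ _
      _ ≤ ‖v * star b‖ := mul_le_of_le_one_right (norm_nonneg _) (norm_unitary_le hv)
      _ ≤ ‖v‖ * ‖star b‖ := norm_mul_le _ _
      _ ≤ ‖star b‖ := mul_le_of_le_one_left (norm_nonneg _) (norm_unitary_le hv)
      _ ≤ M := by rw [norm_star]; exact hb
  have f1 : ‖V (u * star a * u - (α ^ 2) • star a) (v * star b * v)‖ ≤ 12 * M * η₁ * M :=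
    ((V _).le_opNorm _).trans (mul_le_mul e1 hY (norm_nonneg _) (by positivity))
  have f2 : ‖α ^ 2 * V (star a) (v * star b * v - (β ^ 2) • star b)‖ ≤ 4 * M * √s := by
    rw [norm_mul, norm_pow]
    refine (mul_le_of_le_one_left (norm_nonneg _) ?_).trans e2
    exact pow_le_one₀ (norm_nonneg _) hα
  have f3 : ‖(α ^ 2 * β ^ 2 - 1) * V (star a) (star b)‖ ≤ 2 * √s * (‖V‖ * (M * M)) := by
    rw [norm_mul]
    refine mul_le_mul hαβ ?_ (norm_nonneg _) (by positivity)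
    refine (norm_bil_le V _ _).trans (mul_le_mul_of_nonneg_left ?_ (norm_nonneg V))
    rw [norm_star, norm_star]
    exact mul_le_mul ha hb (norm_nonneg _) hM0
  refine (norm_add_le _ _).trans ?_
  have f4 := norm_add_le (V (u * star a * u - (α ^ 2) • star a) (v * star b * v))
    (α ^ 2 * V (star a) (v * star b * v - (β ^ 2) • star b))
  nlinarith

theorem anti_bound [Nontrivial A] [Nontrivial B] (V : A →L[ℂ] B →L[ℂ] ℂ) (a : ℕ → A) (b : ℕ → B)
    (hab : Summable fun n => ‖a n‖ * ‖b n‖)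
    (hN : ∀ (φ : A →L[ℂ] ℂ) (ψ : B →L[ℂ] ℂ), ∑' n, φ (a n) * ψ (b n) = 0) (η : ℝ) (hη : 0 < η) :
    ‖∑' n, V (a n) (b n) + ∑' n, (starRingEnd ℂ) (V (star (a n)) (star (b n)))‖ ≤
      (1 + 2 * ‖V‖) * η := by
  -- the tail
  obtain ⟨n₀, hn₀⟩ : ∃ n₀ : ℕ, ∑' n, ‖a (n + n₀)‖ * ‖b (n + n₀)‖ ≤ η :=
    ((tendsto_sum_nat_add fun n => ‖a n‖ * ‖b n‖).eventually (ge_mem_nhds hη)).exists
  obtain ⟨M, hM, hM'⟩ := exists_le_one (fun n => max ‖a n‖ ‖b n‖) n₀
  have hMa : ∀ n < n₀, ‖a n‖ ≤ M := fun n hn => (le_max_left _ _).trans (hM' n hn)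
  have hMb : ∀ n < n₀, ‖b n‖ ≤ M := fun n hn => (le_max_right _ _).trans (hM' n hn)
  have hM0 : 0 < M := by linarith
  -- the parameters
  obtain ⟨ε, hε⟩ : ∃ ε, ε = η / ((n₀ : ℝ) + 1) := ⟨_, rfl⟩
  have hε0 : 0 < ε := by rw [hε]; positivity
  obtain ⟨η₁, hη₁⟩ : ∃ η₁, η₁ = ε / (24 * M ^ 2) := ⟨_, rfl⟩
  have hη₁0 : 0 < η₁ := by rw [hη₁]; positivity
  obtain ⟨r, hr⟩ : ∃ r, r = min (ε / (2 * (2 * ‖V‖ * M ^ 2 + 4 * M))) (1 / (3 * M)) := ⟨_, rfl⟩
  have hr0 : 0 < r := by rw [hr]; positivity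
  have hr1 : r * (2 * ‖V‖ * M ^ 2 + 4 * M) ≤ ε / 2 := by
    have h1 : r ≤ ε / (2 * (2 * ‖V‖ * M ^ 2 + 4 * M)) := by rw [hr]; exact min_le_left _ _
    calc r * (2 * ‖V‖ * M ^ 2 + 4 * M) ≤
          ε / (2 * (2 * ‖V‖ * M ^ 2 + 4 * M)) * (2 * ‖V‖ * M ^ 2 + 4 * M) :=
            mul_le_mul_of_nonneg_right h1 (by positivity)
      _ = ε / 2 := by
          field_simp
  have hr2 : 8 * M ^ 2 * r ^ 2 ≤ 1 := by
    have h1 : r ≤ 1 / (3 * M) := by rw [hr]; exact min_le_right _ _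
    have h2 : M * r ≤ 1 / 3 := by
      calc M * r ≤ M * (1 / (3 * M)) := mul_le_mul_of_nonneg_left h1 hM0.le
        _ = 1 / 3 := by field_simp
    have h3 : 0 ≤ M * r := by positivity
    nlinarith
  obtain ⟨s, hs⟩ : ∃ s, s = r ^ 2 := ⟨_, rfl⟩
  have hs0 : 0 < s := by rw [hs]; positivity
  have hsr : √s = r := by rw [hs]; exact Real.sqrt_sq hr0.le
  obtain ⟨c, hc⟩ : ∃ c, c = 2 * (2 * ‖V‖ + 1) / s := ⟨_, rfl⟩
  have hc0 : 0 < c := by rw [hc]; positivity
  have hcs : (2 * ‖V‖ + 1) / c ≤ s / 2 := by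
    rw [hc]
    refine le_of_eq ?_
    field_simp
  -- the functionals
  obtain ⟨ωA, hωA, hJ⟩ := joint V η₁ hη₁0
  obtain ⟨eA, heA, heA1⟩ := exists_pos_one A
  obtain ⟨eB, heB, heB1⟩ := exists_pos_one B
  choose ωB hωB hB1 hB2 using fun n => dom (V (star (a n)))
  obtain ⟨Φ, hΦd⟩ : ∃ Φ : A →L[ℂ] ℂ, Φ = (eA + ωA) + (∑ n ∈ Finset.range n₀, cj (star (a n)) ωA +
      ∑ n ∈ Finset.range n₀, cj (a n) ωA) := ⟨_, rfl⟩
  obtain ⟨Ψ, hΨd⟩ : ∃ Ψ : B →L[ℂ] ℂ, Ψ = eB + ∑ n ∈ Finset.range n₀, ωB n := ⟨_, rfl⟩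
  have hΦs1 : Pos (∑ n ∈ Finset.range n₀, cj (star (a n)) ωA) := Pos.sum _ _ fun n _ => hωA.cj _
  have hΦs2 : Pos (∑ n ∈ Finset.range n₀, cj (a n) ωA) := Pos.sum _ _ fun n _ => hωA.cj _
  have hΨs : Pos (∑ n ∈ Finset.range n₀, ωB n) := Pos.sum _ _ fun n _ => hωB n
  have hΦ : Pos Φ := by rw [hΦd]; exact (heA.add hωA).add (hΦs1.add hΦs2)
  have hΨ : Pos Ψ := by rw [hΨd]; exact heB.add hΨs
  have hΦre : ∀ x, (Φ x).re = (eA x).re + (ωA x).re + ((∑ n ∈ Finset.range n₀,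
      (cj (star (a n)) ωA x).re) + ∑ n ∈ Finset.range n₀, (cj (a n) ωA x).re) := by
    intro x
    rw [hΦd]
    simp only [add_apply, _root_.sum_apply, add_re, Complex.re_sum]
  have hΨre : ∀ x, (Ψ x).re = (eB x).re + ∑ n ∈ Finset.range n₀, (ωB n x).re := by
    intro x
    rw [hΨd]
    simp only [add_apply, _root_.sum_apply, add_re, Complex.re_sum]
  have hΦ1 : 1 ≤ (Φ 1).re := by
    rw [hΦre]
    have h1 := hωA.one_re
    have h2 : 0 ≤ ∑ n ∈ Finset.range n₀, (cj (star (a n)) ωA 1).re :=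
      Finset.sum_nonneg fun n _ => (hωA.cj _).one_re
    have h3 : 0 ≤ ∑ n ∈ Finset.range n₀, (cj (a n) ωA 1).re :=
      Finset.sum_nonneg fun n _ => (hωA.cj _).one_re
    linarith
  have hΨ1 : 1 ≤ (Ψ 1).re := by
    rw [hΨre]
    have h2 : 0 ≤ ∑ n ∈ Finset.range n₀, (ωB n 1).re :=
      Finset.sum_nonneg fun n _ => (hωB n).one_re
    linarith
  have hD1 : ∀ y, (ωA (star y * y)).re ≤ (Φ (star y * y)).re := by
    intro y
    rw [hΦre]
    have h1 := heA.re_nonneg y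
    have h2 : 0 ≤ ∑ n ∈ Finset.range n₀, (cj (star (a n)) ωA (star y * y)).re :=
      Finset.sum_nonneg fun n _ => (hωA.cj _).re_nonneg y
    have h3 : 0 ≤ ∑ n ∈ Finset.range n₀, (cj (a n) ωA (star y * y)).re :=
      Finset.sum_nonneg fun n _ => (hωA.cj _).re_nonneg y
    linarith
  have hD2 : ∀ n < n₀, ∀ y, (ωA (a n * (star y * y) * star (a n))).re ≤ (Φ (star y * y)).re := by
    intro n hn y
    have h0 : (cj (star (a n)) ωA (star y * y)).re ≤
        ∑ n ∈ Finset.range n₀, (cj (star (a n)) ωA (star y * y)).re :=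
      Finset.single_le_sum (f := fun n => (cj (star (a n)) ωA (star y * y)).re)
        (fun n _ => (hωA.cj _).re_nonneg y) (Finset.mem_range.2 hn)
    rw [cj_apply, star_star] at h0
    rw [hΦre]
    have h1 := heA.re_nonneg y
    have h2 := hωA.re_nonneg y
    have h3 : 0 ≤ ∑ n ∈ Finset.range n₀, (cj (a n) ωA (star y * y)).re :=
      Finset.sum_nonneg fun n _ => (hωA.cj _).re_nonneg y
    linarith
  have hD3 : ∀ n < n₀, ∀ y, (ωA (star (a n) * (star y * y) * a n)).re ≤ (Φ (star y * y)).re := by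
    intro n hn y
    have h0 : (cj (a n) ωA (star y * y)).re ≤
        ∑ n ∈ Finset.range n₀, (cj (a n) ωA (star y * y)).re :=
      Finset.single_le_sum (f := fun n => (cj (a n) ωA (star y * y)).re)
        (fun n _ => (hωA.cj _).re_nonneg y) (Finset.mem_range.2 hn)
    rw [cj_apply] at h0
    rw [hΦre]
    have h1 := heA.re_nonneg y
    have h2 := hωA.re_nonneg y
    have h3 : 0 ≤ ∑ n ∈ Finset.range n₀, (cj (star (a n)) ωA (star y * y)).re :=
      Finset.sum_nonneg fun n _ => (hωA.cj _).re_nonneg y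
    linarith
  have hD4 : ∀ n < n₀, ∀ y, (ωB n (star y * y)).re ≤ (Ψ (star y * y)).re := by
    intro n hn y
    have h0 : (ωB n (star y * y)).re ≤ ∑ n ∈ Finset.range n₀, (ωB n (star y * y)).re :=
      Finset.single_le_sum (f := fun n => (ωB n (star y * y)).re)
        (fun n _ => (hωB n).re_nonneg y) (Finset.mem_range.2 hn)
    rw [hΨre]
    have h1 := heB.re_nonneg y
    linarith
  -- near maximal pairs
  obtain ⟨F, hF⟩ : ∃ F : A →L[ℂ] B →L[ℂ] ℂ, ∀ x y, F x y = V x y + c * (Φ x * Ψ y) := by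
    refine ⟨V + (c : ℂ) • (Φ.smulRight Ψ), fun x y => ?_⟩
    rfl
  obtain ⟨u, v, hu, hv, hmax⟩ := exists_near_max2 F
  have hmain := D_vanish F hu hv hmax a b hab hN
  -- one term
  have hterm : ∀ k, ∀ n < n₀, ‖V (u k * star (a n) * u k) (v k * star (b n) * v k) -
      V (star (a n)) (star (b n))‖ ≤ ε := by
    intro k n hn
    have hk : (V 1 1 + c * (Φ 1 * Ψ 1)).re ≤ (V (u k) (v k) + c * (Φ (u k) * Ψ (v k))).re + 1 := by
      have h1 := hmax k 1 (one_mem _) 1 (one_mem _)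
      rw [hF, hF] at h1
      have h2 : 1 / ((k : ℝ) + 1) ≤ 1 := by
        rw [div_le_one (by positivity)]
        have : (0 : ℝ) ≤ k := by positivity
        linarith
      linarith
    obtain ⟨α, β, hα, hβ, hαβ, q1, q2, q3, q4⟩ :=
      near_scalar V hΦ hΨ hΦ1 hΨ1 hc0 hcs (hu k) (hv k) hk
    have hs8 : 8 * M ^ 2 * s ≤ 1 := by rw [hs]; exact hr2
    have p2 := hD1 (star (u k - α • 1))
    rw [star_star] at p2
    have p4 := hD3 n hn (star (u k - α • 1))
    rw [star_star] at p4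
    have p6 := hD4 n hn (star (v k - β • 1))
    rw [star_star] at p6
    have h1 := one_term V hη₁0.le hωA hJ (hωB n) (hB1 n) (hB2 n) hM (hMa n hn) (hMb n hn) hs8
      (hu k) (hv k) hα hβ hαβ ((hD1 _).trans q1) (p2.trans q2) ((hD2 n hn _).trans q1)
      (p4.trans q2) ((hD4 n hn _).trans q3) (p6.trans q4)
    refine h1.trans ?_
    rw [hsr]
    have h2 : 12 * M ^ 2 * η₁ = ε / 2 := by
      rw [hη₁]
      field_simp
      norm_num
    linarith
  -- the limit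
  obtain ⟨W, hW⟩ : ∃ W : ℕ → ℕ → ℂ, ∀ k n, W k n = (starRingEnd ℂ)
      (V (u k * star (a n) * u k) (v k * star (b n) * v k)) := ⟨_, fun _ _ => rfl⟩
  have hsand : ∀ k n, ‖u k * star (a n) * u k‖ ≤ ‖a n‖ := by
    intro k n
    calc ‖u k * star (a n) * u k‖ ≤ ‖u k * star (a n)‖ * ‖u k‖ := norm_mul_le _ _
      _ ≤ ‖u k * star (a n)‖ := mul_le_of_le_one_right (norm_nonneg _) (norm_unitary_le (hu k))
      _ ≤ ‖u k‖ * ‖star (a n)‖ := norm_mul_le _ _
      _ ≤ ‖star (a n)‖ := mul_le_of_le_one_left (norm_nonneg _) (norm_unitary_le (hu k))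
      _ = ‖a n‖ := norm_star _
  have hsand' : ∀ k n, ‖v k * star (b n) * v k‖ ≤ ‖b n‖ := by
    intro k n
    calc ‖v k * star (b n) * v k‖ ≤ ‖v k * star (b n)‖ * ‖v k‖ := norm_mul_le _ _
      _ ≤ ‖v k * star (b n)‖ := mul_le_of_le_one_right (norm_nonneg _) (norm_unitary_le (hv k))
      _ ≤ ‖v k‖ * ‖star (b n)‖ := norm_mul_le _ _
      _ ≤ ‖star (b n)‖ := mul_le_of_le_one_left (norm_nonneg _) (norm_unitary_le (hv k))
      _ = ‖b n‖ := norm_star _
  have hWn : ∀ k n, ‖W k n‖ ≤ ‖V‖ * (‖a n‖ * ‖b n‖) := by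
    intro k n
    rw [hW, RCLike.norm_conj]
    refine (norm_bil_le V _ _).trans (mul_le_mul_of_nonneg_left ?_ (norm_nonneg V))
    exact mul_le_mul (hsand k n) (hsand' k n) (norm_nonneg _) (norm_nonneg _)
  have hFn : ∀ k n, ‖(starRingEnd ℂ) (F (u k * star (a n) * u k) (v k * star (b n) * v k))‖ ≤
      ‖F‖ * (‖a n‖ * ‖b n‖) := by
    intro k n
    rw [RCLike.norm_conj]
    refine (norm_bil_le F _ _).trans (mul_le_mul_of_nonneg_left ?_ (norm_nonneg F))
    exact mul_le_mul (hsand k n) (hsand' k n) (norm_nonneg _) (norm_nonneg _)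
  have hWs : ∀ k, Summable fun n => W k n := fun k =>
    Summable.of_norm_bounded (hab.mul_left ‖V‖) fun n => hWn k n
  -- the sum of the conjugate form
  have hsumF : ∀ k, ∑' n, (starRingEnd ℂ)
      (F (u k * star (a n) * u k) (v k * star (b n) * v k)) = ∑' n, W k n := by
    intro k
    obtain ⟨φ, hφ⟩ := exists_fstar (Φ.comp (((ContinuousLinearMap.mul ℂ A).flip (u k)).comp
      (ContinuousLinearMap.mul ℂ A (u k))))
    obtain ⟨ψ, hψ⟩ := exists_fstar (Ψ.comp (((ContinuousLinearMap.mul ℂ B).flip (v k)).comp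
      (ContinuousLinearMap.mul ℂ B (v k))))
    have hφ' : ∀ x, φ x = (starRingEnd ℂ) (Φ (u k * star x * u k)) := hφ
    have hψ' : ∀ x, ψ x = (starRingEnd ℂ) (Ψ (v k * star x * v k)) := hψ
    have h1 : ∀ n, (starRingEnd ℂ) (F (u k * star (a n) * u k) (v k * star (b n) * v k)) =
        W k n + c * (φ (a n) * ψ (b n)) := by
      intro n
      rw [hF, hW, hφ', hψ', map_add]
      congr 1
      rw [map_mul, map_mul, Complex.conj_ofReal]
    have h2 : Summable fun n => φ (a n) * ψ (b n) := by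
      refine Summable.of_norm_bounded (hab.mul_left (‖φ‖ * ‖ψ‖)) fun n => ?_
      rw [norm_mul]
      calc ‖φ (a n)‖ * ‖ψ (b n)‖ ≤ (‖φ‖ * ‖a n‖) * (‖ψ‖ * ‖b n‖) :=
            mul_le_mul (φ.le_opNorm _) (ψ.le_opNorm _) (norm_nonneg _) (by positivity)
        _ = _ := by ring
    simp only [h1]
    rw [(hWs k).tsum_add (h2.mul_left _), tsum_mul_left, hN, mul_zero, add_zero]
  have hlim : Tendsto (fun k => ∑' n, W k n) (hyperfilter ℕ : Filter ℕ)
      (𝓝 (∑' n, ul fun k => (starRingEnd ℂ)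
        (F (u k * star (a n) * u k) (v k * star (b n) * v k)))) := by
    have h1 := tendsto_tsum_of_dominated_convergence (𝓕 := (hyperfilter ℕ : Filter ℕ))
      (f := fun k n => (starRingEnd ℂ)
        (F (u k * star (a n) * u k) (v k * star (b n) * v k)))
      (g := fun n => ul fun k => (starRingEnd ℂ)
        (F (u k * star (a n) * u k) (v k * star (b n) * v k)))
      (bound := fun n => ‖F‖ * (‖a n‖ * ‖b n‖)) (hab.mul_left _)
      (fun n => ul_tendsto _ fun k => hFn k n) (Eventually.of_forall fun k n => hFn k n)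
    simpa only [hsumF] using h1
  -- the value of the first sum
  have hul : Summable fun n => ul fun k => (starRingEnd ℂ)
      (F (u k * star (a n) * u k) (v k * star (b n) * v k)) :=
    Summable.of_norm_bounded (hab.mul_left ‖F‖) fun n => norm_ul_le fun k => hFn k n
  have hsF : Summable fun n => F (a n) (b n) :=
    Summable.of_norm_bounded (hab.mul_left ‖F‖) fun n => norm_bil_le F _ _
  have hsV : Summable fun n => V (a n) (b n) :=
    Summable.of_norm_bounded (hab.mul_left ‖V‖) fun n => norm_bil_le V _ _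
  have hFV : ∑' n, F (a n) (b n) = ∑' n, V (a n) (b n) := by
    have h2 : Summable fun n => Φ (a n) * Ψ (b n) := by
      refine Summable.of_norm_bounded (hab.mul_left (‖Φ‖ * ‖Ψ‖)) fun n => ?_
      rw [norm_mul]
      calc ‖Φ (a n)‖ * ‖Ψ (b n)‖ ≤ (‖Φ‖ * ‖a n‖) * (‖Ψ‖ * ‖b n‖) :=
            mul_le_mul (Φ.le_opNorm _) (Ψ.le_opNorm _) (norm_nonneg _) (by positivity)
        _ = _ := by ring
    simp only [hF]
    rw [hsV.tsum_add (h2.mul_left _), tsum_mul_left, hN, mul_zero, add_zero]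
  rw [hsF.tsum_add hul, hFV] at hmain
  have hL : ∑' n, V (a n) (b n) = -(∑' n, ul fun k => (starRingEnd ℂ)
      (F (u k * star (a n) * u k) (v k * star (b n) * v k))) := eq_neg_of_add_eq_zero_left hmain
  -- the comparison
  have hcmp : ∀ k, ‖-(∑' n, W k n) + ∑' n, (starRingEnd ℂ) (V (star (a n)) (star (b n)))‖ ≤
      (1 + 2 * ‖V‖) * η := by
    intro k
    have hs2 : Summable fun n => (starRingEnd ℂ) (V (star (a n)) (star (b n))) := by
      refine Summable.of_norm_bounded (hab.mul_left ‖V‖) fun n => ?_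
      rw [RCLike.norm_conj]
      refine (norm_bil_le V _ _).trans (le_of_eq ?_)
      rw [norm_star, norm_star]
    have h1 : -(∑' n, W k n) + ∑' n, (starRingEnd ℂ) (V (star (a n)) (star (b n))) =
        -∑' n, (W k n - (starRingEnd ℂ) (V (star (a n)) (star (b n)))) := by
      rw [(hWs k).tsum_sub hs2]
      ring
    rw [h1, norm_neg]
    have hd : ∀ n, ‖W k n - (starRingEnd ℂ) (V (star (a n)) (star (b n)))‖ ≤
        2 * ‖V‖ * (‖a n‖ * ‖b n‖) := by
      intro n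
      have h2 : ‖(starRingEnd ℂ) (V (star (a n)) (star (b n)))‖ ≤ ‖V‖ * (‖a n‖ * ‖b n‖) := by
        rw [RCLike.norm_conj]
        refine (norm_bil_le V _ _).trans (le_of_eq ?_)
        rw [norm_star, norm_star]
      have h3 := norm_sub_le (W k n) ((starRingEnd ℂ) (V (star (a n)) (star (b n))))
      have h4 := hWn k n
      linarith
    have hd2 : ∀ n < n₀, ‖W k n - (starRingEnd ℂ) (V (star (a n)) (star (b n)))‖ ≤ ε := by
      intro n hn
      rw [hW, ← map_sub, RCLike.norm_conj]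
      exact hterm k n hn
    have hsd : Summable fun n => W k n - (starRingEnd ℂ) (V (star (a n)) (star (b n))) :=
      (hWs k).sub hs2
    rw [← hsd.sum_add_tsum_nat_add n₀]
    refine (norm_add_le _ _).trans ?_
    have h5 : ‖∑ n ∈ Finset.range n₀, (W k n - (starRingEnd ℂ)
        (V (star (a n)) (star (b n))))‖ ≤ η := by
      refine (norm_sum_le_of_le _ fun n hn => hd2 n (Finset.mem_range.1 hn)).trans ?_
      rw [Finset.sum_const, Finset.card_range, nsmul_eq_mul, hε, mul_div_assoc', div_le_iff₀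
        (by positivity)]
      nlinarith
    have h6 : ‖∑' n, (W k (n + n₀) - (starRingEnd ℂ)
        (V (star (a (n + n₀))) (star (b (n + n₀)))))‖ ≤ 2 * ‖V‖ * η := by
      have h7 : Summable fun n => ‖a (n + n₀)‖ * ‖b (n + n₀)‖ := (summable_nat_add_iff n₀).2 hab
      refine (tsum_of_norm_bounded (h7.hasSum.mul_left (2 * ‖V‖)) fun n => hd _).trans ?_
      exact mul_le_mul_of_nonneg_left hn₀ (by positivity)
    linarith
  rw [hL]
  have hfin := ((hlim.neg).add_const (∑' n, (starRingEnd ℂ) (V (star (a n)) (star (b n))))).norm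
  exact le_of_tendsto hfin (Eventually.of_forall hcmp)

theorem anti [Nontrivial A] [Nontrivial B] (V : A →L[ℂ] B →L[ℂ] ℂ) (a : ℕ → A) (b : ℕ → B)
    (hab : Summable fun n => ‖a n‖ * ‖b n‖)
    (hN : ∀ (φ : A →L[ℂ] ℂ) (ψ : B →L[ℂ] ℂ), ∑' n, φ (a n) * ψ (b n) = 0) :
    ∑' n, V (a n) (b n) = -∑' n, (starRingEnd ℂ) (V (star (a n)) (star (b n))) := by
  rw [eq_neg_iff_add_eq_zero, ← norm_le_zero_iff]
  refine le_of_forall_pos_le_add fun δ hδ => ?_
  have h1 := anti_bound V a b hab hN (δ / (1 + 2 * ‖V‖)) (by positivity)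
  have h2 : (1 + 2 * ‖V‖) * (δ / (1 + 2 * ‖V‖)) = δ := by
    field_simp
  rw [h2] at h1
  linarith

theorem gt_sep_aux [Nontrivial A] [Nontrivial B] (V : A →L[ℂ] B →L[ℂ] ℂ) (a : ℕ → A) (b : ℕ → B)
    (hab : Summable fun n => ‖a n‖ * ‖b n‖)
    (hN : ∀ (φ : A →L[ℂ] ℂ) (ψ : B →L[ℂ] ℂ), ∑' n, φ (a n) * ψ (b n) = 0) :
    ∑' n, V (a n) (b n) = 0 := by
  have h1 := anti V a b hab hN
  have h2 := anti (I • V) a b hab hN
  simp only [smul_apply, smul_eq_mul, map_mul, Complex.conj_I, tsum_mul_left] at h2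
  have h3 : I * (∑' n, V (a n) (b n) - ∑' n, (starRingEnd ℂ) (V (star (a n)) (star (b n)))) = 0 := by
    rw [mul_sub, h2]
    ring
  rcases mul_eq_zero.1 h3 with h4 | h4
  · exact absurd h4 Complex.I_ne_zero
  · have h5 : ∑' n, V (a n) (b n) = ∑' n, (starRingEnd ℂ) (V (star (a n)) (star (b n))) :=
      sub_eq_zero.1 h4
    rw [← h5] at h1
    exact self_eq_neg.1 h1

end Pool.Agent.Helper60.GT
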