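import Mathlib.Analysis.CStarAlgebra.Unitary.Span
import Mathlib.Analysis.CStarAlgebra.ContinuousFunctionalCalculus.Order
import Mathlib.Analysis.CStarAlgebra.SpecialFunctions.PosPart
import Mathlib.Analysis.CStarAlgebra.ContinuousFunctionalCalculus.Instances
import Mathlib.Analysis.Normed.Module.HahnBanach
import Mathlib.Order.Filter.Ultrafilter.Basic

/-!
# Basics for the factorisation of bilinear forms on C*-algebras
-/

namespace Pool.Agent.Helper60.GT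

open Filter Topology Complex
open scoped ComplexOrder

section ul

/-- The limit of a bounded sequence along a fixed free ultrafilter. -/
noncomputable def ul (z : ℕ → ℂ) : ℂ := limUnder (hyperfilter ℕ : Filter ℕ) z

theorem ul_tendsto {z : ℕ → ℂ} (M : ℝ) (h : ∀ n, ‖z n‖ ≤ M) :
    Tendsto z (hyperfilter ℕ : Filter ℕ) (𝓝 (ul z)) := by
  have h1 : IsCompact (Metric.closedBall (0 : ℂ) M) := isCompact_closedBall _ _
  obtain ⟨x, -, hx⟩ := h1.ultrafilter_le_nhds ((hyperfilter ℕ).map z) (by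
    rw [Ultrafilter.coe_map, le_principal_iff, mem_map]
    refine Filter.univ_mem' fun n => ?_
    simpa using h n)
  exact tendsto_nhds_limUnder ⟨x, hx⟩

theorem ul_eq {z : ℕ → ℂ} {w : ℂ} (h : Tendsto z (hyperfilter ℕ : Filter ℕ) (𝓝 w)) : ul z = w :=
  h.limUnder_eq

theorem ul_eq' {z : ℕ → ℂ} {w : ℂ} (h : Tendsto z atTop (𝓝 w)) : ul z = w :=
  ul_eq (h.mono_left Nat.hyperfilter_le_atTop)

theorem norm_ul_le {z : ℕ → ℂ} {M : ℝ} (h : ∀ n, ‖z n‖ ≤ M) : ‖ul z‖ ≤ M :=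
  le_of_tendsto (ul_tendsto M h).norm (Eventually.of_forall h)

end ul

section cos

variable {A : Type*} [CStarAlgebra A] [PartialOrder A] [StarOrderedRing A]

theorem sq_le_self {c : A} (h0 : 0 ≤ c) (h1 : c ≤ 1) : c * c ≤ c := by
  have h := CStarAlgebra.pow_antitone h0 h1 (show 1 ≤ 2 by norm_num)
  simpa [pow_two] using h

/-- The element `c = √(1 - p)` for `0 ≤ p ≤ 1`. -/
theorem exists_sqrt_one_sub {p : A} (h0 : 0 ≤ p) (h1 : p ≤ 1) : ∃ c : A, 0 ≤ c ∧ c ≤ 1 ∧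
    c * c = 1 - p ∧ 0 ≤ 1 - c ∧ 1 - c ≤ p ∧ (1 - c) * (1 - c) ≤ p * p := by
  have hp : 0 ≤ 1 - p := sub_nonneg.2 h1
  obtain ⟨c, hc⟩ : ∃ c, c = CFC.sqrt (1 - p) := ⟨_, rfl⟩
  have hc0 : 0 ≤ c := by rw [hc]; exact CFC.sqrt_nonneg _
  have hcc : c * c = 1 - p := by rw [hc]; exact CFC.sqrt_mul_sqrt_self _ hp
  have hcsa : IsSelfAdjoint c := hc0.isSelfAdjoint
  have hc1 : c ≤ 1 := by
    rw [← CStarAlgebra.norm_le_one_iff_of_nonneg c hc0]
    have h2 : ‖c‖ ^ 2 ≤ 1 := by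
      rw [← hcsa.norm_mul_self, hcc, CStarAlgebra.norm_le_one_iff_of_nonneg _ hp]
      simpa using h0
    nlinarith [norm_nonneg c]
  have hd : 0 ≤ 1 - c := sub_nonneg.2 hc1
  have hdp : 1 - c ≤ p := by
    have h2 := sq_le_self hc0 hc1
    rw [hcc] at h2
    have h3 : 1 - c ≤ 1 - (1 - p) := sub_le_sub_left h2 1
    simpa using h3
  refine ⟨c, hc0, hc1, hcc, hd, hdp, ?_⟩
  rw [← sub_nonneg]
  have h3 : p * p - (1 - c) * (1 - c) = (1 - c) * (c + c + c * c) * (1 - c) := by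
    have h4 : p = 1 - c * c := by rw [hcc]; simp
    rw [h4]
    noncomm_ring
  rw [h3]
  have h4 : 0 ≤ c + c + c * c := by
    have h5 : 0 ≤ c * c := by rw [hcc]; exact hp
    exact add_nonneg (add_nonneg hc0 hc0) h5
  have h5 : IsSelfAdjoint (1 - c) := hd.isSelfAdjoint
  exact IsSelfAdjoint.conjugate_nonneg h4 h5

theorem exists_cos {s : A} (hs : IsSelfAdjoint s) (hs1 : ‖s‖ ≤ 1) : ∃ m : A,
    (1 - m) + I • s ∈ unitary A ∧ (1 - m) - I • s ∈ unitary A ∧ ‖m‖ ≤ ‖s‖ ^ 2 ∧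
      ‖m - (1 / 2 : ℝ) • (s * s)‖ ≤ ‖s‖ ^ 4 / 2 := by
  have hss0 : 0 ≤ s * s := by
    have := star_mul_self_nonneg s
    rwa [hs.star_eq] at this
  have hss1 : s * s ≤ 1 := by
    rw [← CStarAlgebra.norm_le_one_iff_of_nonneg _ hss0, hs.norm_mul_self]
    nlinarith [norm_nonneg s]
  obtain ⟨c, hc0, hc1, hcc, hd, hdp, -⟩ := exists_sqrt_one_sub hss0 hss1
  have hcsa : IsSelfAdjoint c := hc0.isSelfAdjoint
  have hcs : c = CFC.sqrt (1 - s * s) := by
    rw [← hcc]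
    exact (CFC.sqrt_mul_self c hc0).symm
  have hu := hs.self_add_I_smul_cfcSqrt_sub_sq_mem_unitary s hs1
  rw [pow_two, ← hcs] at hu
  have hI : (I • (1 : A)) ∈ unitary A := by
    rw [Unitary.mem_iff]
    constructor <;> simp [smul_smul]
  have hI' : ((-I) • (1 : A)) ∈ unitary A := by
    rw [Unitary.mem_iff]
    constructor <;> simp [smul_smul]
  have e1 : (1 - (1 - c)) + I • s = (I • (1 : A)) * star (s + I • c) := by
    rw [star_add, star_smul, hs.star_eq, hcsa.star_eq, smul_mul_assoc, one_mul, smul_add, smul_smul]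
    simp [add_comm]
  have e2 : (1 - (1 - c)) - I • s = ((-I) • (1 : A)) * (s + I • c) := by
    rw [smul_mul_assoc, one_mul, smul_add, smul_smul]
    simp [sub_eq_add_neg, add_comm]
  have hm : ‖1 - c‖ ≤ ‖s‖ ^ 2 := by
    calc ‖1 - c‖ ≤ ‖s * s‖ := CStarAlgebra.norm_le_norm_of_nonneg_of_le hd hdp
      _ = ‖s‖ ^ 2 := by rw [hs.norm_mul_self, pow_two]
  refine ⟨1 - c, ?_, ?_, hm, ?_⟩
  · rw [e1]
    exact mul_mem hI (Unitary.star_mem hu)
  · rw [e2]
    exact mul_mem hI' hu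
  · have h3 : (1 - c) - (1 / 2 : ℝ) • (s * s) = (1 / 2 : ℝ) • ((1 - c) * (1 - c)) := by
      have h4 : s * s = 1 - c * c := by rw [hcc]; simp
      have h5 : (1 - c) * (1 - c) = (1 - c) + (1 - c) - (1 - c * c) := by noncomm_ring
      rw [h4, h5]
      module
    rw [h3, norm_smul]
    have h6 : ‖(1 - c) * (1 - c)‖ ≤ ‖s‖ ^ 2 * ‖s‖ ^ 2 :=
      (norm_mul_le _ _).trans (mul_le_mul hm hm (norm_nonneg _) (by positivity))
    rw [Real.norm_of_nonneg (by norm_num)]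
    nlinarith

end cos

end Pool.Agent.Helper60.GT
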