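import Mathlib.Analysis.InnerProductSpace.PiL2
import Mathlib.Analysis.InnerProductSpace.Completion
import Mathlib.Analysis.InnerProductSpace.Projection.FiniteDimensional
import Mathlib.Analysis.Normed.Group.Tannery
import Mathlib.Topology.Algebra.InfiniteSum.NatInt

/-!
# Bilinear forms which factor through a Hilbert space
-/

namespace Pool.Agent.Helper60.GT

open Filter Topology

section

variable {E F H : Type*} [NormedAddCommGroup E] [NormedSpace ℂ E] [NormedAddCommGroup F]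
  [NormedSpace ℂ F] [NormedAddCommGroup H] [InnerProductSpace ℂ H]

theorem vanish_hilbert (D : E →L[ℂ] F →L[ℂ] ℂ) (J : E →L[ℂ] H) (C : ℝ) (hC : 0 ≤ C)
    (hD : ∀ x y, ‖D x y‖ ≤ C * ‖J x‖ * ‖y‖) (a : ℕ → E) (b : ℕ → F)
    (hab : Summable fun n => ‖a n‖ * ‖b n‖)
    (hN : ∀ (φ : E →L[ℂ] ℂ) (ψ : F →L[ℂ] ℂ), ∑' n, φ (a n) * ψ (b n) = 0) :
    ∑' n, D (a n) (b n) = 0 := by
  have hsD : Summable fun n => D (a n) (b n) := by
    refine Summable.of_norm_bounded (hab.mul_left ‖D‖) fun n => ?_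
    refine ((D (a n)).le_opNorm _).trans ?_
    rw [← mul_assoc]
    exact mul_le_mul_of_nonneg_right (D.le_opNorm _) (norm_nonneg _)
  -- the bound by the tail
  have key : ∀ N : ℕ, ‖∑' n, D (a n) (b n)‖ ≤ C * ‖J‖ * ∑' n, ‖a (n + N)‖ * ‖b (n + N)‖ := by
    intro N
    obtain ⟨W, hW⟩ : ∃ W : Submodule ℂ E, W = Submodule.span ℂ (a '' {i | i < N}) := ⟨_, rfl⟩
    have hWfin : FiniteDimensional ℂ W := by
      rw [hW]
      exact FiniteDimensional.span_of_finite ℂ ((Set.finite_lt_nat N).image a)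
    obtain ⟨S, hS⟩ : ∃ S : Submodule ℂ H, S = W.map (J : E →ₗ[ℂ] H) := ⟨_, rfl⟩
    have hSfin : FiniteDimensional ℂ S := by rw [hS]; infer_instance
    obtain ⟨e, he⟩ : ∃ e : OrthonormalBasis (Fin (Module.finrank ℂ S)) ℂ S,
        e = stdOrthonormalBasis ℂ S := ⟨_, rfl⟩
    have hX : ∀ i, ∃ X : E, J X = (e i : H) := by
      intro i
      have h1 := (e i).2
      have h2 : (e i : H) ∈ W.map (J : E →ₗ[ℂ] H) := hS ▸ h1
      obtain ⟨X, -, hX⟩ := h2
      exact ⟨X, hX⟩
    choose X hX using hX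
    obtain ⟨φ, hφ⟩ : ∃ φ : Fin (Module.finrank ℂ S) → (E →L[ℂ] ℂ),
        ∀ i x, φ i x = inner ℂ (e i : H) (J x) :=
      ⟨fun i => (innerSL ℂ (e i : H)).comp J, fun i x => rfl⟩
    obtain ⟨P, hP⟩ : ∃ P : E → E, ∀ x, P x = ∑ i, φ i x • X i := ⟨_, fun _ => rfl⟩
    have hJP : ∀ x, J (P x) = S.starProjection (J x) := by
      intro x
      rw [hP, map_sum]
      rw [e.starProjection_eq_sum_rankOne, _root_.sum_apply]
      exact Finset.sum_congr rfl fun i _ => by
        rw [map_smul, hX, hφ, InnerProductSpace.rankOne_apply]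
    have hsP : ∑' n, D (P (a n)) (b n) = 0 := by
      have h1 : ∀ n, D (P (a n)) (b n) = ∑ i, φ i (a n) * D (X i) (b n) := by
        intro n
        rw [hP, map_sum, _root_.sum_apply]
        exact Finset.sum_congr rfl fun i _ => by rw [map_smul, smul_apply, smul_eq_mul]
      simp only [h1]
      have h2 : ∀ i ∈ Finset.univ, Summable fun n => φ i (a n) * D (X i) (b n) := by
        intro i _
        refine Summable.of_norm_bounded (hab.mul_left (‖φ i‖ * ‖D (X i)‖)) fun n => ?_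
        rw [norm_mul]
        calc ‖φ i (a n)‖ * ‖D (X i) (b n)‖ ≤ (‖φ i‖ * ‖a n‖) * (‖D (X i)‖ * ‖b n‖) :=
              mul_le_mul ((φ i).le_opNorm _) ((D (X i)).le_opNorm _) (norm_nonneg _)
                (by positivity)
          _ = _ := by ring
      rw [Summable.tsum_finsetSum h2]
      exact Finset.sum_eq_zero fun i _ => hN (φ i) (D (X i))
    have hsmP : Summable fun n => D (P (a n)) (b n) := by
      have h1 : ∀ n, D (P (a n)) (b n) = ∑ i, φ i (a n) * D (X i) (b n) := by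
        intro n
        rw [hP, map_sum, _root_.sum_apply]
        exact Finset.sum_congr rfl fun i _ => by rw [map_smul, smul_apply, smul_eq_mul]
      simp only [h1]
      refine summable_sum fun i _ => ?_
      refine Summable.of_norm_bounded (hab.mul_left (‖φ i‖ * ‖D (X i)‖)) fun n => ?_
      rw [norm_mul]
      calc ‖φ i (a n)‖ * ‖D (X i) (b n)‖ ≤ (‖φ i‖ * ‖a n‖) * (‖D (X i)‖ * ‖b n‖) :=
            mul_le_mul ((φ i).le_opNorm _) ((D (X i)).le_opNorm _) (norm_nonneg _)
              (by positivity)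
        _ = _ := by ring
    have hdiff : ∑' n, D (a n) (b n) = ∑' n, D (a n - P (a n)) (b n) := by
      have h1 := hsD.tsum_sub hsmP
      rw [hsP, sub_zero] at h1
      rw [← h1]
      exact tsum_congr fun n => by rw [map_sub, sub_apply]
    have hJd : ∀ x, J (x - P x) = J x - S.starProjection (J x) := fun x => by
      rw [map_sub, hJP]
    have hzero : ∀ n < N, D (a n - P (a n)) (b n) = 0 := by
      intro n hn
      have h1 : J (a n) ∈ S := by
        rw [hS]
        refine Submodule.mem_map_of_mem ?_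
        rw [hW]
        exact Submodule.subset_span ⟨n, hn, rfl⟩
      have h2 := hD (a n - P (a n)) (b n)
      rw [hJd, Submodule.starProjection_eq_self_iff.2 h1, sub_self, norm_zero, mul_zero,
        zero_mul] at h2
      exact norm_le_zero_iff.1 h2
    have hbound : ∀ n, ‖D (a n - P (a n)) (b n)‖ ≤ C * ‖J‖ * (‖a n‖ * ‖b n‖) := by
      intro n
      refine (hD _ _).trans ?_
      rw [hJd, ← Submodule.starProjection_orthogonal_val]
      calc C * ‖Sᗮ.starProjection (J (a n))‖ * ‖b n‖ ≤ C * (‖J‖ * ‖a n‖) * ‖b n‖ := by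
            refine mul_le_mul_of_nonneg_right (mul_le_mul_of_nonneg_left ?_ hC) (norm_nonneg _)
            refine ((Sᗮ.starProjection).le_opNorm _).trans ?_
            refine (mul_le_of_le_one_left (norm_nonneg _) (Submodule.starProjection_norm_le _)).trans
              (J.le_opNorm _)
        _ = _ := by ring
    have hsm : Summable fun n => D (a n - P (a n)) (b n) :=
      Summable.of_norm_bounded (hab.mul_left _) hbound
    rw [hdiff, ← hsm.sum_add_tsum_nat_add N,
      Finset.sum_eq_zero fun n hn => hzero n (Finset.mem_range.1 hn), zero_add]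
    have h3 : Summable fun n => ‖a (n + N)‖ * ‖b (n + N)‖ := (summable_nat_add_iff N).2 hab
    refine tsum_of_norm_bounded (h3.hasSum.mul_left _) fun n => hbound _
  have hlim : Tendsto (fun N => C * ‖J‖ * ∑' n, ‖a (n + N)‖ * ‖b (n + N)‖) atTop
      (𝓝 (C * ‖J‖ * 0)) :=
    (tendsto_sum_nat_add fun n => ‖a n‖ * ‖b n‖).const_mul _
  rw [mul_zero] at hlim
  exact norm_le_zero_iff.1 (ge_of_tendsto' hlim key)

end

/-- A type synonym without topology. -/
def Syn (E : Type*) := E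

instance (E : Type*) [AddCommGroup E] : AddCommGroup (Syn E) := inferInstanceAs (AddCommGroup E)

instance (E : Type*) [AddCommGroup E] [Module ℂ E] : Module ℂ (Syn E) :=
  inferInstanceAs (Module ℂ E)

theorem vanish_core {E F : Type*} [NormedAddCommGroup E] [NormedSpace ℂ E] [NormedAddCommGroup F]
    [NormedSpace ℂ F] (D : E →L[ℂ] F →L[ℂ] ℂ) (c : PreInnerProductSpace.Core ℂ (Syn E))
    (C₁ C : ℝ) (hC₁ : 0 ≤ C₁) (hC : 0 ≤ C)
    (h1 : ∀ x : E, (c.inner x x).re ≤ C₁ ^ 2 * ‖x‖ ^ 2)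
    (hD : ∀ (x : E) (y : F), ‖D x y‖ ≤ C * √(c.inner x x).re * ‖y‖) (a : ℕ → E) (b : ℕ → F)
    (hab : Summable fun n => ‖a n‖ * ‖b n‖)
    (hN : ∀ (φ : E →L[ℂ] ℂ) (ψ : F →L[ℂ] ℂ), ∑' n, φ (a n) * ψ (b n) = 0) :
    ∑' n, D (a n) (b n) = 0 := by
  let _ : SeminormedAddCommGroup (Syn E) := InnerProductSpace.Core.toSeminormedAddCommGroup (c := c)
  let _ : InnerProductSpace ℂ (Syn E) := InnerProductSpace.ofCore c
  have hnorm : ∀ x : Syn E, ‖x‖ = √(c.inner x x).re := fun x => rfl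
  obtain ⟨J0, hJ0⟩ : ∃ J0 : E →ₗ[ℂ] UniformSpace.Completion (Syn E),
      ∀ x : E, ‖J0 x‖ = √(c.inner x x).re :=
    ⟨(UniformSpace.Completion.toComplₗᵢ (𝕜 := ℂ) (E := Syn E)).toLinearMap, fun x => by
      rw [← hnorm]
      exact (UniformSpace.Completion.toComplₗᵢ (𝕜 := ℂ) (E := Syn E)).norm_map x⟩
  have hJb : ∀ x, ‖J0 x‖ ≤ C₁ * ‖x‖ := by
    intro x
    rw [hJ0]
    apply Real.sqrt_le_iff.2
    refine ⟨by positivity, (h1 x).trans (by rw [mul_pow])⟩
  refine vanish_hilbert D (J0.mkContinuous C₁ hJb) C hC (fun x y => ?_) a b hab hN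
  rw [LinearMap.mkContinuous_apply, hJ0]
  exact hD x y

end Pool.Agent.Helper60.GT
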