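import Pool.Agent.Helper60.GT.Cut
import Pool.Agent.Helper60.GT.Vanish

/-!
# Near maximal unitary pairs of a bilinear form
-/

namespace Pool.Agent.Helper60.GT

open Filter Topology Complex
open scoped ComplexOrder

variable {A B : Type*} [CStarAlgebra A] [CStarAlgebra B]

/-- Near maximal unitary pairs of a bilinear form. -/
theorem exists_near_max2 (F : A →L[ℂ] B →L[ℂ] ℂ) : ∃ (u : ℕ → A) (v : ℕ → B),
    (∀ n, u n ∈ unitary A) ∧ (∀ n, v n ∈ unitary B) ∧
    ∀ n, ∀ w ∈ unitary A, ∀ w' ∈ unitary B, (F w w').re ≤ (F (u n) (v n)).re + 1 / ((n : ℝ) + 1) := by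
  obtain ⟨S, hS⟩ : ∃ S : Set ℝ, S = {r | ∃ w ∈ unitary A, ∃ w' ∈ unitary B, r = (F w w').re} :=
    ⟨_, rfl⟩
  have hne : S.Nonempty := ⟨(F 1 1).re, by rw [hS]; exact ⟨1, one_mem _, 1, one_mem _, rfl⟩⟩
  have hbdd : BddAbove S := by
    refine ⟨‖F‖, ?_⟩
    rw [hS]
    rintro r ⟨w, hw, w', hw', rfl⟩
    refine (Complex.re_le_norm _).trans (((F w).le_opNorm w').trans ?_)
    refine (mul_le_of_le_one_right (norm_nonneg _) (norm_unitary_le hw')).trans ?_
    exact (F.le_opNorm w).trans (mul_le_of_le_one_right (norm_nonneg _) (norm_unitary_le hw))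
  have h1 : ∀ n : ℕ, ∃ u ∈ unitary A, ∃ v ∈ unitary B,
      sSup S - 1 / ((n : ℝ) + 1) < (F u v).re := by
    intro n
    obtain ⟨r, hr, hr2⟩ := exists_lt_of_lt_csSup hne
      (show sSup S - 1 / ((n : ℝ) + 1) < sSup S by
        have : (0 : ℝ) < 1 / ((n : ℝ) + 1) := by positivity
        linarith)
    rw [hS] at hr
    obtain ⟨w, hw, w', hw', rfl⟩ := hr
    exact ⟨w, hw, w', hw', hr2⟩
  choose u hu v hv huv using h1
  refine ⟨u, v, hu, hv, fun n w hw w' hw' => ?_⟩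
  have h2 : (F w w').re ≤ sSup S := le_csSup hbdd (by rw [hS]; exact ⟨w, hw, w', hw', rfl⟩)
  linarith [huv n]

theorem norm_bil_le (F : A →L[ℂ] B →L[ℂ] ℂ) (x : A) (y : B) : ‖F x y‖ ≤ ‖F‖ * (‖x‖ * ‖y‖) := by
  rw [← mul_assoc]
  exact F.le_opNorm₂ x y

variable [PartialOrder A] [StarOrderedRing A] [PartialOrder B] [StarOrderedRing B]

theorem var_bil (F : A →L[ℂ] B →L[ℂ] ℂ) {u : A} {v : B} (hu : u ∈ unitary A) (hv : v ∈ unitary B)
    {ε : ℝ} (hmax : ∀ w ∈ unitary A, ∀ w' ∈ unitary B, (F w w').re ≤ (F u v).re + ε)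
    {h : A} (hh : IsSelfAdjoint h) {k : B} (hk : IsSelfAdjoint k) {M : ℝ}
    (hM : ‖h‖ ≤ M) (hM' : ‖k‖ ≤ M) {t : ℝ} (ht : 0 < t) (htM : t * M ≤ 1) :
    -(t ^ 2 * (F (u * h) (v * k)).re) ≤ ε + t ^ 2 / 2 * ((F (u * (h * h)) v).re +
      (F u (v * (k * k))).re) + 2 * ‖F‖ * (t * M) ^ 4 := by
  have hM0 : 0 ≤ M := (norm_nonneg h).trans hM
  have htM0 : 0 ≤ t * M := mul_nonneg ht.le hM0
  have hs : IsSelfAdjoint (t • h) := by
    rw [isSelfAdjoint_iff, star_smul, hh.star_eq]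
    simp
  have hs' : IsSelfAdjoint (t • k) := by
    rw [isSelfAdjoint_iff, star_smul, hk.star_eq]
    simp
  have hsn : ‖t • h‖ ≤ t * M := by
    rw [norm_smul, Real.norm_of_nonneg ht.le]
    exact mul_le_mul_of_nonneg_left hM ht.le
  have hsn' : ‖t • k‖ ≤ t * M := by
    rw [norm_smul, Real.norm_of_nonneg ht.le]
    exact mul_le_mul_of_nonneg_left hM' ht.le
  obtain ⟨m, hm1, hm2, hm3, hm4⟩ := exists_cos hs (hsn.trans htM)
  obtain ⟨m', hm1', hm2', hm3', hm4'⟩ := exists_cos hs' (hsn'.trans htM)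
  have hun := norm_unitary_le hu
  have hvn := norm_unitary_le hv
  have e1 := hmax _ (mul_mem hu hm1) _ (mul_mem hv hm1')
  have e2 := hmax _ (mul_mem hu hm2) _ (mul_mem hv hm2')
  have e3 : F (u * ((1 - m) + I • (t • h))) (v * ((1 - m') + I • (t • k))) +
      F (u * ((1 - m) - I • (t • h))) (v * ((1 - m') - I • (t • k))) =
      2 * (F u v - F (u * m) v - F u (v * m') + F (u * m) (v * m') -
        ((t ^ 2 : ℝ) : ℂ) * F (u * h) (v * k)) := by
    simp only [mul_add, mul_sub, mul_one, map_add, map_sub, add_apply, sub_apply, mul_smul_comm,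
      map_smul, smul_apply, ← Complex.coe_smul, smul_eq_mul]
    push_cast
    ring_nf
    rw [Complex.I_sq]
    ring
  have e4 := congrArg Complex.re e3
  have e5 : (2 * (F u v - F (u * m) v - F u (v * m') + F (u * m) (v * m') -
        ((t ^ 2 : ℝ) : ℂ) * F (u * h) (v * k))).re =
      2 * ((F u v).re - (F (u * m) v).re - (F u (v * m')).re + (F (u * m) (v * m')).re -
        t ^ 2 * (F (u * h) (v * k)).re) := by
    rw [show (2 : ℂ) = ((2 : ℝ) : ℂ) by norm_num, re_ofReal_mul, sub_re, add_re, sub_re, sub_re,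
      re_ofReal_mul]
  rw [add_re, e5] at e4
  -- second order terms
  have n1 : ‖F (u * m) v - ((t ^ 2 / 2 : ℝ) : ℂ) * F (u * (h * h)) v‖ ≤
      ‖F‖ * ((t * M) ^ 4 / 2) := by
    have e6 : F (u * m) v - ((t ^ 2 / 2 : ℝ) : ℂ) * F (u * (h * h)) v =
        F (u * (m - (1 / 2 : ℝ) • ((t • h) * (t • h)))) v := by
      rw [mul_sub, map_sub, sub_apply]
      congr 1
      have e7 : u * ((1 / 2 : ℝ) • ((t • h) * (t • h))) =
          ((t ^ 2 / 2 : ℝ) : ℂ) • (u * (h * h)) := by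
        rw [smul_mul_smul_comm, smul_smul, Complex.coe_smul, mul_smul_comm]
        congr 1
        ring
      rw [e7, map_smul, smul_apply, smul_eq_mul]
    rw [e6]
    refine (norm_bil_le F _ _).trans (mul_le_mul_of_nonneg_left ?_ (norm_nonneg F))
    calc ‖u * (m - (1 / 2 : ℝ) • ((t • h) * (t • h)))‖ * ‖v‖ ≤ ((t * M) ^ 4 / 2) * 1 := by
          refine mul_le_mul ?_ hvn (norm_nonneg _) (by positivity)
          refine (norm_mul_le _ _).trans ?_
          refine (mul_le_of_le_one_left (norm_nonneg _) hun).trans (hm4.trans ?_)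
          have := pow_le_pow_left₀ (norm_nonneg _) hsn 4
          linarith
      _ = _ := mul_one _
  have n2 : ‖F u (v * m') - ((t ^ 2 / 2 : ℝ) : ℂ) * F u (v * (k * k))‖ ≤
      ‖F‖ * ((t * M) ^ 4 / 2) := by
    have e6 : F u (v * m') - ((t ^ 2 / 2 : ℝ) : ℂ) * F u (v * (k * k)) =
        F u (v * (m' - (1 / 2 : ℝ) • ((t • k) * (t • k)))) := by
      rw [mul_sub, map_sub]
      congr 1
      have e7 : v * ((1 / 2 : ℝ) • ((t • k) * (t • k))) =
          ((t ^ 2 / 2 : ℝ) : ℂ) • (v * (k * k)) := by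
        rw [smul_mul_smul_comm, smul_smul, Complex.coe_smul, mul_smul_comm]
        congr 1
        ring
      rw [e7, map_smul, smul_eq_mul]
    rw [e6]
    refine (norm_bil_le F _ _).trans (mul_le_mul_of_nonneg_left ?_ (norm_nonneg F))
    calc ‖u‖ * ‖v * (m' - (1 / 2 : ℝ) • ((t • k) * (t • k)))‖ ≤ 1 * ((t * M) ^ 4 / 2) := by
          refine mul_le_mul hun ?_ (norm_nonneg _) zero_le_one
          refine (norm_mul_le _ _).trans ?_
          refine (mul_le_of_le_one_left (norm_nonneg _) hvn).trans (hm4'.trans ?_)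
          have := pow_le_pow_left₀ (norm_nonneg _) hsn' 4
          linarith
      _ = _ := one_mul _
  have n3 : ‖F (u * m) (v * m')‖ ≤ ‖F‖ * (t * M) ^ 4 := by
    refine (norm_bil_le F _ _).trans (mul_le_mul_of_nonneg_left ?_ (norm_nonneg F))
    have n4 : ‖u * m‖ ≤ (t * M) ^ 2 :=
      (norm_mul_le _ _).trans ((mul_le_of_le_one_left (norm_nonneg _) hun).trans
        (hm3.trans (pow_le_pow_left₀ (norm_nonneg _) hsn 2)))
    have n5 : ‖v * m'‖ ≤ (t * M) ^ 2 :=
      (norm_mul_le _ _).trans ((mul_le_of_le_one_left (norm_nonneg _) hvn).trans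
        (hm3'.trans (pow_le_pow_left₀ (norm_nonneg _) hsn' 2)))
    calc ‖u * m‖ * ‖v * m'‖ ≤ (t * M) ^ 2 * (t * M) ^ 2 :=
          mul_le_mul n4 n5 (norm_nonneg _) (by positivity)
      _ = (t * M) ^ 4 := by ring
  have r1 := (abs_le.1 ((Complex.abs_re_le_norm _).trans n1)).2
  have r2 := (abs_le.1 ((Complex.abs_re_le_norm _).trans n2)).2
  have r3 := (abs_le.1 ((Complex.abs_re_le_norm _).trans n3)).1
  rw [sub_re, re_ofReal_mul] at r1 r2
  linarith

theorem exists_small (c M δ : ℝ) (hδ : 0 < δ) : ∃ t : ℝ, 0 < t ∧ t * M ≤ 1 ∧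
    c * t ^ 2 * M ^ 4 ≤ δ := by
  have c1 : Tendsto (fun t : ℝ => t * M) (𝓝[>] 0) (𝓝 0) := by
    have : Tendsto (fun t : ℝ => t * M) (𝓝 0) (𝓝 (0 * M)) :=
      (continuous_id.mul continuous_const).tendsto 0
    rw [zero_mul] at this
    exact this.mono_left nhdsWithin_le_nhds
  have c3 : Tendsto (fun t : ℝ => c * t ^ 2 * M ^ 4) (𝓝[>] 0) (𝓝 0) := by
    have : Tendsto (fun t : ℝ => c * t ^ 2 * M ^ 4) (𝓝 0) (𝓝 (c * 0 ^ 2 * M ^ 4)) :=
      ((continuous_const.mul (continuous_id.pow 2)).mul continuous_const).tendsto 0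
    rw [zero_pow two_ne_zero, mul_zero, zero_mul] at this
    exact this.mono_left nhdsWithin_le_nhds
  have c4 := (c1.eventually (ge_mem_nhds zero_lt_one)).and ((c3.eventually (ge_mem_nhds hδ)).and
    self_mem_nhdsWithin)
  obtain ⟨t, h1, h3, h4⟩ := c4.exists
  exact ⟨t, h4, h1, h3⟩

theorem bil_lim (F : A →L[ℂ] B →L[ℂ] ℂ) {u : ℕ → A} {v : ℕ → B} (hu : ∀ n, u n ∈ unitary A)
    (hv : ∀ n, v n ∈ unitary B) (hmax : ∀ n, ∀ w ∈ unitary A, ∀ w' ∈ unitary B,
      (F w w').re ≤ (F (u n) (v n)).re + 1 / ((n : ℝ) + 1)) (M : ℝ) (δ : ℝ) (hδ : 0 < δ) :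
    ∀ᶠ n in atTop, ∀ h : A, IsSelfAdjoint h → ‖h‖ ≤ M → ∀ k : B, IsSelfAdjoint k → ‖k‖ ≤ M →
      -(F (u n * h) (v n * k)).re ≤ 1 / 2 * ((F (u n * (h * h)) (v n)).re +
        (F (u n) (v n * (k * k))).re) + δ := by
  obtain ⟨t, ht, ht1, ht2⟩ := exists_small (2 * ‖F‖) M (δ / 2) (half_pos hδ)
  have hε : ∀ᶠ n : ℕ in atTop, 1 / ((n : ℝ) + 1) ≤ t ^ 2 * (δ / 2) :=
    tendsto_one_div_add_atTop_nhds_zero_nat.eventually (ge_mem_nhds (by positivity))
  filter_upwards [hε] with n hn h hh hhM k hk hkM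
  have h1 := var_bil F (hu n) (hv n) (hmax n) hh hk hhM hkM ht ht1
  have h2 : 2 * ‖F‖ * (t * M) ^ 4 ≤ t ^ 2 * (δ / 2) := by
    calc 2 * ‖F‖ * (t * M) ^ 4 = t ^ 2 * (2 * ‖F‖ * t ^ 2 * M ^ 4) := by ring
      _ ≤ t ^ 2 * (δ / 2) := mul_le_mul_of_nonneg_left ht2 (by positivity)
  have h3 : t ^ 2 * -(F (u n * h) (v n * k)).re ≤ t ^ 2 * (1 / 2 * ((F (u n * (h * h)) (v n)).re +
        (F (u n) (v n * (k * k))).re) + δ) := by nlinarith
  exact le_of_mul_le_mul_left h3 (by positivity)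

/-- The inequality for arbitrary elements. -/
theorem bil_lim2 (F : A →L[ℂ] B →L[ℂ] ℂ) {u : ℕ → A} {v : ℕ → B} (hu : ∀ n, u n ∈ unitary A)
    (hv : ∀ n, v n ∈ unitary B) (hmax : ∀ n, ∀ w ∈ unitary A, ∀ w' ∈ unitary B,
      (F w w').re ≤ (F (u n) (v n)).re + 1 / ((n : ℝ) + 1)) (X : A) (Y : B) (δ : ℝ) (hδ : 0 < δ) :
    ∀ᶠ n in atTop, -(F X Y + F (u n * star X * u n) (v n * star Y * v n)).re ≤
      1 / 2 * (F (u n * (star X * X)) (v n) + F (X * star X * u n) (v n)).re +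
      1 / 2 * (F (u n) (v n * (star Y * Y)) + F (u n) (Y * star Y * v n)).re + δ := by
  filter_upwards [bil_lim F hu hv hmax (‖X‖ + ‖Y‖) (δ / 4) (by positivity)] with n hn
  have huu : u n * star (u n) = 1 := Unitary.mul_star_self_of_mem (hu n)
  have hvv : v n * star (v n) = 1 := Unitary.mul_star_self_of_mem (hv n)
  obtain ⟨z, hz⟩ : ∃ z, z = star (u n) * X := ⟨_, rfl⟩
  obtain ⟨w, hw⟩ : ∃ w, w = star (v n) * Y := ⟨_, rfl⟩
  have huz : u n * z = X := by rw [hz, ← mul_assoc, huu, one_mul]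
  have hvw : v n * w = Y := by rw [hw, ← mul_assoc, hvv, one_mul]
  have huz' : u n * star z = u n * star X * u n := by
    rw [hz, star_mul, star_star, ← mul_assoc]
  have hvw' : v n * star w = v n * star Y * v n := by
    rw [hw, star_mul, star_star, ← mul_assoc]
  have hzn : ‖z‖ ≤ ‖X‖ + ‖Y‖ := by
    rw [hz]
    refine (norm_mul_le _ _).trans ?_
    refine (mul_le_of_le_one_left (norm_nonneg _)
      (norm_unitary_le (Unitary.star_mem (hu n)))).trans ?_
    linarith [norm_nonneg Y]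
  have hwn : ‖w‖ ≤ ‖X‖ + ‖Y‖ := by
    rw [hw]
    refine (norm_mul_le _ _).trans ?_
    refine (mul_le_of_le_one_left (norm_nonneg _)
      (norm_unitary_le (Unitary.star_mem (hv n)))).trans ?_
    linarith [norm_nonneg X]
  -- real and imaginary parts
  obtain ⟨p, hp⟩ : ∃ p : A, p = (realPart z : A) := ⟨_, rfl⟩
  obtain ⟨q, hq⟩ : ∃ q : A, q = (imaginaryPart z : A) := ⟨_, rfl⟩
  obtain ⟨p', hp'⟩ : ∃ p : B, p = (realPart w : B) := ⟨_, rfl⟩
  obtain ⟨q', hq'⟩ : ∃ q : B, q = (imaginaryPart w : B) := ⟨_, rfl⟩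
  have hpsa : IsSelfAdjoint p := by rw [hp]; exact (realPart z).2
  have hqsa : IsSelfAdjoint q := by rw [hq]; exact (imaginaryPart z).2
  have hpsa' : IsSelfAdjoint p' := by rw [hp']; exact (realPart w).2
  have hqsa' : IsSelfAdjoint q' := by rw [hq']; exact (imaginaryPart w).2
  have hpn : ‖p‖ ≤ ‖X‖ + ‖Y‖ := by rw [hp]; exact (realPart.norm_le z).trans hzn
  have hqn : ‖q‖ ≤ ‖X‖ + ‖Y‖ := by rw [hq]; exact (imaginaryPart.norm_le z).trans hzn
  have hpn' : ‖p'‖ ≤ ‖X‖ + ‖Y‖ := by rw [hp']; exact (realPart.norm_le w).trans hwn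
  have hqn' : ‖q'‖ ≤ ‖X‖ + ‖Y‖ := by rw [hq']; exact (imaginaryPart.norm_le w).trans hwn
  have hzd : z = p + I • q := by rw [hp, hq]; exact (realPart_add_I_smul_imaginaryPart z).symm
  have hwd : w = p' + I • q' := by rw [hp', hq']; exact (realPart_add_I_smul_imaginaryPart w).symm
  have hzs : star z = p - I • q := by
    rw [hzd, star_add, star_smul, hpsa.star_eq, hqsa.star_eq, Complex.star_def, Complex.conj_I,
      neg_smul, sub_eq_add_neg]
  have hws : star w = p' - I • q' := by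
    rw [hwd, star_add, star_smul, hpsa'.star_eq, hqsa'.star_eq, Complex.star_def, Complex.conj_I,
      neg_smul, sub_eq_add_neg]
  have h1 := hn p hpsa hpn p' hpsa' hpn'
  have h2 := hn (-q) hqsa.neg (by rw [norm_neg]; exact hqn) q' hqsa' hqn'
  -- left hand sides
  have e1 : F X Y + F (u n * star X * u n) (v n * star Y * v n) =
      2 * (F (u n * p) (v n * p') + F (u n * -q) (v n * q')) := by
    rw [← huz', ← hvw']
    nth_rewrite 1 [← huz]
    nth_rewrite 1 [← hvw]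
    rw [hzs, hws, hzd, hwd]
    simp only [mul_add, mul_sub, mul_neg, map_neg, neg_apply, map_add, map_sub, add_apply,
      sub_apply, mul_smul_comm, map_smul, smul_apply, smul_eq_mul]
    ring_nf
    rw [Complex.I_sq]
    ring
  have e2 : u n * (star X * X) + X * star X * u n = (2 : ℂ) • (u n * (p * p) + u n * (-q * -q)) := by
    have h3 : u n * (star X * X) = u n * (star z * z) := by
      rw [hz, star_mul, star_star, mul_assoc (star X), ← mul_assoc (u n) (star (u n)), huu, one_mul]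
    have h4 : X * star X * u n = u n * (z * star z) := by
      rw [hz, star_mul, star_star, mul_assoc (star (u n)), ← mul_assoc (u n), huu, one_mul,
        ← mul_assoc]
    rw [h3, h4, hzs, hzd]
    simp only [add_mul, sub_mul, mul_add, mul_sub, smul_mul_assoc, mul_smul_comm, smul_add,
      smul_sub, smul_smul, Complex.I_mul_I, neg_mul_neg]
    module
  have e3 : v n * (star Y * Y) + Y * star Y * v n =
      (2 : ℂ) • (v n * (p' * p') + v n * (q' * q')) := by
    have h3 : v n * (star Y * Y) = v n * (star w * w) := by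
      rw [hw, star_mul, star_star, mul_assoc (star Y), ← mul_assoc (v n) (star (v n)), hvv, one_mul]
    have h4 : Y * star Y * v n = v n * (w * star w) := by
      rw [hw, star_mul, star_star, mul_assoc (star (v n)), ← mul_assoc (v n), hvv, one_mul,
        ← mul_assoc]
    rw [h3, h4, hws, hwd]
    simp only [add_mul, sub_mul, mul_add, mul_sub, smul_mul_assoc, mul_smul_comm, smul_add,
      smul_sub, smul_smul, Complex.I_mul_I]
    module
  have e4 : (F (u n * (star X * X)) (v n) + F (X * star X * u n) (v n)).re =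
      2 * ((F (u n * (p * p)) (v n)).re + (F (u n * (-q * -q)) (v n)).re) := by
    rw [← add_apply, ← map_add, e2, map_smul, map_add, smul_apply, add_apply, smul_eq_mul,
      show (2 : ℂ) = ((2 : ℝ) : ℂ) by norm_num, re_ofReal_mul, add_re]
  have e5 : (F (u n) (v n * (star Y * Y)) + F (u n) (Y * star Y * v n)).re =
      2 * ((F (u n) (v n * (p' * p'))).re + (F (u n) (v n * (q' * q'))).re) := by
    rw [← map_add, e3, map_smul, map_add, smul_eq_mul,
      show (2 : ℂ) = ((2 : ℝ) : ℂ) by norm_num, re_ofReal_mul, add_re]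
  have e6 : (F X Y + F (u n * star X * u n) (v n * star Y * v n)).re =
      2 * ((F (u n * p) (v n * p')).re + (F (u n * -q) (v n * q')).re) := by
    rw [e1, show (2 : ℂ) = ((2 : ℝ) : ℂ) by norm_num, re_ofReal_mul, add_re]
  rw [e4, e5, e6]
  linarith

end Pool.Agent.Helper60.GT
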