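import Pool.Agent.Helper60.GT.Grow

/-!
# Bounded bilinear forms are absolutely continuous

For a bounded bilinear form `V` on `A × B` and `η > 0` there is a positive functional `ω` on `A` such
that `‖V x‖ ≤ η` for all `x` in the unit ball with `ω (x* x + x x*) ≤ 1`.
-/

namespace Pool.Agent.Helper60.GT

open Filter Topology Complex
open scoped ComplexOrder

variable {A B : Type*} [CStarAlgebra A] [CStarAlgebra B]

section cut

variable [PartialOrder A] [StarOrderedRing A] [PartialOrder B] [StarOrderedRing B]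

omit [PartialOrder B] [StarOrderedRing B] in
/-- One cutting step. -/
theorem cut_step (V : A →L[ℂ] B →L[ℂ] ℂ) (η : ℝ) (hη : 0 < η)
    (hno : ∀ ω : A →L[ℂ] ℂ, Pos ω → ∃ p : A, 0 ≤ p ∧ p ≤ 1 ∧ (ω (p * p)).re ≤ 1 ∧ η < ‖V p‖)
    (K : ℕ) (z : ℕ → A) (hz : ∀ j < K, 0 ≤ z j) (hsum : ∑ j ∈ Finset.range K, z j ≤ 1)
    (hV : ∀ j < K, η / 2 < ‖V (z j)‖) :
    ∃ z' : ℕ → A, (∀ j < K + 1, 0 ≤ z' j) ∧ (∑ j ∈ Finset.range (K + 1), z' j ≤ 1) ∧
      ∀ j < K + 1, η / 2 < ‖V (z' j)‖ := by
  have h1 : ∀ j, ∃ y : B, j < K → ‖y‖ < 1 ∧ η / 2 < ‖V (z j) y‖ := by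
    intro j
    by_cases hj : j < K
    · obtain ⟨y, hy⟩ := (V (z j)).exists_lt_apply_of_lt_opNorm (hV j hj)
      exact ⟨y, fun _ => hy⟩
    · exact ⟨0, fun h => absurd h hj⟩
  choose y hy using h1
  choose ω hω1 hω2 hω3 using fun j => dom (V.flip (y j))
  obtain ⟨g, hg⟩ : ∃ g : ℕ → ℝ, ∀ j, g j = ‖V (z j) (y j)‖ - η / 2 := ⟨_, fun _ => rfl⟩
  have hg0 : ∀ j < K, 0 < g j := fun j hj => by
    rw [hg]
    linarith [(hy j hj).2]
  obtain ⟨Ω, hΩ⟩ : ∃ Ω : A →L[ℂ] ℂ,
      Ω = ∑ j ∈ Finset.range K, (((4 / g j) ^ 2 : ℝ) : ℂ) • ω j := ⟨_, rfl⟩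
  have hΩpos : Pos Ω := by
    rw [hΩ]
    exact Pos.sum _ _ fun j _ => (hω1 j).smul (by positivity)
  obtain ⟨p, hp0, hp1, hpΩ, hpV⟩ := hno Ω hΩpos
  obtain ⟨c, hc0, hc1, hcc, hd0, hdp, hdd⟩ := exists_sqrt_one_sub hp0 hp1
  have hcsa : IsSelfAdjoint c := hc0.isSelfAdjoint
  have hdsa : IsSelfAdjoint (1 - c) := hd0.isSelfAdjoint
  obtain ⟨z', hz'⟩ : ∃ z' : ℕ → A, ∀ j, z' j = if j < K then c * z j * c else p :=
    ⟨_, fun _ => rfl⟩
  refine ⟨z', fun j hj => ?_, ?_, fun j hj => ?_⟩
  · rw [hz']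
    split_ifs with hjK
    · exact IsSelfAdjoint.conjugate_nonneg (hz j hjK) hcsa
    · exact hp0
  · rw [Finset.sum_range_succ]
    have h2 : ∑ j ∈ Finset.range K, z' j = c * (∑ j ∈ Finset.range K, z j) * c := by
      rw [Finset.mul_sum, Finset.sum_mul]
      exact Finset.sum_congr rfl fun j hj => by rw [hz', if_pos (Finset.mem_range.1 hj)]
    rw [h2, hz', if_neg (lt_irrefl K)]
    have h3 : c * (∑ j ∈ Finset.range K, z j) * c ≤ c * 1 * c :=
      IsSelfAdjoint.conjugate_le_conjugate hsum hcsa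
    rw [mul_one, hcc] at h3
    calc c * (∑ j ∈ Finset.range K, z j) * c + p ≤ (1 - p) + p := add_le_add_left h3 p
      _ = 1 := sub_add_cancel _ _
  · rw [hz']
    split_ifs with hjK
    · -- the old elements
      have hzj0 := hz j hjK
      have hzj1 : z j ≤ 1 := by
        refine le_trans ?_ hsum
        exact Finset.single_le_sum (f := z) (fun i hi => hz i (Finset.mem_range.1 hi))
          (Finset.mem_range.2 hjK)
      have hzsa : IsSelfAdjoint (z j) := hzj0.isSelfAdjoint
      have hgj := hg0 j hjK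
      have hωd : (ω j ((1 - c) * (1 - c))).re ≤ (g j / 4) ^ 2 := by
        have h2 : (4 / g j) ^ 2 * (ω j (p * p)).re ≤ 1 := by
          refine le_trans ?_ hpΩ
          have h3 : (Ω (p * p)).re = ∑ i ∈ Finset.range K, (4 / g i) ^ 2 * (ω i (p * p)).re := by
            rw [hΩ, _root_.sum_apply, Complex.re_sum]
            exact Finset.sum_congr rfl fun i _ => by
              rw [smul_apply, smul_eq_mul, re_ofReal_mul]
          rw [h3]
          have h4 : ∀ i, 0 ≤ (ω i (p * p)).re := by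
            intro i
            have h5 := hω1 i p
            rw [hp0.isSelfAdjoint.star_eq] at h5
            exact (Complex.nonneg_iff.1 h5).1
          exact Finset.single_le_sum (f := fun i => (4 / g i) ^ 2 * (ω i (p * p)).re)
            (fun i _ => mul_nonneg (by positivity) (h4 i)) (Finset.mem_range.2 hjK)
        have h5 : (ω j ((1 - c) * (1 - c))).re ≤ (ω j (p * p)).re := (hω1 j).mono hdd
        have h6 : (ω j (p * p)).re ≤ (g j / 4) ^ 2 := by
          have h7 : (g j / 4) ^ 2 * ((4 / g j) ^ 2 * (ω j (p * p)).re) = (ω j (p * p)).re := by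
            field_simp
          rw [← h7]
          exact mul_le_of_le_one_right (by positivity) h2
        exact h5.trans h6
      have e1 : ‖V ((1 - c) * z j * c) (y j)‖ ≤ g j / 4 := by
        refine le_of_sq_le_sq ?_ (by positivity)
        have h2 := hω3 j ((1 - c) * z j * c)
        rw [ContinuousLinearMap.flip_apply] at h2
        refine h2.trans (le_trans ?_ hωd)
        refine (hω1 j).mono ?_
        have h3 : (1 - c) * z j * c * star ((1 - c) * z j * c) =
            (1 - c) * (z j * (c * c) * z j) * (1 - c) := by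
          rw [star_mul, star_mul, hcsa.star_eq, hzsa.star_eq, hdsa.star_eq]
          simp only [mul_assoc]
        rw [h3]
        have h4 : z j * (c * c) * z j ≤ 1 := by
          have h5 : z j * (c * c) * z j ≤ z j * 1 * z j := by
            refine IsSelfAdjoint.conjugate_le_conjugate ?_ hzsa
            rw [hcc]
            exact sub_le_self _ hp0
          rw [mul_one] at h5
          exact h5.trans ((sq_le_self hzj0 hzj1).trans hzj1)
        have h5 := IsSelfAdjoint.conjugate_le_conjugate h4 hdsa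
        rwa [mul_one] at h5
      have e2 : ‖V (z j * (1 - c)) (y j)‖ ≤ g j / 4 := by
        refine le_of_sq_le_sq ?_ (by positivity)
        have h2 := hω2 j (z j * (1 - c))
        rw [ContinuousLinearMap.flip_apply] at h2
        refine h2.trans (le_trans ?_ hωd)
        refine (hω1 j).mono ?_
        have h3 : star (z j * (1 - c)) * (z j * (1 - c)) = (1 - c) * (z j * z j) * (1 - c) := by
          rw [star_mul, hzsa.star_eq, hdsa.star_eq]
          simp only [mul_assoc]
        rw [h3]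
        have h4 : z j * z j ≤ 1 := (sq_le_self hzj0 hzj1).trans hzj1
        have h5 := IsSelfAdjoint.conjugate_le_conjugate h4 hdsa
        rwa [mul_one] at h5
      have e3 : c * z j * c = z j - (1 - c) * z j * c - z j * (1 - c) := by noncomm_ring
      have e4 : V (c * z j * c) (y j) = V (z j) (y j) - V ((1 - c) * z j * c) (y j) -
          V (z j * (1 - c)) (y j) := by
        rw [← sub_apply, ← sub_apply, ← map_sub, ← map_sub, ← e3]
      have e5 : η / 2 < ‖V (c * z j * c) (y j)‖ := by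
        rw [e4]
        have h2 := norm_sub_norm_le (V (z j) (y j) - V ((1 - c) * z j * c) (y j))
          (V (z j * (1 - c)) (y j))
        have h3 := norm_sub_norm_le (V (z j) (y j)) (V ((1 - c) * z j * c) (y j))
        have h4 : ‖V (z j) (y j)‖ = g j + η / 2 := by rw [hg]; ring
        linarith
      refine e5.trans_le (((V (c * z j * c)).le_opNorm _).trans ?_)
      exact mul_le_of_le_one_right (norm_nonneg _) (hy j hjK).1.le
    · linarith

omit [PartialOrder B] [StarOrderedRing B] in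
theorem norm_comb_le (K : ℕ) (z : ℕ → A) (hz : ∀ j < K, 0 ≤ z j)
    (hsum : ∑ j ∈ Finset.range K, z j ≤ 1) (k : ℕ) (hk : k ≤ K) (r : ℕ → ℝ)
    (hr0 : ∀ j, 0 ≤ r j) (hr1 : ∀ j, r j ≤ 1) : ‖∑ j ∈ Finset.range k, r j • z j‖ ≤ 1 := by
  have h0 : 0 ≤ ∑ j ∈ Finset.range k, r j • z j :=
    Finset.sum_nonneg fun j hj => smul_nonneg (hr0 j) (hz j ((Finset.mem_range.1 hj).trans_le hk))
  rw [CStarAlgebra.norm_le_one_iff_of_nonneg _ h0]
  calc ∑ j ∈ Finset.range k, r j • z j ≤ ∑ j ∈ Finset.range k, z j := by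
        refine Finset.sum_le_sum fun j hj => ?_
        have h1 := hz j ((Finset.mem_range.1 hj).trans_le hk)
        have h2 : 0 ≤ (1 - r j) • z j := smul_nonneg (sub_nonneg.2 (hr1 j)) h1
        rw [sub_smul, one_smul] at h2
        exact sub_nonneg.1 h2
    _ ≤ ∑ j ∈ Finset.range K, z j :=
        Finset.sum_le_sum_of_subset_of_nonneg (Finset.range_subset_range.2 hk) fun j hj _ =>
          hz j (Finset.mem_range.1 hj)
    _ ≤ 1 := hsum

/-- The absolute continuity of bounded bilinear forms, for positive elements. -/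
theorem cut (V : A →L[ℂ] B →L[ℂ] ℂ) (η : ℝ) (hη : 0 < η) : ∃ ω : A →L[ℂ] ℂ, Pos ω ∧
    ∀ p : A, 0 ≤ p → p ≤ 1 → (ω (p * p)).re ≤ 1 → ‖V p‖ ≤ η := by
  by_contra hcon
  push Not at hcon
  have key : ∀ K : ℕ, ∃ z : ℕ → A, (∀ j < K, 0 ≤ z j) ∧ (∑ j ∈ Finset.range K, z j ≤ 1) ∧
      ∀ j < K, η / 2 < ‖V (z j)‖ := by
    intro K
    induction K with
    | zero => exact ⟨fun _ => 0, by simp, by simp, by simp⟩
    | succ K ih =>
      obtain ⟨z, h1, h2, h3⟩ := ih
      exact cut_step V η hη hcon K z h1 h2 h3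
  obtain ⟨M, hMd⟩ : ∃ M, M = 4 * ‖V‖ := ⟨_, rfl⟩
  have hM0 : 0 ≤ M := by rw [hMd]; positivity
  obtain ⟨K, hK⟩ := exists_nat_gt (M / (η / 2 / (10 * (M + η / 2)) * (η / 2) / 4))
  obtain ⟨z, h1, h2, h3⟩ := key K
  have h4 := grow_seq (fun j => V (z j)) (η / 2) M (half_pos hη) K (fun j hj => (h3 j hj).le)
    (fun e he k hk => by
      have h5 : ∑ j ∈ Finset.range k, e j • V (z j) = V (∑ j ∈ Finset.range k, e j • z j) := by
        rw [map_sum]
        exact Finset.sum_congr rfl fun j _ => by rw [map_smul]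
      rw [h5]
      have hcomp : ∀ j, |(e j).re| ≤ 1 ∧ |(e j).im| ≤ 1 := by
        intro j
        rcases he j with h | h | h | h <;> rw [h] <;> simp
      have n1 := norm_comb_le K z h1 h2 k hk (fun j => max (e j).re 0) (fun j => le_max_right _ _)
        (fun j => max_le ((le_abs_self _).trans (hcomp j).1) zero_le_one)
      have n2 := norm_comb_le K z h1 h2 k hk (fun j => max (-(e j).re) 0)
        (fun j => le_max_right _ _)
        (fun j => max_le ((neg_le_abs _).trans (hcomp j).1) zero_le_one)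
      have n3 := norm_comb_le K z h1 h2 k hk (fun j => max (e j).im 0) (fun j => le_max_right _ _)
        (fun j => max_le ((le_abs_self _).trans (hcomp j).2) zero_le_one)
      have n4 := norm_comb_le K z h1 h2 k hk (fun j => max (-(e j).im) 0)
        (fun j => le_max_right _ _)
        (fun j => max_le ((neg_le_abs _).trans (hcomp j).2) zero_le_one)
      have h6 : ∑ j ∈ Finset.range k, e j • z j =
          (∑ j ∈ Finset.range k, max (e j).re 0 • z j) -
          (∑ j ∈ Finset.range k, max (-(e j).re) 0 • z j) +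
          (I • (∑ j ∈ Finset.range k, max (e j).im 0 • z j) -
          I • (∑ j ∈ Finset.range k, max (-(e j).im) 0 • z j)) := by
        rw [Finset.smul_sum, Finset.smul_sum, ← Finset.sum_sub_distrib, ← Finset.sum_sub_distrib,
          ← Finset.sum_add_distrib]
        refine Finset.sum_congr rfl fun j _ => ?_
        have h7 : ∀ x : ℝ, max x 0 - max (-x) 0 = x := by
          intro x
          rcases le_total 0 x with hx | hx
          · rw [max_eq_left hx, max_eq_right (by linarith)]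
            ring
          · rw [max_eq_right hx, max_eq_left (by linarith)]
            ring
        have h8 : e j = ((max (e j).re 0 : ℝ) : ℂ) - ((max (-(e j).re) 0 : ℝ) : ℂ) +
            (I * ((max (e j).im 0 : ℝ) : ℂ) - I * ((max (-(e j).im) 0 : ℝ) : ℂ)) := by
          rw [← mul_sub, ← Complex.ofReal_sub, ← Complex.ofReal_sub, h7, h7, mul_comm I,
            Complex.re_add_im]
        conv_lhs => rw [h8]
        rw [← Complex.coe_smul, ← Complex.coe_smul, ← Complex.coe_smul, ← Complex.coe_smul, smul_smul,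
          smul_smul, ← sub_smul, ← sub_smul, ← add_smul]
      refine (V.le_opNorm _).trans ?_
      rw [hMd, mul_comm 4]
      refine mul_le_mul_of_nonneg_left ?_ (norm_nonneg _)
      rw [h6]
      have n5 : ‖I • (∑ j ∈ Finset.range k, max (e j).im 0 • z j)‖ ≤ 1 := by
        rw [norm_smul, Complex.norm_I, one_mul]
        exact n3
      have n6 : ‖I • (∑ j ∈ Finset.range k, max (-(e j).im) 0 • z j)‖ ≤ 1 := by
        rw [norm_smul, Complex.norm_I, one_mul]
        exact n4
      refine (norm_add_le _ _).trans ?_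
      have n7 := norm_sub_le (∑ j ∈ Finset.range k, max (e j).re 0 • z j)
        (∑ j ∈ Finset.range k, max (-(e j).re) 0 • z j)
      have n8 := norm_sub_le (I • (∑ j ∈ Finset.range k, max (e j).im 0 • z j))
        (I • (∑ j ∈ Finset.range k, max (-(e j).im) 0 • z j))
      linarith)
  rw [div_lt_iff₀ (by positivity)] at hK
  linarith

omit [PartialOrder B] [StarOrderedRing B] in
theorem cut_sa (V : A →L[ℂ] B →L[ℂ] ℂ) (η : ℝ) (ω : A →L[ℂ] ℂ) (hω : Pos ω)
    (h : ∀ p : A, 0 ≤ p → p ≤ 1 → (ω (p * p)).re ≤ 1 → ‖V p‖ ≤ η) (y : A) (hy : IsSelfAdjoint y)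
    (hy1 : ‖y‖ ≤ 1) (hyω : (ω (y * y)).re ≤ 1) : ‖V y‖ ≤ 2 * η := by
  have hP := CFC.posPart_nonneg y
  have hN := CFC.negPart_nonneg y
  have hPN := CFC.posPart_mul_negPart y
  have hNP := CFC.negPart_mul_posPart y
  have hyd := CFC.posPart_sub_negPart y hy
  have e1 : y * y = y⁺ * y⁺ + y⁻ * y⁻ := by
    conv_lhs => rw [← hyd]
    rw [sub_mul, mul_sub, mul_sub, hPN, hNP]
    simp
  have hPP : 0 ≤ y⁺ * y⁺ := by
    have := star_mul_self_nonneg (y⁺)
    rwa [hP.isSelfAdjoint.star_eq] at this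
  have hNN : 0 ≤ y⁻ * y⁻ := by
    have := star_mul_self_nonneg (y⁻)
    rwa [hN.isSelfAdjoint.star_eq] at this
  have e2 : y⁺ * y⁺ ≤ y * y := by rw [e1]; exact le_add_of_nonneg_right hNN
  have e3 : y⁻ * y⁻ ≤ y * y := by rw [e1]; exact le_add_of_nonneg_left hPP
  have n1 : ∀ q : A, 0 ≤ q → 0 ≤ q * q → q * q ≤ y * y → q ≤ 1 := by
    intro q hq hqq hle
    rw [← CStarAlgebra.norm_le_one_iff_of_nonneg _ hq]
    have h1 := CStarAlgebra.norm_le_norm_of_nonneg_of_le hqq hle
    rw [hq.isSelfAdjoint.norm_mul_self, hy.norm_mul_self] at h1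
    have h2 : ‖q‖ ≤ ‖y‖ := by
      rwa [sq_le_sq₀ (norm_nonneg _) (norm_nonneg _)] at h1
    exact h2.trans hy1
  have h1 := h _ hP (n1 _ hP hPP e2) ((hω.mono e2).trans hyω)
  have h2 := h _ hN (n1 _ hN hNN e3) ((hω.mono e3).trans hyω)
  rw [← hyd, map_sub]
  refine (norm_sub_le _ _).trans ?_
  linarith

/-- The absolute continuity of bounded bilinear forms. -/
theorem joint (V : A →L[ℂ] B →L[ℂ] ℂ) (η : ℝ) (hη : 0 < η) : ∃ ω : A →L[ℂ] ℂ, Pos ω ∧
    ∀ x : A, ‖x‖ ≤ 1 → (ω (star x * x)).re + (ω (x * star x)).re ≤ 1 → ‖V x‖ ≤ η := by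
  obtain ⟨ω, hω, h⟩ := cut V (η / 4) (by positivity)
  refine ⟨ω, hω, fun x hx hxω => ?_⟩
  obtain ⟨p, hp⟩ : ∃ p : A, p = (realPart x : A) := ⟨_, rfl⟩
  obtain ⟨q, hq⟩ : ∃ q : A, q = (imaginaryPart x : A) := ⟨_, rfl⟩
  have hpsa : IsSelfAdjoint p := by rw [hp]; exact (realPart x).2
  have hqsa : IsSelfAdjoint q := by rw [hq]; exact (imaginaryPart x).2
  have hxd : x = p + I • q := by
    rw [hp, hq]
    exact (realPart_add_I_smul_imaginaryPart x).symm
  have hxs : star x = p - I • q := by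
    rw [hxd, star_add, star_smul, hpsa.star_eq, hqsa.star_eq, Complex.star_def, Complex.conj_I,
      neg_smul, sub_eq_add_neg]
  have e1 : star x * x + x * star x = (2 : ℂ) • (p * p + q * q) := by
    rw [hxs, hxd]
    simp only [add_mul, sub_mul, mul_add, mul_sub, smul_mul_assoc, mul_smul_comm, smul_add,
      smul_sub, smul_smul, Complex.I_mul_I]
    module
  have e2 : (ω (p * p)).re + (ω (q * q)).re ≤ 1 := by
    have h1 : (ω (star x * x + x * star x)).re = 2 * ((ω (p * p)).re + (ω (q * q)).re) := by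
      rw [e1, map_smul, map_add, smul_eq_mul]
      simp
    rw [map_add, add_re] at h1
    have h2 : 0 ≤ (ω (p * p)).re := by
      have := hω p
      rw [hpsa.star_eq] at this
      exact (Complex.nonneg_iff.1 this).1
    have h3 : 0 ≤ (ω (q * q)).re := by
      have := hω q
      rw [hqsa.star_eq] at this
      exact (Complex.nonneg_iff.1 this).1
    linarith
  have h2 : 0 ≤ (ω (p * p)).re := by
    have := hω p
    rw [hpsa.star_eq] at this
    exact (Complex.nonneg_iff.1 this).1
  have h3 : 0 ≤ (ω (q * q)).re := by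
    have := hω q
    rw [hqsa.star_eq] at this
    exact (Complex.nonneg_iff.1 this).1
  have hp1 : ‖p‖ ≤ 1 := by rw [hp]; exact (realPart.norm_le x).trans hx
  have hq1 : ‖q‖ ≤ 1 := by rw [hq]; exact (imaginaryPart.norm_le x).trans hx
  have h4 := cut_sa V (η / 4) ω hω h p hpsa hp1 (by linarith)
  have h5 := cut_sa V (η / 4) ω hω h q hqsa hq1 (by linarith)
  rw [hxd, map_add, map_smul]
  refine (norm_add_le _ _).trans ?_
  rw [norm_smul, Complex.norm_I, one_mul]
  linarith

end cut

end Pool.Agent.Helper60.GT
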