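import Pool.Agent.Helper60.GT.Bil

/-!
# The bilinear form `F(X, Y) + lim conj F(u X* u, v Y* v)`
-/

namespace Pool.Agent.Helper60.GT

open Filter Topology Complex
open scoped ComplexOrder

theorem scale_le {d α β : ℝ} (hd : 0 ≤ d) (hα : 0 ≤ α) (hβ : 0 ≤ β)
    (h : ∀ r : ℝ, 0 < r → d ≤ α * r + β / r) : d ^ 2 ≤ 4 * α * β := by
  rcases hd.eq_or_lt with h0 | h0
  · have h1 : 0 ≤ 4 * α * β := by positivity
    rw [← h0]
    simpa using h1
  refine le_of_forall_pos_le_add fun ε hε => ?_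
  obtain ⟨e, he⟩ : ∃ e, e = ε / (4 * (α + 1)) := ⟨_, rfl⟩
  have he0 : 0 < e := by rw [he]; positivity
  have h1 := h (2 * (β + e) / d) (by positivity)
  have h2 : β / (2 * (β + e) / d) ≤ d / 2 := by
    rw [div_div_eq_mul_div, div_le_div_iff₀ (by positivity) (by positivity)]
    nlinarith
  have h3 : d / 2 ≤ α * (2 * (β + e) / d) := by linarith
  have h4 : α * (2 * (β + e) / d) = 2 * α * (β + e) / d := by ring
  rw [h4, div_le_div_iff₀ (by positivity) h0] at h3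
  have h5 : 4 * α * e ≤ ε := by
    rw [he, mul_div_assoc', div_le_iff₀ (by positivity)]
    nlinarith
  nlinarith

variable {A B : Type*} [CStarAlgebra A] [CStarAlgebra B]
  [PartialOrder A] [StarOrderedRing A] [PartialOrder B] [StarOrderedRing B]

theorem D_vanish (F : A →L[ℂ] B →L[ℂ] ℂ) {u : ℕ → A} {v : ℕ → B} (hu : ∀ n, u n ∈ unitary A)
    (hv : ∀ n, v n ∈ unitary B) (hmax : ∀ n, ∀ w ∈ unitary A, ∀ w' ∈ unitary B,
      (F w w').re ≤ (F (u n) (v n)).re + 1 / ((n : ℝ) + 1)) (a : ℕ → A) (b : ℕ → B)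
    (hab : Summable fun n => ‖a n‖ * ‖b n‖)
    (hN : ∀ (φ : A →L[ℂ] ℂ) (ψ : B →L[ℂ] ℂ), ∑' n, φ (a n) * ψ (b n) = 0) :
    ∑' n, (F (a n) (b n) + ul fun k => (starRingEnd ℂ)
      (F (u k * star (a n) * u k) (v k * star (b n) * v k))) = 0 := by
  have hun := fun n => norm_unitary_le (hu n)
  have hvn := fun n => norm_unitary_le (hv n)
  have hmulL : ∀ n (x : A), ‖u n * x‖ ≤ ‖x‖ := fun n x =>
    (norm_mul_le _ _).trans (mul_le_of_le_one_left (norm_nonneg _) (hun n))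
  have hmulR : ∀ n (x : A), ‖x * u n‖ ≤ ‖x‖ := fun n x =>
    (norm_mul_le _ _).trans (mul_le_of_le_one_right (norm_nonneg _) (hun n))
  have hmulL' : ∀ n (x : B), ‖v n * x‖ ≤ ‖x‖ := fun n x =>
    (norm_mul_le _ _).trans (mul_le_of_le_one_left (norm_nonneg _) (hvn n))
  have hmulR' : ∀ n (x : B), ‖x * v n‖ ≤ ‖x‖ := fun n x =>
    (norm_mul_le _ _).trans (mul_le_of_le_one_right (norm_nonneg _) (hvn n))
  have hbound : ∀ k (x : A) (y : B), ‖(starRingEnd ℂ)
      (F (u k * star x * u k) (v k * star y * v k))‖ ≤ ‖F‖ * ‖x‖ * ‖y‖ := by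
    intro k x y
    rw [RCLike.norm_conj, mul_assoc ‖F‖]
    refine (norm_bil_le F _ _).trans (mul_le_mul_of_nonneg_left ?_ (norm_nonneg F))
    refine mul_le_mul ?_ ?_ (norm_nonneg _) (norm_nonneg _)
    · exact (hmulR k _).trans ((hmulL k _).trans (norm_star x).le)
    · exact (hmulR' k _).trans ((hmulL' k _).trans (norm_star y).le)
  -- the conjugate form
  obtain ⟨g, hg⟩ : ∃ g : ℕ → A →L[ℂ] B →L[ℂ] ℂ, ∀ k x y, g k x y = (starRingEnd ℂ)
      (F (u k * star x * u k) (v k * star y * v k)) := by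
    refine ⟨fun k => LinearMap.mkContinuous₂ (LinearMap.mk₂ ℂ (fun x y => (starRingEnd ℂ)
      (F (u k * star x * u k) (v k * star y * v k))) (fun x x' y => ?_) (fun c x y => ?_)
      (fun x y y' => ?_) (fun c x y => ?_)) ‖F‖ fun x y => hbound k x y, fun k x y => rfl⟩
    · rw [star_add, mul_add, add_mul, map_add, add_apply, map_add]
    · rw [star_smul, mul_smul_comm, smul_mul_assoc, map_smul, smul_apply, smul_eq_mul, map_mul,
        Complex.star_def, Complex.conj_conj, smul_eq_mul]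
    · rw [star_add, mul_add, add_mul, map_add, map_add]
    · rw [star_smul, mul_smul_comm, smul_mul_assoc, map_smul, smul_eq_mul, map_mul,
        Complex.star_def, Complex.conj_conj, smul_eq_mul]
  obtain ⟨G, hG⟩ := exists_ulCLM2 g ‖F‖ fun k x y => by rw [hg]; exact hbound k x y
  simp only [hg] at hG
  -- the two functionals
  obtain ⟨φ₁, hφ₁⟩ := exists_ulCLM (fun k => (F.flip (v k)).comp
    (ContinuousLinearMap.mul ℂ A (u k))) ‖F‖ fun k x => by
      rw [ContinuousLinearMap.comp_apply, ContinuousLinearMap.mul_apply',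
        ContinuousLinearMap.flip_apply]
      refine (norm_bil_le F _ _).trans (mul_le_mul_of_nonneg_left ?_ (norm_nonneg F))
      calc ‖u k * x‖ * ‖v k‖ ≤ ‖x‖ * 1 := mul_le_mul (hmulL k x) (hvn k) (norm_nonneg _)
            (norm_nonneg _)
        _ = ‖x‖ := mul_one _
  obtain ⟨φ₂, hφ₂⟩ := exists_ulCLM (fun k => (F.flip (v k)).comp
    ((ContinuousLinearMap.mul ℂ A).flip (u k))) ‖F‖ fun k x => by
      show ‖F (x * u k) (v k)‖ ≤ ‖F‖ * ‖x‖
      refine (norm_bil_le F _ _).trans (mul_le_mul_of_nonneg_left ?_ (norm_nonneg F))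
      calc ‖x * u k‖ * ‖v k‖ ≤ ‖x‖ * 1 := mul_le_mul (hmulR k x) (hvn k) (norm_nonneg _)
            (norm_nonneg _)
        _ = ‖x‖ := mul_one _
  have hl1 : ∀ x, Tendsto (fun k => F (u k * x) (v k)) (hyperfilter ℕ : Filter ℕ) (𝓝 (φ₁ x)) := by
    intro x
    rw [hφ₁]
    refine ul_tendsto (‖F‖ * ‖x‖) fun k => ?_
    refine (norm_bil_le F _ _).trans (mul_le_mul_of_nonneg_left ?_ (norm_nonneg F))
    calc ‖u k * x‖ * ‖v k‖ ≤ ‖x‖ * 1 := mul_le_mul (hmulL k x) (hvn k) (norm_nonneg _)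
          (norm_nonneg _)
      _ = ‖x‖ := mul_one _
  have hl2 : ∀ x, Tendsto (fun k => F (x * u k) (v k)) (hyperfilter ℕ : Filter ℕ) (𝓝 (φ₂ x)) := by
    intro x
    rw [hφ₂]
    refine ul_tendsto (‖F‖ * ‖x‖) fun k => ?_
    refine (norm_bil_le F _ _).trans (mul_le_mul_of_nonneg_left ?_ (norm_nonneg F))
    calc ‖x * u k‖ * ‖v k‖ ≤ ‖x‖ * 1 := mul_le_mul (hmulR k x) (hvn k) (norm_nonneg _)
          (norm_nonneg _)
      _ = ‖x‖ := mul_one _
  have hφ₁n : ∀ x, ‖φ₁ x‖ ≤ ‖F‖ * ‖x‖ := fun x =>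
    le_of_tendsto (hl1 x).norm (Eventually.of_forall fun k => by
      refine (norm_bil_le F _ _).trans (mul_le_mul_of_nonneg_left ?_ (norm_nonneg F))
      calc ‖u k * x‖ * ‖v k‖ ≤ ‖x‖ * 1 := mul_le_mul (hmulL k x) (hvn k) (norm_nonneg _)
            (norm_nonneg _)
        _ = ‖x‖ := mul_one _)
  have hφ₂n : ∀ x, ‖φ₂ x‖ ≤ ‖F‖ * ‖x‖ := fun x =>
    le_of_tendsto (hl2 x).norm (Eventually.of_forall fun k => by
      refine (norm_bil_le F _ _).trans (mul_le_mul_of_nonneg_left ?_ (norm_nonneg F))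
      calc ‖x * u k‖ * ‖v k‖ ≤ ‖x‖ * 1 := mul_le_mul (hmulR k x) (hvn k) (norm_nonneg _)
            (norm_nonneg _)
        _ = ‖x‖ := mul_one _)
  obtain ⟨p, hp⟩ : ∃ p : A → ℝ, ∀ X, p X = (φ₁ (star X * X) + φ₂ (X * star X)).re :=
    ⟨_, fun _ => rfl⟩
  -- the inequality in the limit
  have key : ∀ X Y, -(F X Y + G X Y).re ≤ 1 / 2 * p X + ‖F‖ * ‖Y‖ ^ 2 := by
    intro X Y
    refine le_of_forall_pos_le_add fun δ hδ => ?_
    have t1 : Tendsto (fun k => -(F X Y + (starRingEnd ℂ)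
        (F (u k * star X * u k) (v k * star Y * v k))).re) (hyperfilter ℕ : Filter ℕ)
        (𝓝 (-(F X Y + G X Y).re)) := by
      have h1 := (ul_tendsto _ fun k => hbound k X Y)
      rw [← hG] at h1
      exact ((Complex.continuous_re.tendsto _).comp (h1.const_add (F X Y))).neg
    have t2 : Tendsto (fun k => 1 / 2 * (F (u k * (star X * X)) (v k) +
        F (X * star X * u k) (v k)).re + ‖F‖ * ‖Y‖ ^ 2 + δ) (hyperfilter ℕ : Filter ℕ)
        (𝓝 (1 / 2 * p X + ‖F‖ * ‖Y‖ ^ 2 + δ)) := by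
      rw [hp]
      exact (((((Complex.continuous_re.tendsto _).comp ((hl1 (star X * X)).add
        (hl2 (X * star X))))).const_mul (1 / 2)).add_const _).add_const _
    refine le_of_tendsto_of_tendsto t1 t2 ?_
    have h3 := (bil_lim2 F hu hv hmax X Y δ hδ).filter_mono Nat.hyperfilter_le_atTop
    filter_upwards [h3] with k hk
    have h4 : (F (u k) (v k * (star Y * Y)) + F (u k) (Y * star Y * v k)).re ≤
        2 * (‖F‖ * ‖Y‖ ^ 2) := by
      refine (Complex.re_le_norm _).trans ((norm_add_le _ _).trans ?_)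
      have h5 : ‖F (u k) (v k * (star Y * Y))‖ ≤ ‖F‖ * ‖Y‖ ^ 2 := by
        refine (norm_bil_le F _ _).trans (mul_le_mul_of_nonneg_left ?_ (norm_nonneg F))
        calc ‖u k‖ * ‖v k * (star Y * Y)‖ ≤ 1 * ‖star Y * Y‖ :=
              mul_le_mul (hun k) (hmulL' k _) (norm_nonneg _) zero_le_one
          _ = ‖Y‖ ^ 2 := by rw [one_mul, CStarRing.norm_star_mul_self, pow_two]
      have h6 : ‖F (u k) (Y * star Y * v k)‖ ≤ ‖F‖ * ‖Y‖ ^ 2 := by
        refine (norm_bil_le F _ _).trans (mul_le_mul_of_nonneg_left ?_ (norm_nonneg F))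
        calc ‖u k‖ * ‖Y * star Y * v k‖ ≤ 1 * ‖Y * star Y‖ :=
              mul_le_mul (hun k) (hmulR' k _) (norm_nonneg _) zero_le_one
          _ = ‖Y‖ ^ 2 := by rw [one_mul, CStarRing.norm_self_mul_star, pow_two]
      linarith
    have h5 : (F X Y + (starRingEnd ℂ) (F (u k * star X * u k) (v k * star Y * v k))).re =
        (F X Y + F (u k * star X * u k) (v k * star Y * v k)).re := by
      rw [add_re, add_re, Complex.conj_re]
    rw [h5]
    linarith
  obtain ⟨D, hDd⟩ : ∃ D : A →L[ℂ] B →L[ℂ] ℂ, D = F + G := ⟨_, rfl⟩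
  have hD : ∀ X Y, D X Y = F X Y + G X Y := fun X Y => by rw [hDd]; rfl
  have key2 : ∀ X Y, -(D X Y).re ≤ 1 / 2 * p X + ‖F‖ * ‖Y‖ ^ 2 := fun X Y => by
    rw [hD]
    exact key X Y
  have hp0 : ∀ X, 0 ≤ p X := by
    intro X
    have h1 := key2 X 0
    rw [map_zero, Complex.zero_re, neg_zero, norm_zero] at h1
    have h2 : (0 : ℝ) ≤ 1 / 2 * p X := by simpa using h1
    linarith
  have hpc : ∀ (c : ℂ) (X : A), p (c • X) = ‖c‖ ^ 2 * p X := by
    intro c X
    have h1 : star (c • X) * (c • X) = ((‖c‖ ^ 2 : ℝ) : ℂ) • (star X * X) := by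
      rw [star_smul, smul_mul_smul_comm, Complex.star_def, ← Complex.normSq_eq_conj_mul_self,
        Complex.normSq_eq_norm_sq]
    have h2 : (c • X) * star (c • X) = ((‖c‖ ^ 2 : ℝ) : ℂ) • (X * star X) := by
      rw [star_smul, smul_mul_smul_comm, Complex.star_def, mul_comm c,
        ← Complex.normSq_eq_conj_mul_self, Complex.normSq_eq_norm_sq]
    rw [hp, hp, h1, h2, map_smul, map_smul, smul_eq_mul, smul_eq_mul, ← mul_add, re_ofReal_mul]
  have key3 : ∀ X Y, ‖D X Y‖ ≤ 1 / 2 * p X + ‖F‖ * ‖Y‖ ^ 2 := by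
    intro X Y
    obtain ⟨c, hc, hc2⟩ := exists_phase (D X Y)
    have h1 := key2 ((-c) • X) Y
    rw [map_smul, smul_apply, smul_eq_mul, neg_mul, hc2, neg_re, neg_neg, Complex.ofReal_re, hpc,
      norm_neg, hc, one_pow, one_mul] at h1
    exact h1
  have key4 : ∀ X Y, ‖D X Y‖ ^ 2 ≤ 4 * (1 / 2 * p X) * (‖F‖ * ‖Y‖ ^ 2) := by
    intro X Y
    refine scale_le (norm_nonneg _) (by linarith [hp0 X]) (by positivity) fun r hr => ?_
    have hsr : 0 < √r := Real.sqrt_pos.2 hr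
    have hsr2 : √r ^ 2 = r := Real.sq_sqrt hr.le
    have h1 := key3 ((√r : ℂ) • X) (((√r : ℂ)⁻¹) • Y)
    have hne : (√r : ℂ) ≠ 0 := by exact_mod_cast hsr.ne'
    rw [map_smul (D ((√r : ℂ) • X)), map_smul D, smul_apply, smul_smul, inv_mul_cancel₀ hne,
      one_smul, hpc, Complex.norm_real, Real.norm_of_nonneg hsr.le, hsr2, norm_smul, norm_inv, Complex.norm_real,
      Real.norm_of_nonneg hsr.le, mul_pow, inv_pow, hsr2] at h1
    calc ‖D X Y‖ ≤ 1 / 2 * (r * p X) + ‖F‖ * (r⁻¹ * ‖Y‖ ^ 2) := h1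
      _ = 1 / 2 * p X * r + ‖F‖ * ‖Y‖ ^ 2 / r := by ring
  -- the inner product
  obtain ⟨P, hP⟩ : ∃ P : A → A → ℂ, ∀ X X', P X X' = φ₁ (star X * X') + φ₂ (X' * star X) :=
    ⟨_, fun _ _ => rfl⟩
  obtain ⟨Q, hQ⟩ : ∃ Q : A → A → ℂ, ∀ X X', Q X X' =
      (1 / 2 : ℂ) * (P X X' + (starRingEnd ℂ) (P X' X)) := ⟨_, fun _ _ => rfl⟩
  have hQ1 : ∀ X X', (starRingEnd ℂ) (Q X' X) = Q X X' := by
    intro X X'
    rw [hQ, hQ, map_mul, map_add, Complex.conj_conj]
    have : (starRingEnd ℂ) (1 / 2 : ℂ) = 1 / 2 := by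
      rw [map_div₀, map_one, Complex.conj_ofNat]
    rw [this]
    ring
  have hQ2 : ∀ X, (Q X X).re = p X := by
    intro X
    rw [hQ, show (1 / 2 : ℂ) = ((1 / 2 : ℝ) : ℂ) by norm_num, re_ofReal_mul, add_re,
      Complex.conj_re, hP, hp]
    ring
  have hQ3 : ∀ X X' Z, Q (X + X') Z = Q X Z + Q X' Z := by
    intro X X' Z
    simp only [hQ, hP, star_add, add_mul, mul_add, map_add]
    ring
  have hQ4 : ∀ X X' (r : ℂ), Q (r • X) X' = (starRingEnd ℂ) r * Q X X' := by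
    intro X X' r
    simp only [hQ, hP, star_smul, smul_mul_assoc, mul_smul_comm, map_smul, smul_eq_mul, map_add,
      map_mul, Complex.star_def]
    ring
  let c : PreInnerProductSpace.Core ℂ (Syn A) :=
    { inner := Q
      conj_inner_symm := fun X X' => hQ1 X X'
      re_inner_nonneg := fun X => (hp0 X).trans_eq (hQ2 X).symm
      add_left := fun X X' Z => hQ3 X X' Z
      smul_left := fun X X' r => hQ4 X X' r }
  have hcin : ∀ X : A, (c.inner X X).re = p X := by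
    intro X
    exact hQ2 X
  have hF0 : 0 ≤ 2 * ‖F‖ := by positivity
  have hfin := vanish_core D c (√(2 * ‖F‖)) (√(2 * ‖F‖)) (Real.sqrt_nonneg _) (Real.sqrt_nonneg _)
    (fun X => by
      rw [hcin, Real.sq_sqrt hF0, hp, add_re]
      have h1 := (Complex.re_le_norm _).trans (hφ₁n (star X * X))
      have h2 := (Complex.re_le_norm _).trans (hφ₂n (X * star X))
      rw [CStarRing.norm_star_mul_self, ← pow_two] at h1
      rw [CStarRing.norm_self_mul_star, ← pow_two] at h2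
      linarith)
    (fun X Y => by
      rw [hcin]
      refine le_of_sq_le_sq ?_ (by positivity)
      refine (key4 X Y).trans (le_of_eq ?_)
      rw [mul_pow, mul_pow, Real.sq_sqrt hF0, Real.sq_sqrt (hp0 X)]
      ring) a b hab hN
  rw [← hfin]
  exact tsum_congr fun n => by rw [hD, hG]

end Pool.Agent.Helper60.GT
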