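import Pool.Agent.Helper60.GT.Pos

/-!
# Every functional is dominated by a positive one
-/

namespace Pool.Agent.Helper60.GT

open Filter Topology Complex
open scoped ComplexOrder

variable {A : Type*} [CStarAlgebra A]

theorem norm_unitary_le {u : A} (hu : u ∈ unitary A) : ‖u‖ ≤ 1 := by
  rcases subsingleton_or_nontrivial A with h | h
  · rw [Subsingleton.elim u 0, norm_zero]
    exact zero_le_one
  · exact (CStarRing.norm_of_mem_unitary hu).le

theorem smul_unitary {u : A} (hu : u ∈ unitary A) {c : ℂ} (hc : ‖c‖ = 1) : c • u ∈ unitary A := by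
  have h1 : (c • (1 : A)) ∈ unitary A := by
    rw [Unitary.mem_iff]
    have h2 : (starRingEnd ℂ) c * c = 1 := by
      rw [← Complex.normSq_eq_conj_mul_self, Complex.normSq_eq_norm_sq, hc]
      norm_num
    constructor
    · rw [star_smul, star_one, smul_mul_smul_comm, one_mul, Complex.star_def, h2, one_smul]
    · rw [star_smul, star_one, smul_mul_smul_comm, one_mul, Complex.star_def, mul_comm, h2, one_smul]
  have h2 := mul_mem h1 hu
  rwa [smul_mul_assoc, one_mul] at h2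

theorem exists_phase (z : ℂ) : ∃ c : ℂ, ‖c‖ = 1 ∧ c * z = (‖z‖ : ℂ) := by
  obtain ⟨c, hc, h⟩ := exists_norm_eq_mul_self z
  exact ⟨c, hc, h.symm⟩

/-- Near maximal unitaries of a functional. -/
theorem exists_near_max (f : A →L[ℂ] ℂ) : ∃ u : ℕ → A, (∀ n, u n ∈ unitary A) ∧
    ∀ n, ∀ w ∈ unitary A, (f w).re ≤ (f (u n)).re + 1 / ((n : ℝ) + 1) := by
  obtain ⟨S, hS⟩ : ∃ S : Set ℝ, S = {r | ∃ w ∈ unitary A, r = (f w).re} := ⟨_, rfl⟩
  have hne : S.Nonempty := ⟨(f 1).re, by rw [hS]; exact ⟨1, one_mem _, rfl⟩⟩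
  have hbdd : BddAbove S := by
    refine ⟨‖f‖, ?_⟩
    rw [hS]
    rintro r ⟨w, hw, rfl⟩
    refine (Complex.re_le_norm _).trans ((f.le_opNorm w).trans ?_)
    exact mul_le_of_le_one_right (norm_nonneg _) (norm_unitary_le hw)
  have h1 : ∀ n : ℕ, ∃ u ∈ unitary A, sSup S - 1 / ((n : ℝ) + 1) < (f u).re := by
    intro n
    obtain ⟨r, hr, hr2⟩ := exists_lt_of_lt_csSup hne
      (show sSup S - 1 / ((n : ℝ) + 1) < sSup S by
        have : (0 : ℝ) < 1 / ((n : ℝ) + 1) := by positivity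
        linarith)
    rw [hS] at hr
    obtain ⟨w, hw, rfl⟩ := hr
    exact ⟨w, hw, hr2⟩
  choose u hu hu2 using h1
  refine ⟨u, hu, fun n w hw => ?_⟩
  have h2 : (f w).re ≤ sSup S := le_csSup hbdd (by rw [hS]; exact ⟨w, hw, rfl⟩)
  linarith [hu2 n]

variable [PartialOrder A] [StarOrderedRing A]

theorem var_lin (f : A →L[ℂ] ℂ) {u : A} (hu : u ∈ unitary A) {ε : ℝ}
    (hmax : ∀ w ∈ unitary A, (f w).re ≤ (f u).re + ε) {h : A} (hh : IsSelfAdjoint h) {M : ℝ}
    (hM : ‖h‖ ≤ M) {t : ℝ} (ht : 0 < t) (htM : t * M ≤ 1) :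
    t * |(f (u * h)).im| ≤ ε + ‖f‖ * (t * M) ^ 2 ∧
      -(ε + ‖f‖ * (t * M) ^ 4 / 2) ≤ t ^ 2 / 2 * (f (u * (h * h))).re := by
  have hs : IsSelfAdjoint (t • h) := by
    rw [isSelfAdjoint_iff, star_smul, hh.star_eq]
    simp
  have hsn : ‖t • h‖ ≤ t * M := by
    rw [norm_smul, Real.norm_of_nonneg ht.le]
    exact mul_le_mul_of_nonneg_left hM ht.le
  have hM0 : 0 ≤ M := (norm_nonneg h).trans hM
  have htM0 : 0 ≤ t * M := mul_nonneg ht.le hM0
  obtain ⟨m, hm1, hm2, hm3, hm4⟩ := exists_cos hs (hsn.trans htM)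
  have hul := norm_unitary_le hu
  have e1 : ‖f (u * m)‖ ≤ ‖f‖ * (t * M) ^ 2 := by
    refine (f.le_opNorm _).trans (mul_le_mul_of_nonneg_left ?_ (norm_nonneg _))
    calc ‖u * m‖ ≤ ‖u‖ * ‖m‖ := norm_mul_le _ _
      _ ≤ 1 * (t * M) ^ 2 := by
          refine mul_le_mul hul (hm3.trans (pow_le_pow_left₀ (norm_nonneg _) hsn 2))
            (norm_nonneg _) zero_le_one
      _ = (t * M) ^ 2 := one_mul _
  have e2 : ‖f (u * m) - ((t ^ 2 / 2 : ℝ) : ℂ) * f (u * (h * h))‖ ≤ ‖f‖ * (t * M) ^ 4 / 2 := by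
    have e3 : f (u * m) - ((t ^ 2 / 2 : ℝ) : ℂ) * f (u * (h * h)) =
        f (u * (m - (1 / 2 : ℝ) • ((t • h) * (t • h)))) := by
      rw [mul_sub, map_sub]
      congr 1
      have e4 : u * ((1 / 2 : ℝ) • ((t • h) * (t • h))) =
          ((t ^ 2 / 2 : ℝ) : ℂ) • (u * (h * h)) := by
        rw [smul_mul_smul_comm, smul_smul, Complex.coe_smul, mul_smul_comm]
        congr 1
        ring
      rw [e4, map_smul, smul_eq_mul]
    rw [e3]
    refine (f.le_opNorm _).trans ?_
    rw [mul_div_assoc]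
    refine mul_le_mul_of_nonneg_left ?_ (norm_nonneg _)
    calc ‖u * (m - (1 / 2 : ℝ) • ((t • h) * (t • h)))‖ ≤
          ‖u‖ * ‖m - (1 / 2 : ℝ) • ((t • h) * (t • h))‖ := norm_mul_le _ _
      _ ≤ 1 * (‖t • h‖ ^ 4 / 2) := mul_le_mul hul hm4 (norm_nonneg _) zero_le_one
      _ ≤ (t * M) ^ 4 / 2 := by
          rw [one_mul]
          have := pow_le_pow_left₀ (norm_nonneg _) hsn 4
          linarith
  have e5 : f (u * ((1 - m) + I • (t • h))) = f u - f (u * m) + I * ((t : ℂ) * f (u * h)) := by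
    rw [mul_add, mul_sub, mul_one, map_add, map_sub, mul_smul_comm, map_smul, mul_smul_comm,
      ← Complex.coe_smul, map_smul, smul_eq_mul, smul_eq_mul]
  have e6 : f (u * ((1 - m) - I • (t • h))) = f u - f (u * m) - I * ((t : ℂ) * f (u * h)) := by
    rw [mul_sub, mul_sub, mul_one, map_sub, map_sub, mul_smul_comm, map_smul, mul_smul_comm,
      ← Complex.coe_smul, map_smul, smul_eq_mul, smul_eq_mul]
  have h1 := hmax _ (mul_mem hu hm1)
  have h2 := hmax _ (mul_mem hu hm2)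
  rw [e5] at h1
  rw [e6] at h2
  have e7 : (I * ((t : ℂ) * f (u * h))).re = -(t * (f (u * h)).im) := by
    simp
  rw [add_re, sub_re, e7] at h1
  rw [sub_re, sub_re, e7] at h2
  have h3 : (f (u * m)).re ≤ ‖f‖ * (t * M) ^ 2 := (Complex.re_le_norm _).trans e1
  constructor
  · have h4 : t * |(f (u * h)).im| = |t * (f (u * h)).im| := by
      rw [abs_mul, abs_of_pos ht]
    rw [h4, abs_le]
    constructor <;> linarith
  · have h5 := (abs_le.1 ((Complex.abs_re_le_norm _).trans e2)).2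
    rw [sub_re, re_ofReal_mul] at h5
    have h6 : -ε ≤ (f (u * m)).re := by linarith
    linarith

/-- Along near maximal unitaries the functional becomes hermitian and positive. -/
theorem lin_lim (f : A →L[ℂ] ℂ) {u : ℕ → A} (hu : ∀ n, u n ∈ unitary A)
    (hmax : ∀ n, ∀ w ∈ unitary A, (f w).re ≤ (f (u n)).re + 1 / ((n : ℝ) + 1)) (M : ℝ)
    (δ : ℝ) (hδ : 0 < δ) : ∀ᶠ n in atTop, ∀ h : A, IsSelfAdjoint h → ‖h‖ ≤ M →
      |(f (u n * h)).im| ≤ δ ∧ -δ ≤ (f (u n * (h * h))).re := by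
  obtain ⟨t, ht, ht1, ht2, ht3⟩ : ∃ t : ℝ, 0 < t ∧ t * M ≤ 1 ∧ ‖f‖ * t * M ^ 2 ≤ δ / 2 ∧
      ‖f‖ * t ^ 2 * M ^ 4 ≤ δ / 2 := by
    have c1 : Tendsto (fun t : ℝ => t * M) (𝓝[>] 0) (𝓝 0) := by
      have : Tendsto (fun t : ℝ => t * M) (𝓝 0) (𝓝 (0 * M)) := by
        exact (continuous_id.mul continuous_const).tendsto 0
      rw [zero_mul] at this
      exact this.mono_left nhdsWithin_le_nhds
    have c2 : Tendsto (fun t : ℝ => ‖f‖ * t * M ^ 2) (𝓝[>] 0) (𝓝 0) := by
      have : Tendsto (fun t : ℝ => ‖f‖ * t * M ^ 2) (𝓝 0) (𝓝 (‖f‖ * 0 * M ^ 2)) := by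
        exact ((continuous_const.mul continuous_id).mul continuous_const).tendsto 0
      rw [mul_zero, zero_mul] at this
      exact this.mono_left nhdsWithin_le_nhds
    have c3 : Tendsto (fun t : ℝ => ‖f‖ * t ^ 2 * M ^ 4) (𝓝[>] 0) (𝓝 0) := by
      have : Tendsto (fun t : ℝ => ‖f‖ * t ^ 2 * M ^ 4) (𝓝 0) (𝓝 (‖f‖ * 0 ^ 2 * M ^ 4)) := by
        exact ((continuous_const.mul (continuous_id.pow 2)).mul continuous_const).tendsto 0
      rw [zero_pow two_ne_zero, mul_zero, zero_mul] at this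
      exact this.mono_left nhdsWithin_le_nhds
    have c4 := (c1.eventually (ge_mem_nhds zero_lt_one)).and ((c2.eventually (ge_mem_nhds
      (half_pos hδ))).and ((c3.eventually (ge_mem_nhds (half_pos hδ))).and self_mem_nhdsWithin))
    obtain ⟨t, h1, h2, h3, h4⟩ := c4.exists
    exact ⟨t, h4, h1, h2, h3⟩
  have hε : ∀ᶠ n : ℕ in atTop, 1 / ((n : ℝ) + 1) ≤ min (t * (δ / 2)) (t ^ 2 / 2 * (δ / 2)) :=
    tendsto_one_div_add_atTop_nhds_zero_nat.eventually (ge_mem_nhds (by positivity))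
  filter_upwards [hε] with n hn h hh hhM
  obtain ⟨h1, h2⟩ := var_lin f (hu n) (hmax n) hh hhM ht ht1
  have h3 := hn.trans (min_le_left _ _)
  have h4 := hn.trans (min_le_right _ _)
  constructor
  · have h5 : t * |(f (u n * h)).im| ≤ t * δ := by
      have : ‖f‖ * (t * M) ^ 2 ≤ t * (δ / 2) := by
        calc ‖f‖ * (t * M) ^ 2 = t * (‖f‖ * t * M ^ 2) := by ring
          _ ≤ t * (δ / 2) := mul_le_mul_of_nonneg_left ht2 ht.le
      nlinarith
    exact le_of_mul_le_mul_left h5 ht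
  · have h5 : t ^ 2 / 2 * (-δ) ≤ t ^ 2 / 2 * (f (u n * (h * h))).re := by
      have : ‖f‖ * (t * M) ^ 4 / 2 ≤ t ^ 2 / 2 * (δ / 2) := by
        calc ‖f‖ * (t * M) ^ 4 / 2 = t ^ 2 / 2 * (‖f‖ * t ^ 2 * M ^ 4) := by ring
          _ ≤ t ^ 2 / 2 * (δ / 2) := mul_le_mul_of_nonneg_left ht3 (by positivity)
      nlinarith
    exact le_of_mul_le_mul_left h5 (by positivity)

theorem dom_left (f : A →L[ℂ] ℂ) : ∃ ω : A →L[ℂ] ℂ, Pos ω ∧
    ∀ x, ‖f x‖ ^ 2 ≤ (ω (star x * x)).re := by
  obtain ⟨u, hu, hmax⟩ := exists_near_max f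
  obtain ⟨ω₁, hω₁⟩ := exists_ulCLM (fun n => f.comp (ContinuousLinearMap.mul ℂ A (u n))) ‖f‖
    (fun n x => by
      rw [ContinuousLinearMap.comp_apply, ContinuousLinearMap.mul_apply']
      refine (f.le_opNorm _).trans (mul_le_mul_of_nonneg_left ?_ (norm_nonneg _))
      refine (norm_mul_le _ _).trans ?_
      exact mul_le_of_le_one_left (norm_nonneg _) (norm_unitary_le (hu n)))
  have hlim : ∀ x, Tendsto (fun n => f (u n * x)) (hyperfilter ℕ : Filter ℕ) (𝓝 (ω₁ x)) := by
    intro x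
    rw [hω₁]
    refine ul_tendsto (‖f‖ * ‖x‖) fun n => ?_
    refine (f.le_opNorm _).trans (mul_le_mul_of_nonneg_left ?_ (norm_nonneg _))
    refine (norm_mul_le _ _).trans ?_
    exact mul_le_of_le_one_left (norm_nonneg _) (norm_unitary_le (hu n))
  have hone : ‖(1 : A)‖ ≤ 1 := norm_unitary_le (one_mem _)
  -- the key inequality
  have key : ∀ (x : A) (l : ℂ), 0 ≤ ‖l‖ ^ 2 * ‖f‖ + 2 * ((starRingEnd ℂ) l * f x).re +
      (ω₁ (star x * x)).re := by
    intro x l
    refine le_of_forall_pos_le_add fun η hη => ?_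
    obtain ⟨δ, hδd⟩ : ∃ δ, δ = η / (1 + 4 * ‖l‖) := ⟨_, rfl⟩
    have hδ : 0 < δ := by rw [hδd]; positivity
    have hδη : δ + 4 * ‖l‖ * δ = η := by
      rw [hδd]
      field_simp
    have h1 := ((Complex.continuous_re.tendsto _).comp (hlim (star x * x))).const_add
      (‖l‖ ^ 2 * ‖f‖ + 2 * ((starRingEnd ℂ) l * f x).re)
    have h2 : ∀ᶠ n in (hyperfilter ℕ : Filter ℕ), -η ≤ ‖l‖ ^ 2 * ‖f‖ +
        2 * ((starRingEnd ℂ) l * f x).re + (Complex.re ∘ fun n => f (u n * (star x * x))) n := by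
      have h3 := (lin_lim f hu hmax (‖l‖ + ‖x‖) δ hδ).filter_mono Nat.hyperfilter_le_atTop
      filter_upwards [h3] with n hn
      obtain ⟨z, hz⟩ : ∃ z, z = star (u n) * x := ⟨_, rfl⟩
      have huu : u n * star (u n) = 1 := Unitary.mul_star_self_of_mem (hu n)
      have huz : u n * z = x := by rw [hz, ← mul_assoc, huu, one_mul]
      have hzz : star z * z = star x * x := by
        rw [hz, star_mul, star_star, mul_assoc, ← mul_assoc (u n), huu, one_mul]
      have hzn : ‖z‖ ≤ ‖x‖ := by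
        rw [hz]
        refine (norm_mul_le _ _).trans ?_
        exact mul_le_of_le_one_left (norm_nonneg _) (norm_unitary_le (Unitary.star_mem (hu n)))
      obtain ⟨w, hw⟩ : ∃ w, w = l • (1 : A) + z := ⟨_, rfl⟩
      have hwn : ‖w‖ ≤ ‖l‖ + ‖x‖ := by
        rw [hw]
        refine (norm_add_le _ _).trans (add_le_add ?_ hzn)
        rw [norm_smul]
        exact mul_le_of_le_one_right (norm_nonneg _) hone
      have hp : 0 ≤ star w * w := star_mul_self_nonneg w
      obtain ⟨h, hh⟩ : ∃ h, h = CFC.sqrt (star w * w) := ⟨_, rfl⟩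
      have hh0 : 0 ≤ h := by rw [hh]; exact CFC.sqrt_nonneg _
      have hhh : h * h = star w * w := by rw [hh]; exact CFC.sqrt_mul_sqrt_self _ hp
      have hhn : ‖h‖ ≤ ‖l‖ + ‖x‖ := by
        have h4 : ‖h‖ ^ 2 = ‖w‖ ^ 2 := by
          rw [← hh0.isSelfAdjoint.norm_mul_self, hhh, CStarRing.norm_star_mul_self, pow_two]
        have h5 : ‖h‖ = ‖w‖ := by
          rwa [sq_eq_sq₀ (norm_nonneg _) (norm_nonneg _)] at h4
        rw [h5]
        exact hwn
      have h6 := (hn h hh0.isSelfAdjoint hhn).2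
      rw [hhh] at h6
      have h7 : star w * w = ((starRingEnd ℂ) l * l) • (1 : A) + (starRingEnd ℂ) l • z +
          l • star z + star z * z := by
        rw [hw]
        simp only [star_add, star_smul, star_one, add_mul, mul_add, smul_mul_assoc,
          mul_smul_comm, one_mul, mul_one, Complex.star_def]
        module
      rw [h7, hzz, mul_add, mul_add, mul_add, mul_smul_comm, mul_smul_comm, mul_smul_comm, mul_one,
        huz, map_add, map_add, map_add, map_smul, map_smul, map_smul] at h6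
      -- real and imaginary parts
      have hr := (hn (realPart z : A) (realPart z).2
        ((realPart.norm_le z).trans (hzn.trans (by linarith [norm_nonneg l])))).1
      have hi := (hn (imaginaryPart z : A) (imaginaryPart z).2
        ((imaginaryPart.norm_le z).trans (hzn.trans (by linarith [norm_nonneg l])))).1
      obtain ⟨p, hp1⟩ : ∃ p, p = f (u n * (realPart z : A)) := ⟨_, rfl⟩
      obtain ⟨q, hq1⟩ : ∃ q, q = f (u n * (imaginaryPart z : A)) := ⟨_, rfl⟩
      have h8 : f x = p + I * q := by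
        rw [← huz]
        nth_rewrite 1 [← realPart_add_I_smul_imaginaryPart z]
        rw [mul_add, mul_smul_comm, map_add, map_smul, smul_eq_mul, hp1, hq1]
      have h9 : f (u n * star z) = p - I * q := by
        nth_rewrite 1 [← realPart_add_I_smul_imaginaryPart z]
        rw [star_add, star_smul, (realPart z).2.star_eq, (imaginaryPart z).2.star_eq, mul_add,
          mul_smul_comm, map_add, map_smul, smul_eq_mul, hp1, hq1, Complex.star_def, Complex.conj_I]
        ring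
      have h10 : ((starRingEnd ℂ) l • f x + l • f (u n * star z)).re ≤
          2 * ((starRingEnd ℂ) l * f x).re + 4 * ‖l‖ * δ := by
        have h11 : (starRingEnd ℂ) l • f x + l • f (u n * star z) =
            (starRingEnd ℂ) l * f x + l * (starRingEnd ℂ) (f x) +
              l * (f (u n * star z) - (starRingEnd ℂ) (f x)) := by
          rw [smul_eq_mul, smul_eq_mul]
          ring
        have h12 : (l * (starRingEnd ℂ) (f x)).re = ((starRingEnd ℂ) l * f x).re := by
          simp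
        have h13 : f (u n * star z) - (starRingEnd ℂ) (f x) =
            (2 * p.im * I : ℂ) + (2 * q.im : ℂ) := by
          rw [h9, h8]
          apply Complex.ext <;> simp <;> ring
        have h14 : ‖f (u n * star z) - (starRingEnd ℂ) (f x)‖ ≤ 4 * δ := by
          rw [h13]
          refine (norm_add_le _ _).trans ?_
          rw [norm_mul, norm_mul, norm_mul, Complex.norm_I, Complex.norm_real, Complex.norm_real,
            Complex.norm_two, Real.norm_eq_abs, Real.norm_eq_abs, hp1, hq1]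
          linarith
        rw [h11, add_re, add_re, h12]
        have h15 : (l * (f (u n * star z) - (starRingEnd ℂ) (f x))).re ≤ ‖l‖ * (4 * δ) := by
          refine (Complex.re_le_norm _).trans ?_
          rw [norm_mul]
          exact mul_le_mul_of_nonneg_left h14 (norm_nonneg _)
        linarith
      have h16 : (((starRingEnd ℂ) l * l) • f (u n)).re ≤ ‖l‖ ^ 2 * ‖f‖ := by
        rw [← Complex.normSq_eq_conj_mul_self, Complex.normSq_eq_norm_sq, smul_eq_mul,
          re_ofReal_mul]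
        refine mul_le_mul_of_nonneg_left ?_ (by positivity)
        refine (Complex.re_le_norm _).trans ((f.le_opNorm _).trans ?_)
        exact mul_le_of_le_one_right (norm_nonneg _) (norm_unitary_le (hu n))
      rw [add_re, add_assoc (((starRingEnd ℂ) l * l) • f (u n)), add_re] at h6
      simp only [Function.comp]
      linarith
    have h3 := ge_of_tendsto h1 h2
    linarith
  have hpos : Pos ω₁ := by
    intro x
    rw [Complex.nonneg_iff]
    constructor
    · have := key x 0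
      simpa using this
    · have hsa : IsSelfAdjoint (star x * x) := IsSelfAdjoint.star_mul_self x
      have h1 : Tendsto (fun n => (f (u n * (star x * x))).im) (hyperfilter ℕ : Filter ℕ) (𝓝 0) := by
        rw [Metric.tendsto_nhds]
        intro δ hδ
        have h3 := (lin_lim f hu hmax ‖star x * x‖ (δ / 2) (half_pos hδ)).filter_mono
          Nat.hyperfilter_le_atTop
        filter_upwards [h3] with n hn
        rw [Real.dist_eq, sub_zero]
        exact ((hn _ hsa le_rfl).1).trans_lt (half_lt_self hδ)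
      have h2 := (Complex.continuous_im.tendsto _).comp (hlim (star x * x))
      exact tendsto_nhds_unique h1 h2
  have hR : 0 < ‖f‖ + 1 := by positivity
  refine ⟨((‖f‖ + 1 : ℝ) : ℂ) • ω₁, hpos.smul hR.le, fun x => ?_⟩
  have h1 := key x (-(((‖f‖ + 1 : ℝ) : ℂ)⁻¹ * f x))
  rw [smul_apply, smul_eq_mul, re_ofReal_mul]
  have h2 : ‖-(((‖f‖ + 1 : ℝ) : ℂ)⁻¹ * f x)‖ ^ 2 * ‖f‖ ≤ ‖f x‖ ^ 2 / (‖f‖ + 1) := by
    rw [norm_neg, norm_mul, norm_inv, Complex.norm_real, Real.norm_of_nonneg hR.le]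
    have h3 : ((‖f‖ + 1)⁻¹ * ‖f x‖) ^ 2 * ‖f‖ = ‖f x‖ ^ 2 / (‖f‖ + 1) * (‖f‖ / (‖f‖ + 1)) := by
      field_simp
    rw [h3]
    refine mul_le_of_le_one_right (by positivity) ?_
    rw [div_le_one hR]
    linarith
  have h4 : ((starRingEnd ℂ) (-(((‖f‖ + 1 : ℝ) : ℂ)⁻¹ * f x)) * f x).re =
      -(‖f x‖ ^ 2 / (‖f‖ + 1)) := by
    rw [map_neg, map_mul, map_inv₀, Complex.conj_ofReal, neg_mul, mul_assoc,
      ← Complex.normSq_eq_conj_mul_self, Complex.normSq_eq_norm_sq, ← Complex.ofReal_inv,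
      ← Complex.ofReal_mul, neg_re, ofReal_re]
    ring
  rw [h4] at h1
  have h5 : ‖f x‖ ^ 2 / (‖f‖ + 1) ≤ (ω₁ (star x * x)).re := by linarith
  rw [div_le_iff₀ hR] at h5
  linarith

omit [PartialOrder A] [StarOrderedRing A] in
/-- The functional `x ↦ conj (f (star x))`. -/
theorem exists_fstar (f : A →L[ℂ] ℂ) : ∃ g : A →L[ℂ] ℂ, ∀ x, g x = (starRingEnd ℂ) (f (star x)) :=
  ⟨LinearMap.mkContinuous
    { toFun := fun x => (starRingEnd ℂ) (f (star x))
      map_add' := fun x y => by rw [star_add, map_add, map_add]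
      map_smul' := fun c x => by
        rw [star_smul, map_smul, smul_eq_mul, map_mul, Complex.star_def, Complex.conj_conj]
        rfl } ‖f‖ fun x => by
      show ‖(starRingEnd ℂ) (f (star x))‖ ≤ _
      rw [RCLike.norm_conj, ← norm_star x]
      exact f.le_opNorm _, fun x => rfl⟩

theorem dom (f : A →L[ℂ] ℂ) : ∃ ω : A →L[ℂ] ℂ, Pos ω ∧
    (∀ x, ‖f x‖ ^ 2 ≤ (ω (star x * x)).re) ∧ ∀ x, ‖f x‖ ^ 2 ≤ (ω (x * star x)).re := by
  obtain ⟨ω₁, h1, h2⟩ := dom_left f
  obtain ⟨g, hg⟩ := exists_fstar f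
  obtain ⟨ω₂, h3, h4⟩ := dom_left g
  refine ⟨ω₁ + ω₂, h1.add h3, fun x => ?_, fun x => ?_⟩
  · rw [add_apply, add_re]
    have := (Complex.nonneg_iff.1 (h3 x)).1
    linarith [h2 x]
  · rw [add_apply, add_re]
    have h5 := h4 (star x)
    rw [hg, star_star, RCLike.norm_conj] at h5
    have h6 := (Complex.nonneg_iff.1 (h1 (star x))).1
    rw [star_star] at h6
    linarith

end Pool.Agent.Helper60.GT
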