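import Pool.Agent.Helper60.GT.DForm

/-!
# Estimates for unitaries close to scalars
-/

namespace Pool.Agent.Helper60.GT

open Filter Topology Complex
open scoped ComplexOrder

variable {A B : Type*} [CStarAlgebra A] [CStarAlgebra B]
  [PartialOrder A] [StarOrderedRing A] [PartialOrder B] [StarOrderedRing B]

omit [PartialOrder A] [StarOrderedRing A] in
theorem Pos.re_nonneg {φ : A →L[ℂ] ℂ} (h : Pos φ) (x : A) : 0 ≤ (φ (star x * x)).re :=
  (Complex.nonneg_iff.1 (h x)).1

omit [PartialOrder A] [StarOrderedRing A] in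
theorem Pos.re_nonneg' {φ : A →L[ℂ] ℂ} (h : Pos φ) (x : A) : 0 ≤ (φ (x * star x)).re := by
  have := h.re_nonneg (star x)
  rwa [star_star] at this

omit [PartialOrder A] [StarOrderedRing A] in
theorem Pos.one_re {φ : A →L[ℂ] ℂ} (h : Pos φ) : 0 ≤ (φ 1).re := by
  have := h.re_nonneg 1
  rwa [star_one, one_mul] at this

omit [PartialOrder A] [StarOrderedRing A] in
theorem re_smul_real (φ : A →L[ℂ] ℂ) (r : ℝ) (x : A) : (φ (r • x)).re = r * (φ x).re := by
  rw [← Complex.coe_smul, map_smul, smul_eq_mul, re_ofReal_mul]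

/-- `φ (d* p d) ≤ ‖p‖ φ (d* d)`. -/
theorem Pos.conj_le {φ : A →L[ℂ] ℂ} (h : Pos φ) {p : A} (hp : 0 ≤ p) (d : A) :
    (φ (star d * p * d)).re ≤ ‖p‖ * (φ (star d * d)).re := by
  have h1 : star d * p * d ≤ ‖p‖ • (star d * d) :=
    CStarAlgebra.star_left_conjugate_le_norm_smul (hb := hp.isSelfAdjoint)
  have h2 := h.mono h1
  rwa [re_smul_real] at h2

/-- `φ (d p d*) ≤ ‖p‖ φ (d d*)`. -/
theorem Pos.conj_le' {φ : A →L[ℂ] ℂ} (h : Pos φ) {p : A} (hp : 0 ≤ p) (d : A) :
    (φ (d * p * star d)).re ≤ ‖p‖ * (φ (d * star d)).re := by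
  have := h.conj_le hp (star d)
  rwa [star_star] at this

theorem pos_dev {Φ : A →L[ℂ] ℂ} (hΦ : Pos Φ) (h0 : 0 < (Φ 1).re) {x : A} (hx : x ∈ unitary A)
    {α : ℂ} (hα : Φ x = (Φ 1).re * α) {d : A} (hd : d = x - α • 1) :
    ‖α‖ ≤ 1 ∧ (Φ (star d * d)).re = (Φ 1).re * (1 - ‖α‖ ^ 2) ∧
      (Φ (d * star d)).re = (Φ 1).re * (1 - ‖α‖ ^ 2) := by
  obtain ⟨τ, hτ⟩ : ∃ τ, τ = (Φ 1).re := ⟨_, rfl⟩
  have hΦ1 : Φ 1 = (τ : ℂ) := by
    apply Complex.ext
    · rw [hτ, ofReal_re]
    · rw [ofReal_im, hΦ.im_eq_zero (IsSelfAdjoint.one A)]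
  rw [← hτ] at h0 hα ⊢
  have hxx : star x * x = 1 := Unitary.star_mul_self_of_mem hx
  have hxx' : x * star x = 1 := Unitary.mul_star_self_of_mem hx
  have h1 : ‖α‖ ≤ 1 := by
    have h2 := hΦ.cs x
    rw [hα, hxx, ← hτ, norm_mul, Complex.norm_real, Real.norm_of_nonneg h0.le] at h2
    have h3 : ‖α‖ ^ 2 ≤ 1 := by
      by_contra hne
      push Not at hne
      nlinarith [mul_pos h0 h0]
    nlinarith [norm_nonneg α]
  have hxs : Φ (star x) = τ * (starRingEnd ℂ) α := by
    rw [hΦ.map_star, hα, Complex.star_def, map_mul, Complex.conj_ofReal]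
  have hαα : (starRingEnd ℂ) α * α = ((‖α‖ ^ 2 : ℝ) : ℂ) := by
    rw [← Complex.normSq_eq_conj_mul_self, Complex.normSq_eq_norm_sq]
  have e1 : star d * d = 1 - α • star x - (starRingEnd ℂ) α • x + ((starRingEnd ℂ) α * α) • 1 := by
    rw [hd]
    simp only [star_sub, star_smul, star_one, sub_mul, mul_sub, smul_mul_assoc, mul_smul_comm,
      one_mul, mul_one, Complex.star_def, hxx]
    module
  have e2 : d * star d = 1 - α • star x - (starRingEnd ℂ) α • x + ((starRingEnd ℂ) α * α) • 1 := by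
    rw [hd]
    simp only [star_sub, star_smul, star_one, sub_mul, mul_sub, smul_mul_assoc, mul_smul_comm,
      one_mul, mul_one, Complex.star_def, hxx']
    module
  have e3 : Φ (1 - α • star x - (starRingEnd ℂ) α • x + ((starRingEnd ℂ) α * α) • 1) =
      ((τ * (1 - ‖α‖ ^ 2) : ℝ) : ℂ) := by
    rw [map_add, map_sub, map_sub, map_smul, map_smul, map_smul, hΦ1, hα, hxs, smul_eq_mul,
      smul_eq_mul, smul_eq_mul, hαα]
    have e4 : α * ((τ : ℂ) * (starRingEnd ℂ) α) = (τ : ℂ) * ((starRingEnd ℂ) α * α) := by ring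
    have e5 : (starRingEnd ℂ) α * ((τ : ℂ) * α) = (τ : ℂ) * ((starRingEnd ℂ) α * α) := by ring
    rw [e4, e5, hαα]
    push_cast
    ring
  refine ⟨h1, ?_, ?_⟩
  · rw [e1, e3, ofReal_re]
  · rw [e2, e3, ofReal_re]

omit [PartialOrder A] [StarOrderedRing A] in
theorem norm_dev_le {x : A} (hx : x ∈ unitary A) {α : ℂ} (hα : ‖α‖ ≤ 1) {d : A}
    (hd : d = x - α • 1) : ‖d‖ ≤ 2 := by
  rw [hd]
  refine (norm_sub_le _ _).trans ?_
  rw [norm_smul]
  have h1 := norm_unitary_le hx
  have h2 : ‖α‖ * ‖(1 : A)‖ ≤ 1 := mul_le_one₀ hα (norm_nonneg _) (norm_unitary_le (one_mem _))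
  linarith

omit [PartialOrder A] [StarOrderedRing A] [PartialOrder B] [StarOrderedRing B] in
theorem scaled (V : A →L[ℂ] B →L[ℂ] ℂ) {η : ℝ} {ω : A →L[ℂ] ℂ}
    (hJ : ∀ x : A, ‖x‖ ≤ 1 → (ω (star x * x)).re + (ω (x * star x)).re ≤ 1 → ‖V x‖ ≤ η)
    {L : ℝ} (hL : 1 ≤ L) {T : A} (hT : ‖T‖ ≤ L)
    (h : (ω (star T * T)).re + (ω (T * star T)).re ≤ 1) : ‖V T‖ ≤ L * η := by
  have hL0 : 0 < L := by linarith
  have h1 := hJ (L⁻¹ • T) (by
    rw [norm_smul, norm_inv, Real.norm_of_nonneg hL0.le, inv_mul_le_iff₀ hL0, mul_one]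
    exact hT) (by
    rw [star_smul, star_trivial, smul_mul_smul_comm, smul_mul_smul_comm, re_smul_real,
      re_smul_real, ← mul_add]
    have h2 : L⁻¹ * L⁻¹ ≤ 1 := by
      have : L⁻¹ ≤ 1 := inv_le_one_of_one_le₀ hL
      exact mul_le_one₀ this (by positivity) this
    by_cases h3 : 0 ≤ (ω (star T * T)).re + (ω (T * star T)).re
    · exact (mul_le_of_le_one_left h3 h2).trans h
    · push Not at h3
      have h4 : L⁻¹ * L⁻¹ * ((ω (star T * T)).re + (ω (T * star T)).re) ≤ 0 :=
        mul_nonpos_of_nonneg_of_nonpos (by positivity) h3.le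
      linarith)
  rw [← Complex.coe_smul, map_smul, norm_smul, Complex.norm_real, norm_inv,
    Real.norm_of_nonneg hL0.le, inv_mul_le_iff₀ hL0] at h1
  exact h1

omit [PartialOrder B] [StarOrderedRing B] in
theorem est_A (V : A →L[ℂ] B →L[ℂ] ℂ) {η : ℝ} {ω : A →L[ℂ] ℂ} (hω : Pos ω)
    (hJ : ∀ x : A, ‖x‖ ≤ 1 → (ω (star x * x)).re + (ω (x * star x)).re ≤ 1 → ‖V x‖ ≤ η)
    {a : A} {M : ℝ} (hM : 1 ≤ M) (ha : ‖a‖ ≤ M) {x : A} (hx : x ∈ unitary A) {α : ℂ}
    (hα : ‖α‖ ≤ 1) {d : A} (hd : d = x - α • 1) {s : ℝ} (hs : 8 * M ^ 2 * s ≤ 1)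
    (h1 : (ω (star d * d)).re ≤ s) (h2 : (ω (d * star d)).re ≤ s)
    (h3 : (ω (a * (star d * d) * star a)).re ≤ s) (h4 : (ω (star a * (d * star d) * a)).re ≤ s) :
    ‖V (x * star a * x - (α ^ 2) • star a)‖ ≤ 12 * M * η := by
  have hd2 := norm_dev_le hx hα hd
  have hs0 : 0 ≤ s := (hω.re_nonneg d).trans h1
  have hM2 : 1 ≤ M ^ 2 := by nlinarith
  have hαα : ‖α‖ ^ 2 ≤ 1 := by nlinarith [norm_nonneg α]
  have hMs : 0 ≤ M ^ 2 * s := by positivity
  have hsM : s ≤ M ^ 2 * s := le_mul_of_one_le_left hs0 hM2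
  have hL : 1 ≤ 4 * M := by linarith
  have haa0 : 0 ≤ a * star a := mul_star_self_nonneg a
  have haa0' : 0 ≤ star a * a := star_mul_self_nonneg a
  have haan : ‖a * star a‖ ≤ M ^ 2 := by
    rw [CStarRing.norm_self_mul_star]
    nlinarith [norm_nonneg a]
  have haan' : ‖star a * a‖ ≤ M ^ 2 := by
    rw [CStarRing.norm_star_mul_self]
    nlinarith [norm_nonneg a]
  have hsc : ∀ T : A, star (α • T) * (α • T) = (‖α‖ ^ 2 : ℝ) • (star T * T) ∧
      (α • T) * star (α • T) = (‖α‖ ^ 2 : ℝ) • (T * star T) := by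
    intro T
    rw [star_smul, smul_mul_smul_comm, smul_mul_smul_comm, Complex.star_def, mul_comm α,
      ← Complex.normSq_eq_conj_mul_self, Complex.normSq_eq_norm_sq, Complex.coe_smul,
      Complex.coe_smul]
    exact ⟨rfl, rfl⟩
  have hscl : ∀ T : A, (ω (star T * T)).re + (ω (T * star T)).re ≤ 1 →
      (ω (star (α • T) * (α • T))).re + (ω ((α • T) * star (α • T))).re ≤ 1 := by
    intro T hT
    rw [(hsc T).1, (hsc T).2, re_smul_real, re_smul_real, ← mul_add]
    exact (mul_le_of_le_one_left (add_nonneg (hω.re_nonneg T) (hω.re_nonneg' T)) hαα).trans hT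
  have hαn : ∀ T : A, ‖T‖ ≤ 4 * M → ‖α • T‖ ≤ 4 * M := by
    intro T hT
    rw [norm_smul]
    exact (mul_le_of_le_one_left (norm_nonneg _) hα).trans hT
  -- first term
  have t1 : ‖V (α • (d * star a))‖ ≤ 4 * M * η := by
    refine scaled V hJ hL (hαn _ ?_) (hscl _ ?_)
    · refine (norm_mul_le _ _).trans ?_
      rw [norm_star]
      nlinarith [norm_nonneg d, norm_nonneg a]
    · have e1 : star (d * star a) * (d * star a) = a * (star d * d) * star a := by
        rw [star_mul, star_star]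
        simp only [mul_assoc]
      have e2 : (d * star a) * star (d * star a) = d * (star a * a) * star d := by
        rw [star_mul, star_star]
        simp only [mul_assoc]
      rw [e1, e2]
      have h5 := hω.conj_le' haa0' d
      have h6 : ‖star a * a‖ * (ω (d * star d)).re ≤ M ^ 2 * s :=
        mul_le_mul haan' h2 (hω.re_nonneg' d) (by positivity)
      linarith
  have t2 : ‖V (α • (star a * d))‖ ≤ 4 * M * η := by
    refine scaled V hJ hL (hαn _ ?_) (hscl _ ?_)
    · refine (norm_mul_le _ _).trans ?_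
      rw [norm_star]
      nlinarith [norm_nonneg d, norm_nonneg a]
    · have e1 : star (star a * d) * (star a * d) = star d * (a * star a) * d := by
        rw [star_mul, star_star]
        simp only [mul_assoc]
      have e2 : (star a * d) * star (star a * d) = star a * (d * star d) * a := by
        rw [star_mul, star_star]
        simp only [mul_assoc]
      rw [e1, e2]
      have h5 := hω.conj_le haa0 d
      have h6 : ‖a * star a‖ * (ω (star d * d)).re ≤ M ^ 2 * s :=
        mul_le_mul haan h1 (hω.re_nonneg d) (by positivity)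
      linarith
  have t3 : ‖V (d * star a * d)‖ ≤ 4 * M * η := by
    have hda : ‖d * star a‖ ≤ 2 * M := by
      refine (norm_mul_le _ _).trans ?_
      rw [norm_star]
      exact mul_le_mul hd2 ha (norm_nonneg _) zero_le_two
    have had : ‖star a * d‖ ≤ 2 * M := by
      refine (norm_mul_le _ _).trans ?_
      rw [norm_star, mul_comm]
      exact mul_le_mul hd2 ha (norm_nonneg _) zero_le_two
    refine scaled V hJ hL ?_ ?_
    · refine (norm_mul_le _ _).trans ?_
      calc ‖d * star a‖ * ‖d‖ ≤ 2 * M * 2 := mul_le_mul hda hd2 (norm_nonneg _) (by linarith)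
        _ = 4 * M := by ring
    · have e1 : star (d * star a * d) * (d * star a * d) =
          star d * (star (d * star a) * (d * star a)) * d := by
        rw [star_mul]
        simp only [mul_assoc]
      have e2 : (d * star a * d) * star (d * star a * d) =
          d * ((star a * d) * star (star a * d)) * star d := by
        simp only [star_mul, star_star, mul_assoc]
      rw [e1, e2]
      have h5 := hω.conj_le (star_mul_self_nonneg (d * star a)) d
      have h6 := hω.conj_le' (mul_star_self_nonneg (star a * d)) d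
      have h7 : ‖star (d * star a) * (d * star a)‖ ≤ 4 * M ^ 2 := by
        rw [CStarRing.norm_star_mul_self]
        nlinarith [norm_nonneg (d * star a)]
      have h8 : ‖(star a * d) * star (star a * d)‖ ≤ 4 * M ^ 2 := by
        rw [CStarRing.norm_self_mul_star]
        nlinarith [norm_nonneg (star a * d)]
      have h9 : ‖star (d * star a) * (d * star a)‖ * (ω (star d * d)).re ≤ 4 * M ^ 2 * s :=
        mul_le_mul h7 h1 (hω.re_nonneg d) (by positivity)
      have h10 : ‖(star a * d) * star (star a * d)‖ * (ω (d * star d)).re ≤ 4 * M ^ 2 * s :=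
        mul_le_mul h8 h2 (hω.re_nonneg' d) (by positivity)
      linarith
  have hxd : x = α • 1 + d := by rw [hd]; abel
  have e0 : x * star a * x - (α ^ 2) • star a =
      α • (d * star a) + α • (star a * d) + d * star a * d := by
    rw [hxd]
    simp only [add_mul, mul_add, smul_mul_assoc, mul_smul_comm, one_mul, mul_one, pow_two]
    module
  rw [e0, map_add, map_add]
  refine (norm_add_le _ _).trans ?_
  have := norm_add_le (V (α • (d * star a))) (V (α • (star a * d)))
  linarith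

theorem est_B {f ω : A →L[ℂ] ℂ} (hω : Pos ω) (hf1 : ∀ x, ‖f x‖ ^ 2 ≤ (ω (star x * x)).re)
    (hf2 : ∀ x, ‖f x‖ ^ 2 ≤ (ω (x * star x)).re)
    {a : A} {M : ℝ} (hM : 1 ≤ M) (ha : ‖a‖ ≤ M) {x : A} (hx : x ∈ unitary A) {α : ℂ}
    (hα : ‖α‖ ≤ 1) {d : A} (hd : d = x - α • 1) {s : ℝ}
    (h1 : (ω (star d * d)).re ≤ s) (h2 : (ω (d * star d)).re ≤ s) :
    ‖f (x * star a * x - (α ^ 2) • star a)‖ ≤ 4 * M * √s := by
  have hd2 := norm_dev_le hx hα hd
  have hs0 : 0 ≤ s := (hω.re_nonneg d).trans h1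
  have hM0 : 0 ≤ M := by linarith
  have haa0 : 0 ≤ a * star a := mul_star_self_nonneg a
  have haa0' : 0 ≤ star a * a := star_mul_self_nonneg a
  have haan : ‖a * star a‖ ≤ M ^ 2 := by
    rw [CStarRing.norm_self_mul_star]
    nlinarith [norm_nonneg a]
  have haan' : ‖star a * a‖ ≤ M ^ 2 := by
    rw [CStarRing.norm_star_mul_self]
    nlinarith [norm_nonneg a]
  have hss : √s ^ 2 = s := Real.sq_sqrt hs0
  have t1 : ‖f (d * star a)‖ ≤ M * √s := by
    refine le_of_sq_le_sq ?_ (by positivity)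
    refine (hf2 _).trans ?_
    have e2 : (d * star a) * star (d * star a) = d * (star a * a) * star d := by
      rw [star_mul, star_star]
      simp only [mul_assoc]
    rw [e2, mul_pow, hss]
    exact (hω.conj_le' haa0' d).trans (mul_le_mul haan' h2 (hω.re_nonneg' d) (by positivity))
  have t2 : ‖f (star a * d)‖ ≤ M * √s := by
    refine le_of_sq_le_sq ?_ (by positivity)
    refine (hf1 _).trans ?_
    have e1 : star (star a * d) * (star a * d) = star d * (a * star a) * d := by
      rw [star_mul, star_star]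
      simp only [mul_assoc]
    rw [e1, mul_pow, hss]
    exact (hω.conj_le haa0 d).trans (mul_le_mul haan h1 (hω.re_nonneg d) (by positivity))
  have t3 : ‖f (d * star a * d)‖ ≤ 2 * M * √s := by
    refine le_of_sq_le_sq ?_ (by positivity)
    refine (hf1 _).trans ?_
    have e1 : star (d * star a * d) * (d * star a * d) =
        star d * (star (d * star a) * (d * star a)) * d := by
      rw [star_mul]
      simp only [mul_assoc]
    have hda : ‖d * star a‖ ≤ 2 * M := by
      refine (norm_mul_le _ _).trans ?_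
      rw [norm_star]
      exact mul_le_mul hd2 ha (norm_nonneg _) zero_le_two
    have h7 : ‖star (d * star a) * (d * star a)‖ ≤ (2 * M) ^ 2 := by
      rw [CStarRing.norm_star_mul_self]
      nlinarith [norm_nonneg (d * star a)]
    rw [e1, mul_pow, hss]
    exact (hω.conj_le (star_mul_self_nonneg (d * star a)) d).trans
      (mul_le_mul h7 h1 (hω.re_nonneg d) (by positivity))
  have hxd : x = α • 1 + d := by rw [hd]; abel
  have e0 : x * star a * x - (α ^ 2) • star a =
      α • (d * star a) + α • (star a * d) + d * star a * d := by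
    rw [hxd]
    simp only [add_mul, mul_add, smul_mul_assoc, mul_smul_comm, one_mul, mul_one, pow_two]
    module
  have t1' : ‖α • f (d * star a)‖ ≤ M * √s := by
    rw [norm_smul]
    exact (mul_le_of_le_one_left (norm_nonneg _) hα).trans t1
  have t2' : ‖α • f (star a * d)‖ ≤ M * √s := by
    rw [norm_smul]
    exact (mul_le_of_le_one_left (norm_nonneg _) hα).trans t2
  rw [e0, map_add, map_add, map_smul, map_smul]
  refine (norm_add_le _ _).trans ?_
  have := norm_add_le (α • f (d * star a)) (α • f (star a * d))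
  linarith

end Pool.Agent.Helper60.GT
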