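import Pool.Agent.Helper60.GT.Dom

/-!
# Growth of norms in the dual of a C*-algebra
-/

namespace Pool.Agent.Helper60.GT

open Filter Topology Complex
open scoped ComplexOrder

variable {A : Type*} [CStarAlgebra A]

section moebius

variable [PartialOrder A] [StarOrderedRing A]

theorem moebius (y a : A) (hy : ‖y‖ ≤ 1) (ha : ‖a‖ ≤ 1) (t : ℝ) :
    ‖y + t • (a - y * star a * y)‖ ^ 2 ≤ 1 + 5 * t ^ 2 := by
  have hone : ‖(1 : A)‖ ≤ 1 := norm_unitary_le (one_mem _)
  obtain ⟨G, hG⟩ : ∃ G : A, G = 1 - y * star y := ⟨_, rfl⟩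
  have hyy0 : 0 ≤ y * star y := mul_star_self_nonneg y
  have hyy1 : y * star y ≤ 1 := by
    rw [← CStarAlgebra.norm_le_one_iff_of_nonneg _ hyy0, CStarRing.norm_self_mul_star]
    nlinarith [norm_nonneg y]
  have hG0 : 0 ≤ G := by rw [hG]; exact sub_nonneg.2 hyy1
  have hGn : ‖G‖ ≤ 1 := by
    rw [CStarAlgebra.norm_le_one_iff_of_nonneg _ hG0, hG]
    exact sub_le_self _ hyy0
  obtain ⟨w, hw⟩ : ∃ w : A, w = a - y * star a * y := ⟨_, rfl⟩
  have hwn : ‖w‖ ≤ 2 := by
    rw [hw]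
    refine (norm_sub_le _ _).trans ?_
    have h1 : ‖y * star a * y‖ ≤ 1 := by
      refine (norm_mul_le _ _).trans ?_
      have h2 : ‖y * star a‖ ≤ 1 := by
        refine (norm_mul_le _ _).trans ?_
        rw [norm_star]
        exact mul_le_one₀ hy (norm_nonneg _) ha
      exact mul_le_one₀ h2 (norm_nonneg _) hy
    linarith
  obtain ⟨X, hX⟩ : ∃ X : A, X = y + t • w := ⟨_, rfl⟩
  obtain ⟨q, hq⟩ : ∃ q : A, q = 1 - t • (a * star y) := ⟨_, rfl⟩
  have hstarG : star G = G := by rw [hG]; simp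
  have e1 : X * star X = 1 - star q * G * q + (t ^ 2) • (y * star a * G * (a * star y)) +
      (t ^ 2) • (w * star w) := by
    rw [hX, hq, hw, hG]
    simp only [star_add, star_sub, star_smul, star_mul, star_star, star_one, star_trivial, mul_add,
      add_mul, mul_sub, sub_mul, mul_smul_comm, smul_mul_assoc, one_mul, mul_one, smul_smul,
      smul_sub, smul_add, mul_assoc, pow_two]
    abel
  have e2 : X * star X ≤ 1 + ((t ^ 2) • (y * star a * G * (a * star y)) +
      (t ^ 2) • (w * star w)) := by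
    rw [e1]
    have h1 : 0 ≤ star q * G * q := star_left_conjugate_nonneg hG0 q
    have h2 : (1 : A) - star q * G * q ≤ 1 := sub_le_self _ h1
    rw [add_assoc]
    exact add_le_add_left h2 _
  have e3 : ‖X‖ ^ 2 = ‖X * star X‖ := by rw [CStarRing.norm_self_mul_star, pow_two]
  rw [← hw, ← hX, e3]
  refine (CStarAlgebra.norm_le_norm_of_nonneg_of_le (mul_star_self_nonneg X) e2).trans ?_
  refine (norm_add_le _ _).trans ?_
  have h3 : ‖(t ^ 2) • (y * star a * G * (a * star y))‖ ≤ t ^ 2 * 1 := by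
    rw [norm_smul, Real.norm_of_nonneg (by positivity)]
    refine mul_le_mul_of_nonneg_left ?_ (by positivity)
    have h4 : ‖y * star a‖ ≤ 1 := by
      refine (norm_mul_le _ _).trans ?_
      rw [norm_star]
      exact mul_le_one₀ hy (norm_nonneg _) ha
    have h5 : ‖a * star y‖ ≤ 1 := by
      refine (norm_mul_le _ _).trans ?_
      rw [norm_star]
      exact mul_le_one₀ ha (norm_nonneg _) hy
    refine (norm_mul_le _ _).trans (mul_le_one₀ ?_ (norm_nonneg _) h5)
    exact (norm_mul_le _ _).trans (mul_le_one₀ h4 (norm_nonneg _) hGn)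
  have h4 : ‖(t ^ 2) • (w * star w)‖ ≤ t ^ 2 * 4 := by
    rw [norm_smul, Real.norm_of_nonneg (by positivity)]
    refine mul_le_mul_of_nonneg_left ?_ (by positivity)
    rw [CStarRing.norm_self_mul_star]
    nlinarith [norm_nonneg w]
  have h5 := norm_add_le ((t ^ 2) • (y * star a * G * (a * star y))) ((t ^ 2) • (w * star w))
  linarith

/-- The four signs. -/
def Four (e : ℂ) : Prop := e = 1 ∨ e = I ∨ e = -1 ∨ e = -I

theorem grow_aux (f b : A →L[ℂ] ℂ) (M t : ℝ) (ht : 0 ≤ t) (hM : ∀ e, Four e → ‖f + e • b‖ ≤ M)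
    (y a : A) (hy : ‖y‖ ≤ 1) (ha : ‖a‖ ≤ 1) : ‖f y‖ + t * ‖b a‖ ≤ M * √(1 + 5 * t ^ 2) := by
  obtain ⟨c, hc, hc2⟩ := exists_phase (f y)
  obtain ⟨d, hd, hd2⟩ := exists_phase (b a)
  have hM0 : 0 ≤ M := (norm_nonneg _).trans (hM 1 (Or.inl rfl))
  obtain ⟨y', hy'⟩ : ∃ y', y' = c • y := ⟨_, rfl⟩
  obtain ⟨a', ha'⟩ : ∃ a', a' = d • a := ⟨_, rfl⟩
  have hfy : f y' = (‖f y‖ : ℂ) := by rw [hy', map_smul, smul_eq_mul, hc2]
  have hba : b a' = (‖b a‖ : ℂ) := by rw [ha', map_smul, smul_eq_mul, hd2]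
  have hyn : ‖y'‖ ≤ 1 := by rw [hy', norm_smul, hc, one_mul]; exact hy
  have han : ‖a'‖ ≤ 1 := by rw [ha', norm_smul, hd, one_mul]; exact ha
  have hX : ∀ e : ℂ, ‖e‖ = 1 → ‖y' + t • (star e • a' - e • (y' * star a' * y'))‖ ≤
      √(1 + 5 * t ^ 2) := by
    intro e he
    apply Real.le_sqrt_of_sq_le
    have h1 := moebius y' (star e • a') hyn (by
      rw [norm_smul, norm_star, he, one_mul]
      exact han) t
    rw [star_smul, star_star, mul_smul_comm, smul_mul_assoc] at h1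
    exact h1
  have hbound : ∀ e : ℂ, Four e → ‖e‖ = 1 →
      ‖(f + e • b) (y' + t • (star e • a' - e • (y' * star a' * y')))‖ ≤
        M * √(1 + 5 * t ^ 2) := by
    intro e he he1
    refine ((f + e • b).le_opNorm _).trans ?_
    exact mul_le_mul (hM e he) (hX e he1) (norm_nonneg _) hM0
  obtain ⟨g, hg⟩ : ∃ g, g = y' * star a' * y' := ⟨_, rfl⟩
  have b1 := hbound 1 (Or.inl rfl) (by simp)
  have b2 := hbound I (Or.inr (Or.inl rfl)) (by simp)
  have b3 := hbound (-1) (Or.inr (Or.inr (Or.inl rfl))) (by simp)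
  have b4 := hbound (-I) (Or.inr (Or.inr (Or.inr rfl))) (by simp)
  rw [← hg] at b1 b2 b3 b4
  have hsum : 4 * (f y' + (t : ℂ) * b a') =
      (f + (1 : ℂ) • b) (y' + t • (star (1 : ℂ) • a' - (1 : ℂ) • g)) +
      (f + I • b) (y' + t • (star I • a' - I • g)) +
      (f + (-1 : ℂ) • b) (y' + t • (star (-1 : ℂ) • a' - (-1 : ℂ) • g)) +
      (f + (-I) • b) (y' + t • (star (-I) • a' - (-I) • g)) := by
    simp only [add_apply, smul_apply, map_add, ← Complex.coe_smul, map_smul, map_sub, smul_eq_mul,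
      Complex.star_def, map_one, Complex.conj_I, map_neg]
    ring_nf
    rw [Complex.I_sq]
    ring
  have hn : ‖(4 : ℂ) * (f y' + (t : ℂ) * b a')‖ ≤ 4 * (M * √(1 + 5 * t ^ 2)) := by
    rw [hsum]
    refine (norm_add_le _ _).trans ?_
    have h1 := norm_add_le ((f + (1 : ℂ) • b) (y' + t • (star (1 : ℂ) • a' - (1 : ℂ) • g)) +
      (f + I • b) (y' + t • (star I • a' - I • g)))
      ((f + (-1 : ℂ) • b) (y' + t • (star (-1 : ℂ) • a' - (-1 : ℂ) • g)))
    have h2 := norm_add_le ((f + (1 : ℂ) • b) (y' + t • (star (1 : ℂ) • a' - (1 : ℂ) • g)))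
      ((f + I • b) (y' + t • (star I • a' - I • g)))
    linarith
  rw [hfy, hba, norm_mul] at hn
  have h3 : ((‖f y‖ : ℂ) + (t : ℂ) * (‖b a‖ : ℂ)) = ((‖f y‖ + t * ‖b a‖ : ℝ) : ℂ) := by
    push_cast
    ring
  rw [h3, Complex.norm_real, Real.norm_of_nonneg (by positivity)] at hn
  have h4 : ‖(4 : ℂ)‖ = 4 := by simp
  rw [h4] at hn
  linarith

theorem grow (f b : A →L[ℂ] ℂ) (M t : ℝ) (ht : 0 ≤ t) (hM : ∀ e, Four e → ‖f + e • b‖ ≤ M) :
    ‖f‖ + t * ‖b‖ ≤ M * √(1 + 5 * t ^ 2) := by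
  refine le_of_forall_pos_le_add fun δ hδ => ?_
  obtain ⟨y, hy, hy2⟩ := f.exists_lt_apply_of_lt_opNorm (r := ‖f‖ - δ / 2) (by linarith)
  obtain ⟨a, ha, ha2⟩ := b.exists_lt_apply_of_lt_opNorm (r := ‖b‖ - δ / (2 * (t + 1)))
    (by have : 0 < δ / (2 * (t + 1)) := by positivity
        linarith)
  have h1 := grow_aux f b M t ht hM y a hy.le ha.le
  have h2 : t * (δ / (2 * (t + 1))) ≤ δ / 2 := by
    have h3 : t * (δ / (2 * (t + 1))) = δ / 2 * (t / (t + 1)) := by
      field_simp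
    rw [h3]
    refine mul_le_of_le_one_right (by positivity) ?_
    rw [div_le_one (by positivity)]
    linarith
  have h3 : t * (‖b‖ - δ / (2 * (t + 1))) ≤ t * ‖b a‖ := mul_le_mul_of_nonneg_left ha2.le ht
  nlinarith

theorem grow_seq (b : ℕ → A →L[ℂ] ℂ) (η M : ℝ) (hη : 0 < η) (K : ℕ) (hb : ∀ j < K, η ≤ ‖b j‖)
    (hM : ∀ (e : ℕ → ℂ), (∀ j, Four (e j)) → ∀ k ≤ K, ‖∑ j ∈ Finset.range k, e j • b j‖ ≤ M) :
    (K : ℝ) * (η / (10 * (M + η)) * η / 4) ≤ M := by
  have hM0 : 0 ≤ M := (norm_nonneg _).trans (hM (fun _ => 1) (fun _ => Or.inl rfl) 0 (Nat.zero_le _))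
  obtain ⟨t, ht⟩ : ∃ t, t = η / (10 * (M + η)) := ⟨_, rfl⟩
  have ht0 : 0 < t := by rw [ht]; positivity
  rw [← ht]
  have ht5 : 10 * (M + η) * t = η := by
    rw [ht]
    field_simp
  have ht1 : t ≤ 1 := by
    rw [ht, div_le_one (by positivity)]
    linarith
  have key : ∀ k ≤ K, ∃ e : ℕ → ℂ, (∀ j, Four (e j)) ∧
      (k : ℝ) * (t * η / 4) ≤ ‖∑ j ∈ Finset.range k, e j • b j‖ := by
    intro k
    induction k with
    | zero => exact fun _ => ⟨fun _ => 1, fun _ => Or.inl rfl, by simp⟩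
    | succ k ih =>
      intro hk
      obtain ⟨e, he, hke⟩ := ih (by omega)
      obtain ⟨f, hf⟩ : ∃ f, f = ∑ j ∈ Finset.range k, e j • b j := ⟨_, rfl⟩
      rw [← hf] at hke
      have hfM : ‖f‖ ≤ M := by rw [hf]; exact hM e he k (by omega)
      -- otherwise all four continuations are small
      by_contra hno
      push Not at hno
      have h1 : ∀ c, Four c → ‖f + c • b k‖ ≤ ((k + 1 : ℕ) : ℝ) * (t * η / 4) := by
        intro c hc
        have h2 := hno (fun j => if j = k then c else e j) (fun j => by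
          by_cases hj : j = k
          · simpa [hj] using hc
          · simpa [hj] using he j)
        rw [Finset.sum_range_succ, if_pos rfl] at h2
        have h3 : ∑ j ∈ Finset.range k, (if j = k then c else e j) • b j = f := by
          rw [hf]
          refine Finset.sum_congr rfl fun j hj => ?_
          rw [if_neg (by have := Finset.mem_range.1 hj; omega)]
        rw [h3] at h2
        exact h2.le
      have h2 := grow f (b k) _ t ht0.le h1
      have h3 := hb k (by omega)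
      have h4 : √(1 + 5 * t ^ 2) ≤ 1 + 5 * t ^ 2 / 2 := by
        rw [Real.sqrt_le_left (by positivity)]
        nlinarith [sq_nonneg (t ^ 2)]
      have h5 : ((k + 1 : ℕ) : ℝ) * (t * η / 4) ≤ M + t * η / 4 := by
        push_cast
        linarith
      have h6 : 0 ≤ ((k + 1 : ℕ) : ℝ) * (t * η / 4) := by positivity
      have h7 : ((k + 1 : ℕ) : ℝ) * (t * η / 4) * √(1 + 5 * t ^ 2) ≤
          ((k + 1 : ℕ) : ℝ) * (t * η / 4) + (M + t * η / 4) * (5 * t ^ 2 / 2) := by
        calc _ ≤ ((k + 1 : ℕ) : ℝ) * (t * η / 4) * (1 + 5 * t ^ 2 / 2) :=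
              mul_le_mul_of_nonneg_left h4 h6
          _ = ((k + 1 : ℕ) : ℝ) * (t * η / 4) + ((k + 1 : ℕ) : ℝ) * (t * η / 4) *
                (5 * t ^ 2 / 2) := by ring
          _ ≤ _ := by
              have : 0 ≤ 5 * t ^ 2 / 2 := by positivity
              nlinarith
      have h8 : (M + t * η / 4) * (5 * t ^ 2 / 2) ≤ t * η / 4 := by
        have h9 : (M + t * η / 4) ≤ M + η := by nlinarith
        have h10 : (M + η) * (5 * t ^ 2 / 2) = t * η / 4 := by
          calc (M + η) * (5 * t ^ 2 / 2) = (10 * (M + η) * t) * t / 4 := by ring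
            _ = t * η / 4 := by rw [ht5]; ring
        exact (mul_le_mul_of_nonneg_right h9 (by positivity)).trans h10.le
      have h11 : t * η ≤ t * ‖b k‖ := mul_le_mul_of_nonneg_left h3 ht0.le
      have h12 : 0 < t * η := by positivity
      push_cast at *
      nlinarith
  obtain ⟨e, he, hK⟩ := key K le_rfl
  exact hK.trans (hM e he K le_rfl)

end moebius

end Pool.Agent.Helper60.GT
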