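import Pool.Agent.Helper60.GT.Anti
import Pool.Agent.Helper60.PT.AP

/-!
# Projective tensor products of two C*-algebras
-/

namespace Pool.Agent.Helper60.GT

open Filter Topology Complex Pool.Agent.Helper60.PT

theorem gt_sep {A B : Type*} [CStarAlgebra A] [CStarAlgebra B] [Nontrivial A] [Nontrivial B]
    (V : A →L[ℂ] B →L[ℂ] ℂ) (a : ℕ → A) (b : ℕ → B) (hab : Summable fun n => ‖a n‖ * ‖b n‖)
    (hN : ∀ (φ : A →L[ℂ] ℂ) (ψ : B →L[ℂ] ℂ), ∑' n, φ (a n) * ψ (b n) = 0) :
    ∑' n, V (a n) (b n) = 0 := by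
  let _ := CStarAlgebra.spectralOrder A
  let _ := CStarAlgebra.spectralOrderedRing A
  let _ := CStarAlgebra.spectralOrder B
  let _ := CStarAlgebra.spectralOrderedRing B
  exact gt_sep_aux V a b hab hN

/-- The inclusion in the unitization. -/
theorem exists_inrL (A : Type*) [NonUnitalCStarAlgebra A] :
    ∃ L : A →L[ℂ] Unitization ℂ A, ∀ x, L x = (x : Unitization ℂ A) :=
  ⟨(Unitization.inrHom ℂ ℂ A).mkContinuous 1 fun x => by
    rw [one_mul]
    exact (Unitization.norm_inr x).le, fun _ => rfl⟩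

/-- The projection from the unitization. -/
theorem exists_sndL (A : Type*) [NonUnitalCStarAlgebra A] :
    ∃ L : Unitization ℂ A →L[ℂ] A, ∀ x, L x = x.snd :=
  ⟨⟨Unitization.sndHom ℂ ℂ A, Unitization.continuous_snd⟩, fun _ => rfl⟩

/-- If `A` is a C*-algebra and `B` is, as a Banach space, isomorphic to a complemented subspace of a
C*-algebra `D`, then the slice maps separate the points of the projective tensor product. -/
theorem eq_zero_of_slice_compl {A B C D : Type*} [NonUnitalCStarAlgebra A]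
    [NonUnitalNormedRing B] [NormedSpace ℂ B] [CompleteSpace B] [NonUnitalCStarAlgebra D]
    (i : B →L[ℂ] D) (p : D →L[ℂ] B) (hip : ∀ b, p (i b) = b)
    [NonUnitalNormedRing C] [NormedSpace ℂ C] [CompleteSpace C] {ι : A →ₗ[ℂ] B →ₗ[ℂ] C}
    (h : IsProj ι) (u : C)
    (hu : ∀ (φ : A →L[ℂ] ℂ) (S : C →L[ℂ] B), (∀ a b, S (ι a b) = φ a • b) → S u = 0) : u = 0 := by
  by_contra hne
  obtain ⟨g, -, hg⟩ := exists_dual_vector ℂ u (norm_ne_zero_iff.2 hne)
  obtain ⟨a, b, hab, hsum⟩ := h.exists_series u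
  obtain ⟨V0, hV0⟩ : ∃ V0 : A →L[ℂ] B →L[ℂ] ℂ, ∀ x y, V0 x y = g (ι x y) := by
    refine ⟨LinearMap.mkContinuous₂ (LinearMap.mk₂ ℂ (fun x y => g (ι x y)) (by simp) (by simp)
      (by simp) (by simp)) ‖g‖ fun x y => ?_, fun x y => rfl⟩
    rw [LinearMap.mk₂_apply, mul_assoc]
    exact (g.le_opNorm _).trans (mul_le_mul_of_nonneg_left (h.norm_le x y) (norm_nonneg _))
  obtain ⟨LA, hLA⟩ := exists_sndL A
  obtain ⟨LD, hLD⟩ := exists_sndL D
  obtain ⟨iA, hiA⟩ := exists_inrL A
  obtain ⟨iD, hiD⟩ := exists_inrL D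
  have h1 := gt_sep (A := Unitization ℂ A) (B := Unitization ℂ D)
    (V0.bilinearComp LA (p.comp LD))
    (fun n => (a n : Unitization ℂ A)) (fun n => (i (b n) : Unitization ℂ D)) (by
      simp only [Unitization.norm_inr]
      refine Summable.of_nonneg_of_le (fun n => by positivity) (fun n => ?_) (hab.mul_left ‖i‖)
      calc ‖a n‖ * ‖i (b n)‖ ≤ ‖a n‖ * (‖i‖ * ‖b n‖) :=
            mul_le_mul_of_nonneg_left (i.le_opNorm _) (norm_nonneg _)
        _ = ‖i‖ * (‖a n‖ * ‖b n‖) := by ring) (fun φ ψ => by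
      obtain ⟨S, hS⟩ := h.exists_sliceA (φ.comp iA)
      have h2 : HasSum (fun n => ((ψ.comp iD).comp i) (S (ι (a n) (b n))))
          (((ψ.comp iD).comp i) (S u)) :=
        ((ψ.comp iD).comp i).hasSum (S.hasSum hsum)
      rw [hu _ S hS, map_zero] at h2
      rw [← h2.tsum_eq]
      refine tsum_congr fun n => ?_
      rw [hS, map_smul, smul_eq_mul, ContinuousLinearMap.comp_apply,
        ContinuousLinearMap.comp_apply, ContinuousLinearMap.comp_apply, hiA, hiD])
  have h2 : HasSum (fun n => g (ι (a n) (b n))) (g u) := g.hasSum hsum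
  have h3 : g u = 0 := by
    rw [← h2.tsum_eq, ← h1]
    refine tsum_congr fun n => ?_
    rw [ContinuousLinearMap.bilinearComp_apply, ContinuousLinearMap.comp_apply, hLA, hLD, hV0,
      Unitization.snd_inr, Unitization.snd_inr, hip]
  rw [h3] at hg
  exact hne (norm_eq_zero.1 (by simpa using hg.symm))

section main

variable {A B C : Type*} [NonUnitalCStarAlgebra A]
  [NonUnitalNormedRing C] [NormedSpace ℂ C] [IsScalarTower ℂ C C] [SMulCommClass ℂ C C]
  [CompleteSpace C]

theorem semisimple_compl [NonUnitalNormedRing B] [NormedSpace ℂ B] [IsScalarTower ℂ B B]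
    [SMulCommClass ℂ B B] [CompleteSpace B] {ι : A →ₗ[ℂ] B →ₗ[ℂ] C} (h : IsProj ι)
    {D : Type*} [NonUnitalCStarAlgebra D] (i : B →L[ℂ] D) (p : D →L[ℂ] B)
    (hip : ∀ b, p (i b) = b) (hB : Semisimple B) : Semisimple C := by
  intro u hu
  exact eq_zero_of_slice_compl i p hip h u fun φ S hS => hB _ (slice_rad h u hu φ S hS)

/-- The projective tensor product of two C*-algebras is semisimple. -/
theorem semisimple_pair [NonUnitalCStarAlgebra B] {ι : A →ₗ[ℂ] B →ₗ[ℂ] C} (h : IsProj ι) :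
    Semisimple C :=
  semisimple_compl h (ContinuousLinearMap.id ℂ B) (ContinuousLinearMap.id ℂ B) (fun _ => rfl)
    (semisimple_cstar B)

end main

end Pool.Agent.Helper60.GT
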