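import Pool.Agent.Helper60.GT.Basic

/-!
# Positive functionals and domination of arbitrary functionals
-/

namespace Pool.Agent.Helper60.GT

open Filter Topology Complex
open scoped ComplexOrder

section ulclm

variable {E : Type*} [NormedAddCommGroup E] [NormedSpace ℂ E]

/-- The limit of a bounded sequence of functionals along the ultrafilter. -/
theorem exists_ulCLM (g : ℕ → E →L[ℂ] ℂ) (C : ℝ) (hC : ∀ n x, ‖g n x‖ ≤ C * ‖x‖) :
    ∃ G : E →L[ℂ] ℂ, ∀ x, G x = ul fun n => g n x := by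
  have ht : ∀ x, Tendsto (fun n => g n x) (hyperfilter ℕ : Filter ℕ) (𝓝 (ul fun n => g n x)) :=
    fun x => ul_tendsto (C * ‖x‖) fun n => hC n x
  refine ⟨LinearMap.mkContinuous
    { toFun := fun x => ul fun n => g n x
      map_add' := fun x y => ?_
      map_smul' := fun c x => ?_ } C fun x => norm_ul_le fun n => hC n x, fun x => rfl⟩
  · refine ul_eq ?_
    simp only [map_add]
    exact (ht x).add (ht y)
  · refine ul_eq ?_
    simp only [map_smul]
    exact (ht x).const_smul c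

/-- The limit of a bounded sequence of bilinear forms along the ultrafilter. -/
theorem exists_ulCLM2 {F : Type*} [NormedAddCommGroup F] [NormedSpace ℂ F]
    (g : ℕ → E →L[ℂ] F →L[ℂ] ℂ) (C : ℝ) (hC : ∀ n x y, ‖g n x y‖ ≤ C * ‖x‖ * ‖y‖) :
    ∃ G : E →L[ℂ] F →L[ℂ] ℂ, ∀ x y, G x y = ul fun n => g n x y := by
  have ht : ∀ x y, Tendsto (fun n => g n x y) (hyperfilter ℕ : Filter ℕ)
      (𝓝 (ul fun n => g n x y)) := fun x y => ul_tendsto (C * ‖x‖ * ‖y‖) fun n => hC n x y
  refine ⟨LinearMap.mkContinuous₂ (LinearMap.mk₂ ℂ (fun x y => ul fun n => g n x y)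
    (fun x x' y => ?_) (fun c x y => ?_) (fun x y y' => ?_) (fun c x y => ?_)) C
    fun x y => norm_ul_le fun n => hC n x y, fun x y => rfl⟩
  · refine ul_eq ?_
    simp only [map_add, add_apply]
    exact (ht x y).add (ht x' y)
  · refine ul_eq ?_
    simp only [map_smul, smul_apply]
    exact (ht x y).const_smul c
  · refine ul_eq ?_
    simp only [map_add]
    exact (ht x y).add (ht x y')
  · refine ul_eq ?_
    simp only [map_smul]
    exact (ht x y).const_smul c

end ulclm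

section pos

variable {A : Type*} [CStarAlgebra A]

/-- Positive functionals. -/
def Pos (φ : A →L[ℂ] ℂ) : Prop := ∀ x : A, 0 ≤ φ (star x * x)

theorem Pos.add {φ ψ : A →L[ℂ] ℂ} (hφ : Pos φ) (hψ : Pos ψ) : Pos (φ + ψ) := fun x => by
  rw [add_apply]
  exact add_nonneg (hφ x) (hψ x)

theorem Pos.smul {φ : A →L[ℂ] ℂ} (hφ : Pos φ) {c : ℝ} (hc : 0 ≤ c) : Pos ((c : ℂ) • φ) := fun x => by
  rw [smul_apply, smul_eq_mul]
  exact mul_nonneg (by exact_mod_cast hc) (hφ x)

theorem Pos.zero : Pos (0 : A →L[ℂ] ℂ) := fun x => by simp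

theorem Pos.sum {κ : Type*} (s : Finset κ) (φ : κ → A →L[ℂ] ℂ) (h : ∀ i ∈ s, Pos (φ i)) :
    Pos (∑ i ∈ s, φ i) := by
  classical
  induction s using Finset.induction_on with
  | empty => simpa using Pos.zero
  | insert i s hi ih =>
    rw [Finset.sum_insert hi]
    exact (h i (Finset.mem_insert_self i s)).add
      (ih fun j hj => h j (Finset.mem_insert_of_mem hj))

/-- The functional `x ↦ φ (star a * x * a)`. -/
noncomputable def cj (a : A) (φ : A →L[ℂ] ℂ) : A →L[ℂ] ℂ :=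
  φ.comp (((ContinuousLinearMap.mul ℂ A).flip a).comp (ContinuousLinearMap.mul ℂ A (star a)))

theorem cj_apply (a : A) (φ : A →L[ℂ] ℂ) (x : A) : cj a φ x = φ (star a * x * a) := rfl

theorem Pos.cj {φ : A →L[ℂ] ℂ} (h : Pos φ) (a : A) : Pos (cj a φ) := fun x => by
  rw [cj_apply]
  have := h (x * a)
  rwa [star_mul, ← mul_assoc, mul_assoc (star a) (star x) x] at this

variable [PartialOrder A] [StarOrderedRing A]

theorem Pos.nonneg {φ : A →L[ℂ] ℂ} (h : Pos φ) {p : A} (hp : 0 ≤ p) : 0 ≤ φ p := by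
  obtain ⟨x, rfl⟩ := CStarAlgebra.nonneg_iff_eq_star_mul_self.1 hp
  exact h x

theorem Pos.mono {φ : A →L[ℂ] ℂ} (h : Pos φ) {p q : A} (hpq : p ≤ q) : (φ p).re ≤ (φ q).re := by
  have h1 := h.nonneg (sub_nonneg.2 hpq)
  rw [map_sub] at h1
  have h2 := (Complex.nonneg_iff.1 h1).1
  rw [sub_re] at h2
  linarith

theorem Pos.im_eq_zero {φ : A →L[ℂ] ℂ} (h : Pos φ) {x : A} (hx : IsSelfAdjoint x) :
    (φ x).im = 0 := by
  have h1 : x = x⁺ - x⁻ := (CFC.posPart_sub_negPart x hx).symm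
  have h2 := h.nonneg (CFC.posPart_nonneg x)
  have h3 := h.nonneg (CFC.negPart_nonneg x)
  rw [h1, map_sub, sub_im, ← (Complex.nonneg_iff.1 h2).2, ← (Complex.nonneg_iff.1 h3).2, sub_zero]

theorem Pos.map_star {φ : A →L[ℂ] ℂ} (h : Pos φ) (x : A) : φ (star x) = star (φ x) := by
  have h1 : IsSelfAdjoint (x + star x) := IsSelfAdjoint.add_star_self x
  have h2 : IsSelfAdjoint (I • (x - star x)) := by
    rw [isSelfAdjoint_iff, star_smul, star_sub, star_star]
    simp [smul_sub]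
    abel
  have h3 := h.im_eq_zero h1
  have h4 := h.im_eq_zero h2
  rw [map_add, add_im] at h3
  rw [map_smul, map_sub, smul_eq_mul, mul_im, I_re, I_im] at h4
  simp at h4
  apply Complex.ext
  · simp
    linarith
  · simp
    linarith

theorem Pos.cs {φ : A →L[ℂ] ℂ} (h : Pos φ) (x : A) :
    ‖φ x‖ ^ 2 ≤ (φ 1).re * (φ (star x * x)).re := by
  -- `0 ≤ φ (star (s φ(x) - x) (s φ(x) - x))`
  have h1 : ∀ s : ℝ, 0 ≤ s ^ 2 * ‖φ x‖ ^ 2 * (φ 1).re - 2 * s * ‖φ x‖ ^ 2 +
      (φ (star x * x)).re := by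
    intro s
    have h2 := h (((s : ℂ) * φ x) • (1 : A) - x)
    have h3 : star (((s : ℂ) * φ x) • (1 : A) - x) * (((s : ℂ) * φ x) • (1 : A) - x) =
        ((s : ℂ) * star (φ x) * ((s : ℂ) * φ x)) • (1 : A) - ((s : ℂ) * star (φ x)) • x -
          ((s : ℂ) * φ x) • star x + star x * x := by
      simp only [star_sub, star_smul, star_one, star_mul', sub_mul, mul_sub, smul_mul_assoc,
        mul_smul_comm, one_mul, mul_one]
      simp only [Complex.star_def, Complex.conj_ofReal]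
      module
    rw [h3, map_add, map_sub, map_sub, map_smul, map_smul, map_smul, h.map_star] at h2
    have h4 := (Complex.nonneg_iff.1 h2).1
    have h5 : star (φ x) * φ x = ((‖φ x‖ ^ 2 : ℝ) : ℂ) := by
      rw [Complex.star_def, ← Complex.normSq_eq_conj_mul_self, Complex.normSq_eq_norm_sq]
    have h6 : (s : ℂ) * star (φ x) * ((s : ℂ) * φ x) = ((s ^ 2 * ‖φ x‖ ^ 2 : ℝ) : ℂ) := by
      rw [show (s : ℂ) * star (φ x) * ((s : ℂ) * φ x) = (s : ℂ) ^ 2 * (star (φ x) * φ x) by ring,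
        h5]
      push_cast
      ring
    have h7 : (s : ℂ) * star (φ x) * φ x = ((s * ‖φ x‖ ^ 2 : ℝ) : ℂ) := by
      rw [mul_assoc, h5]
      push_cast
      ring
    have h8 : (s : ℂ) * φ x * star (φ x) = ((s * ‖φ x‖ ^ 2 : ℝ) : ℂ) := by
      rw [mul_assoc, mul_comm (φ x), h5]
      push_cast
      ring
    rw [smul_eq_mul, smul_eq_mul, smul_eq_mul, h6, h7, h8, add_re, sub_re, sub_re, re_ofReal_mul,
      ofReal_re] at h4
    linarith
  have h10 := (Complex.nonneg_iff.1 (h 1)).1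
  rw [star_one, one_mul] at h10
  rcases h10.eq_or_lt with h11 | h11
  · rw [← h11, zero_mul]
    by_contra hne
    push Not at hne
    have hx0 : ‖φ x‖ ≠ 0 := by
      intro h0
      rw [h0] at hne
      simp at hne
    have h12 := h1 (((φ (star x * x)).re + 1) / (2 * ‖φ x‖ ^ 2))
    rw [← h11, mul_zero, zero_sub] at h12
    have h13 : 2 * (((φ (star x * x)).re + 1) / (2 * ‖φ x‖ ^ 2)) * ‖φ x‖ ^ 2 =
        (φ (star x * x)).re + 1 := by
      field_simp
    linarith
  · have h12 := h1 (1 / (φ 1).re)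
    have h13 : (1 / (φ 1).re) ^ 2 * ‖φ x‖ ^ 2 * (φ 1).re - 2 * (1 / (φ 1).re) * ‖φ x‖ ^ 2 =
        - (‖φ x‖ ^ 2 / (φ 1).re) := by
      field_simp
      ring
    rw [h13] at h12
    have h14 : ‖φ x‖ ^ 2 / (φ 1).re ≤ (φ (star x * x)).re := by linarith
    rw [div_le_iff₀ h11] at h14
    linarith

end pos

end Pool.Agent.Helper60.GT
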