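import Pool.Agent.Helper60.GT.Est

/-!
# Functionals separate the points of the projective tensor product of two C*-algebras
-/

namespace Pool.Agent.Helper60.GT

open Filter Topology Complex
open scoped ComplexOrder

variable {A B : Type*} [CStarAlgebra A] [CStarAlgebra B]
  [PartialOrder A] [StarOrderedRing A] [PartialOrder B] [StarOrderedRing B]

variable (A) in
theorem exists_pos_one [Nontrivial A] : ∃ e : A →L[ℂ] ℂ, Pos e ∧ 1 ≤ (e 1).re := by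
  obtain ⟨f, -, hf⟩ := exists_dual_vector'' ℂ (1 : A)
  obtain ⟨ω, h1, h2, -⟩ := dom f
  refine ⟨ω, h1, ?_⟩
  have h3 := h2 1
  rw [hf, star_one, one_mul, CStarRing.norm_one] at h3
  simpa using h3

/-- Near maximal pairs of `V + c Φ ⊗ Ψ` are close to scalars. -/
theorem near_scalar (V : A →L[ℂ] B →L[ℂ] ℂ) {Φ : A →L[ℂ] ℂ} {Ψ : B →L[ℂ] ℂ} (hΦ : Pos Φ)
    (hΨ : Pos Ψ) (hΦ1 : 1 ≤ (Φ 1).re) (hΨ1 : 1 ≤ (Ψ 1).re) {c s : ℝ} (hc : 0 < c)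
    (hcs : (2 * ‖V‖ + 1) / c ≤ s / 2) {u : A} {v : B} (hu : u ∈ unitary A) (hv : v ∈ unitary B)
    (hmax : (V 1 1 + c * (Φ 1 * Ψ 1)).re ≤ (V u v + c * (Φ u * Ψ v)).re + 1) :
    ∃ (α β : ℂ), ‖α‖ ≤ 1 ∧ ‖β‖ ≤ 1 ∧ ‖α ^ 2 * β ^ 2 - 1‖ ≤ 2 * √s ∧
      (Φ (star (u - α • 1) * (u - α • 1))).re ≤ s ∧ (Φ ((u - α • 1) * star (u - α • 1))).re ≤ s ∧
      (Ψ (star (v - β • 1) * (v - β • 1))).re ≤ s ∧
      (Ψ ((v - β • 1) * star (v - β • 1))).re ≤ s := by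
  obtain ⟨τ, hτ⟩ : ∃ τ, τ = (Φ 1).re := ⟨_, rfl⟩
  obtain ⟨σ, hσ⟩ : ∃ σ, σ = (Ψ 1).re := ⟨_, rfl⟩
  have hΦτ : Φ 1 = (τ : ℂ) := by
    apply Complex.ext
    · rw [hτ, ofReal_re]
    · rw [ofReal_im, hΦ.im_eq_zero (IsSelfAdjoint.one A)]
  have hΨσ : Ψ 1 = (σ : ℂ) := by
    apply Complex.ext
    · rw [hσ, ofReal_re]
    · rw [ofReal_im, hΨ.im_eq_zero (IsSelfAdjoint.one B)]
  rw [← hτ] at hΦ1
  rw [← hσ] at hΨ1
  have hτ0 : (τ : ℂ) ≠ 0 := by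
    have : τ ≠ 0 := by linarith
    exact_mod_cast this
  have hσ0 : (σ : ℂ) ≠ 0 := by
    have : σ ≠ 0 := by linarith
    exact_mod_cast this
  obtain ⟨α, hα⟩ : ∃ α, α = Φ u / τ := ⟨_, rfl⟩
  obtain ⟨β, hβ⟩ : ∃ β, β = Ψ v / σ := ⟨_, rfl⟩
  have hα' : Φ u = (Φ 1).re * α := by rw [← hτ, hα, mul_div_cancel₀ _ hτ0]
  have hβ' : Ψ v = (Ψ 1).re * β := by rw [← hσ, hβ, mul_div_cancel₀ _ hσ0]
  obtain ⟨hα1, hα2, hα3⟩ := pos_dev hΦ (by rw [← hτ]; linarith) hu hα' rfl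
  obtain ⟨hβ1, hβ2, hβ3⟩ := pos_dev hΨ (by rw [← hσ]; linarith) hv hβ' rfl
  -- the real part of `α β`
  have hun := norm_unitary_le hu
  have hvn := norm_unitary_le hv
  have h1A : ‖(1 : A)‖ ≤ 1 := norm_unitary_le (one_mem _)
  have h1B : ‖(1 : B)‖ ≤ 1 := norm_unitary_le (one_mem _)
  have n1 : -‖V‖ ≤ (V 1 1).re := by
    have h1 : ‖V 1 1‖ ≤ ‖V‖ := (norm_bil_le V _ _).trans
      (mul_le_of_le_one_right (norm_nonneg V) (mul_le_one₀ h1A (norm_nonneg _) h1B))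
    exact (abs_le.1 ((Complex.abs_re_le_norm _).trans h1)).1
  have n2 : (V u v).re ≤ ‖V‖ := by
    have h1 : ‖V u v‖ ≤ ‖V‖ := (norm_bil_le V _ _).trans
      (mul_le_of_le_one_right (norm_nonneg V) (mul_le_one₀ hun (norm_nonneg _) hvn))
    exact (Complex.re_le_norm _).trans h1
  have e1 : (V 1 1 + c * (Φ 1 * Ψ 1)).re = (V 1 1).re + c * (τ * σ) := by
    rw [hΦτ, hΨσ, add_re, ← Complex.ofReal_mul, ← Complex.ofReal_mul, ofReal_re]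
  have e2 : (V u v + c * (Φ u * Ψ v)).re = (V u v).re + c * (τ * σ) * (α * β).re := by
    have e3 : (c : ℂ) * (Φ u * Ψ v) = ((c * (τ * σ) : ℝ) : ℂ) * (α * β) := by
      rw [hα', hβ', ← hτ, ← hσ]
      push_cast
      ring
    rw [add_re, e3, re_ofReal_mul]
  rw [e1, e2] at hmax
  obtain ⟨r, hr⟩ : ∃ r, r = 1 - (α * β).re := ⟨_, rfl⟩
  have hαβ : ‖α * β‖ ≤ 1 := by rw [norm_mul]; exact mul_le_one₀ hα1 (norm_nonneg _) hβ1
  have hr0 : 0 ≤ r := by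
    rw [hr]
    linarith [Complex.re_le_norm (α * β)]
  have hrs : τ * σ * r ≤ s / 2 := by
    refine le_trans ?_ hcs
    rw [le_div_iff₀ hc, hr]
    nlinarith
  have hτσ : 1 ≤ τ * σ := one_le_mul_of_one_le_of_one_le hΦ1 hΨ1
  have hs0 : 0 ≤ s := by
    have : 0 ≤ τ * σ * r := by positivity
    linarith
  have hαr : 1 - ‖α‖ ^ 2 ≤ 2 * r := by
    have h1 : (α * β).re ≤ ‖α‖ * ‖β‖ := by rw [← norm_mul]; exact Complex.re_le_norm _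
    have h2 : ‖α‖ * ‖β‖ ≤ ‖α‖ := mul_le_of_le_one_right (norm_nonneg _) hβ1
    rw [hr]
    nlinarith [sq_nonneg (1 - ‖α‖)]
  have hβr : 1 - ‖β‖ ^ 2 ≤ 2 * r := by
    have h1 : (α * β).re ≤ ‖α‖ * ‖β‖ := by rw [← norm_mul]; exact Complex.re_le_norm _
    have h2 : ‖α‖ * ‖β‖ ≤ ‖β‖ := mul_le_of_le_one_left (norm_nonneg _) hα1
    rw [hr]
    nlinarith [sq_nonneg (1 - ‖β‖)]
  have hτ1 : τ * (1 - ‖α‖ ^ 2) ≤ s := by
    have h1 : τ * r ≤ τ * σ * r := by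
      have : τ ≤ τ * σ := le_mul_of_one_le_right (by linarith) hΨ1
      exact mul_le_mul_of_nonneg_right this hr0
    nlinarith
  have hσ1 : σ * (1 - ‖β‖ ^ 2) ≤ s := by
    have h1 : σ * r ≤ τ * σ * r := by
      have : σ ≤ τ * σ := le_mul_of_one_le_left (by linarith) hΦ1
      exact mul_le_mul_of_nonneg_right this hr0
    nlinarith
  refine ⟨α, β, hα1, hβ1, ?_, ?_, ?_, ?_, ?_⟩
  · have h1 : ‖α * β - 1‖ ≤ √s := by
      apply Real.le_sqrt_of_sq_le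
      have h2 : ‖α * β - 1‖ ^ 2 = ‖α * β‖ ^ 2 - 2 * (α * β).re + 1 := by
        rw [← Complex.normSq_eq_norm_sq, ← Complex.normSq_eq_norm_sq, Complex.normSq_sub]
        simp
        ring
      rw [h2]
      have h3 : ‖α * β‖ ^ 2 ≤ 1 := by nlinarith [norm_nonneg (α * β)]
      have h4 : r ≤ τ * σ * r := le_mul_of_one_le_left hr0 hτσ
      rw [hr] at h4 hrs
      linarith
    have h2 : α ^ 2 * β ^ 2 - 1 = (α * β - 1) * (α * β + 1) := by ring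
    rw [h2, norm_mul]
    have h3 : ‖α * β + 1‖ ≤ 2 := by
      refine (norm_add_le _ _).trans ?_
      rw [norm_one]
      linarith
    calc ‖α * β - 1‖ * ‖α * β + 1‖ ≤ √s * 2 := mul_le_mul h1 h3 (norm_nonneg _) (Real.sqrt_nonneg _)
      _ = 2 * √s := by ring
  · rw [hα2, ← hτ]; exact hτ1
  · rw [hα3, ← hτ]; exact hτ1
  · rw [hβ2, ← hσ]; exact hσ1
  · rw [hβ3, ← hσ]; exact hσ1

end Pool.Agent.Helper60.GT
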